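import Pool.Agent.RRC.Targets

set_option autoImplicit false

namespace Pool.Agent.RRC

universe u v w

open Matrix Pool.Agent.RTL

theorem q_IRR : T_IRR.{u, w} := by
  intro O _ _ _ ϖ hϖ A _ _ N X _ _ Sg U V hUV hVU E hE c' D hD hirr y z
  by_contra hne
  push Not at hne
  let ia : O →+* FractionRing O := algebraMap O (FractionRing O)
  have hinj : Function.Injective ia := IsFractionRing.injective O (FractionRing O)
  let Y : Set X := {x | ∃ a, E a x z ≠ 0}
  have hyY : y ∉ Y := by
    rintro ⟨a, ha⟩
    exact ha (hne a)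
  have hzY : z ∈ Y := ⟨1, by rw [map_one, Matrix.one_apply_eq]; exact one_ne_zero⟩
  have hEV : ∀ a, V * (Sg a).map ia = E a * V := by
    intro a
    rw [hE, Matrix.mul_assoc _ U V, hUV, Matrix.mul_one]
  have hmul : ∀ a x x', x ∈ Y → x' ∉ Y → E a x' x = 0 := by
    rintro a x x' ⟨b, hb⟩ hx'
    by_contra h
    apply hx'
    refine ⟨a * D x * b, ?_⟩
    rw [map_mul, map_mul, hD, Matrix.mul_assoc, Matrix.mul_apply, Finset.sum_eq_single x]
    · rw [Matrix.single_mul_apply_same]
      exact mul_ne_zero h (mul_ne_zero (pow_ne_zero _ (pi_ne hϖ.ne_zero)) hb)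
    · intro x'' _ hx''
      rw [Matrix.single_mul_apply_of_ne _ _ _ _ _ hx'', mul_zero]
    · intro h'
      exact absurd (Finset.mem_univ x) h'
  let L : (Fin N → O) → X → FractionRing O := fun w => V *ᵥ fun p => ia (w p)
  have hL : ∀ w x, L w x = ∑ p, V x p * ia (w p) := fun w x => rfl
  let W : Submodule O (Fin N → O) :=
    { carrier := {w | ∀ x, x ∉ Y → L w x = 0}
      add_mem' := by
        intro w w' hw hw' x hx
        have h1 := hw x hx
        have h2 := hw' x hx
        rw [hL] at h1 h2 ⊢
        simp only [Pi.add_apply, map_add, mul_add, Finset.sum_add_distrib]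
        rw [h1, h2, add_zero]
      zero_mem' := by
        intro x _
        rw [hL]
        simp
      smul_mem' := by
        intro r w hw x hx
        have h1 := hw x hx
        rw [hL] at h1 ⊢
        have h2 : ∀ p, V x p * ia ((r • w) p) = ia r * (V x p * ia (w p)) := by
          intro p
          rw [Pi.smul_apply, smul_eq_mul, map_mul]
          ring
        simp only [h2]
        rw [← Finset.mul_sum, h1, mul_zero] }
  have hW : ∀ w, w ∈ W ↔ ∀ x, x ∉ Y → L w x = 0 := fun w => Iff.rfl
  have hstab : ∀ a, ∀ w ∈ W, Sg a *ᵥ w ∈ W := by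
    intro a w hw
    rw [hW] at hw ⊢
    intro x hx
    have h1 : L (Sg a *ᵥ w) = E a *ᵥ L w := by
      have h2 : (fun p => ia ((Sg a *ᵥ w) p)) = (Sg a).map ia *ᵥ fun p => ia (w p) := by
        funext p
        simp only [Matrix.mulVec, dotProduct, map_sum, map_mul, Matrix.map_apply]
      change V *ᵥ (fun p => ia ((Sg a *ᵥ w) p)) = E a *ᵥ (V *ᵥ fun p => ia (w p))
      rw [h2, Matrix.mulVec_mulVec, Matrix.mulVec_mulVec, hEV]
    rw [h1]
    simp only [Matrix.mulVec, dotProduct]
    refine Finset.sum_eq_zero fun x' _ => ?_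
    by_cases hx' : x' ∈ Y
    · rw [hmul a x' x hx' hx, zero_mul]
    · rw [hw x' hx', mul_zero]
  rcases hirr W hstab with hbot | ⟨k, hk⟩
  · obtain ⟨r, hr⟩ := IsLocalization.exist_integer_multiples_of_finite (nonZeroDivisors O)
      (fun p => U p z)
    choose w hw using hr
    have hLw : ∀ x, L w x = ia r * (V * U) x z := by
      intro x
      rw [hL, Matrix.mul_apply, Finset.mul_sum]
      refine Finset.sum_congr rfl fun p _ => ?_
      have h1 : ia (w p) = ia r * U p z := by
        have h2 := hw p
        rw [Algebra.smul_def] at h2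
        exact h2
      rw [h1]
      ring
    have hwW : w ∈ W := by
      rw [hW]
      intro x hx
      have hxz : x ≠ z := fun h => hx (h ▸ hzY)
      rw [hLw, hVU, Matrix.one_apply_ne hxz, mul_zero]
    rw [hbot, Submodule.mem_bot] at hwW
    have h1 := hLw z
    rw [hVU, Matrix.one_apply_eq, mul_one, hwW, hL] at h1
    simp only [Pi.zero_apply, map_zero, mul_zero, Finset.sum_const_zero] at h1
    have h2 : (r : O) = 0 := hinj (by rw [map_zero]; exact h1.symm)
    exact nonZeroDivisors.ne_zero r.2 h2
  · have hV : ∀ p, V y p = 0 := by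
      intro p
      have h1 := (hW _).1 (hk (Pi.single p 1)) y hyY
      rw [hL, Finset.sum_eq_single p] at h1
      · rw [Pi.smul_apply, Pi.single_eq_same, smul_eq_mul, mul_one, map_pow] at h1
        exact (mul_eq_zero.1 h1).resolve_right (pow_ne_zero _ (pi_ne hϖ.ne_zero))
      · intro p' _ hp'
        rw [Pi.smul_apply, Pi.single_eq_of_ne hp', smul_zero, map_zero, mul_zero]
      · intro h'
        exact absurd (Finset.mem_univ p) h'
    have h1 : (V * U) y y = 0 := by
      rw [Matrix.mul_apply]
      refine Finset.sum_eq_zero fun p _ => ?_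
      rw [hV, zero_mul]
    rw [hVU, Matrix.one_apply_eq] at h1
    exact one_ne_zero h1

end Pool.Agent.RRC
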