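import Pool.Agent.RRC.Targets

set_option autoImplicit false

/-!
# Target ALPHA: the exponent of a block (MP_78858f_nt)
-/

universe u v w

open Matrix Pool.Agent.RTL

namespace Pool.Agent.RRC

theorem p_ALPHA : T_ALPHA.{u, w} := by
  intro O _ _ _ ϖ hϖ A _ _ ι _ _ n E e0 hE i j hne
  obtain ⟨a0, s0, t0, h0⟩ := hne
  obtain ⟨e1, he1⟩ := exists_levU hϖ h0
  obtain ⟨α, ⟨a, s, t, hα⟩, hmin⟩ := Int.exists_least_of_bdd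
    (P := fun e : ℤ => ∃ a s t, LevU ϖ e (E a ⟨i, s⟩ ⟨j, t⟩))
    ⟨e0, fun e ⟨a, s, t, h⟩ => h.le hϖ (hE a ⟨i, s⟩ ⟨j, t⟩)⟩ ⟨e1, a0, s0, t0, he1⟩
  refine ⟨α, fun b p q => ?_, a, s, t, hα⟩
  by_cases hz : E b ⟨i, p⟩ ⟨j, q⟩ = 0
  · rw [hz]
    exact Lev.zero α
  · obtain ⟨e, he⟩ := exists_levU hϖ hz
    exact he.lev.mono hϖ.ne_zero (hmin e ⟨b, p, q, he⟩)

end Pool.Agent.RRC
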