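import Pool.Agent.RRC.Targets

set_option autoImplicit false

/-!
# RRC, BND: bounded denominators
-/

namespace Pool.Agent.RRC

universe u v w

open Matrix Pool.Agent.RTL

namespace BND_

variable {O : Type u} [CommRing O] [IsDomain O] [IsDiscreteValuationRing O] {ϖ : O}

/-- Every element has a bounded denominator. -/
lemma ex_nat (hϖ : Irreducible ϖ) (x : FractionRing O) : ∃ k : ℕ, Lev ϖ (-(k : ℤ)) x := by
  by_cases hx : x = 0
  · exact ⟨0, by rw [hx]; exact Lev.zero _⟩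
  · obtain ⟨e, he⟩ := exists_levU hϖ hx
    refine ⟨e.natAbs, he.lev.mono hϖ.ne_zero ?_⟩
    omega

/-- Finitely many elements have a common bounded denominator. -/
lemma ex_fin (hϖ : Irreducible ϖ) {I : Type} [Fintype I] (x : I → FractionRing O) :
    ∃ k : ℕ, ∀ i, Lev ϖ (-(k : ℤ)) (x i) := by
  choose k hk using fun i => ex_nat hϖ (x i)
  refine ⟨∑ i, k i, fun i => (hk i).mono hϖ.ne_zero ?_⟩
  have h1 : k i ≤ ∑ i, k i :=
    Finset.single_le_sum (f := k) (fun j _ => Nat.zero_le _) (Finset.mem_univ i)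
  omega

end BND_

open BND_ in
theorem p_BND : T_BND.{u} := by
  intro O _ _ _ ϖ hϖ N X _ _ U V
  obtain ⟨a, ha⟩ := ex_fin hϖ (fun i : Fin N × X => U i.1 i.2)
  obtain ⟨b, hb⟩ := ex_fin hϖ (fun i : X × Fin N => V i.1 i.2)
  refine ⟨-(b : ℤ) + -(a : ℤ), ?_⟩
  intro r M hM y z
  have h0 : -(b : ℤ) + -(a : ℤ) + r = (-(b : ℤ) + r) + -(a : ℤ) := by ring
  rw [h0, Matrix.mul_apply]
  apply Lev.sum
  intro q _
  apply Lev.mul hϖ.ne_zero _ (ha (q, z))
  rw [Matrix.mul_apply]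
  apply Lev.sum
  intro p _
  apply Lev.mul hϖ.ne_zero (hb (y, p))
  rw [Matrix.map_apply]
  exact (Lev.of_iff hϖ.ne_zero).2 (hM p q)

end Pool.Agent.RRC
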