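import Pool.Agent.RRC.Targets

set_option autoImplicit false

/-!
# Target CLS: the extension belonging to a cocycle which factors through `σ` modulo `ϖ ^ r`
-/

universe u v w

open Matrix Pool.Agent.RTL

namespace Pool.Agent.RRC

namespace CLS_

section

variable {O : Type u} [CommRing O]

/-- `M ↦ M v` as an `O`-linear map. -/
def mv (ϖ : O) (m : ℕ) {a b : ℕ} (e : Fin b → Quo ϖ m) :
    Matrix (Fin a) (Fin b) (Quo ϖ m) →ₗ[O] (Fin a → Quo ϖ m) where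
  toFun M := M *ᵥ e
  map_add' M M' := Matrix.add_mulVec M M' e
  map_smul' c M := Matrix.smul_mulVec c M e

/-- reduction modulo `ϖ ^ m` as an `O`-linear map. -/
def rl (ϖ : O) (m : ℕ) (a b : ℕ) :
    Matrix (Fin a) (Fin b) O →ₗ[O] Matrix (Fin a) (Fin b) (Quo ϖ m) where
  toFun M := red ϖ m M
  map_add' M M' := by
    ext i j
    exact map_add (Ideal.Quotient.mk (Ideal.span ({ϖ ^ m} : Set O))) (M i j) (M' i j)
  map_smul' c M := by
    ext i j
    exact map_mul (Ideal.Quotient.mk (Ideal.span ({ϖ ^ m} : Set O))) c (M i j)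

lemma mv_apply (ϖ : O) (m : ℕ) {a b : ℕ} (e : Fin b → Quo ϖ m)
    (M : Matrix (Fin a) (Fin b) (Quo ϖ m)) : mv ϖ m e M = M *ᵥ e := rfl

lemma rl_apply (ϖ : O) (m : ℕ) {a b : ℕ} (M : Matrix (Fin a) (Fin b) O) :
    rl ϖ m a b M = red ϖ m M := rfl

lemma red_add' (ϖ : O) (m : ℕ) {a b : ℕ} (M M' : Matrix (Fin a) (Fin b) O) :
    red ϖ m (M + M') = red ϖ m M + red ϖ m M' := (rl ϖ m a b).map_add M M'

lemma red_smul' (ϖ : O) (m : ℕ) {a b : ℕ} (c : O) (M : Matrix (Fin a) (Fin b) O) :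
    red ϖ m (c • M) = c • red ϖ m M := (rl ϖ m a b).map_smul c M

/-- the basis vector -/
def ev (ϖ : O) (m : ℕ) {b : ℕ} (k : Fin b) : Fin b → Quo ϖ m := Pi.single k 1

lemma mulVec_ev (ϖ : O) (m : ℕ) {a b : ℕ} (M : Matrix (Fin a) (Fin b) (Quo ϖ m)) (k : Fin b)
    (i : Fin a) : (M *ᵥ ev ϖ m k) i = M i k := by
  unfold ev
  rw [Matrix.mulVec_single_one]
  rfl

variable {G : Type v} [Group G]

/-- the map onto the extension -/
noncomputable def qq (ϖ : O) (m : ℕ) {a b : ℕ} (τ' : G →* Matrix (Fin b) (Fin b) O)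
    (η : MonoidAlgebra O G →ₗ[O] Matrix (Fin a) (Fin b) (Quo ϖ m)) :
    ((Fin b → MonoidAlgebra O G) × (Fin a → Quo ϖ m)) →ₗ[O]
      ((Fin a → Quo ϖ m) × (Fin b → Quo ϖ m)) :=
  LinearMap.prod
    (LinearMap.snd O _ _ +
      ∑ k, mv ϖ m (ev ϖ m k) ∘ₗ η ∘ₗ LinearMap.proj k ∘ₗ LinearMap.fst O _ _)
    (∑ k, mv ϖ m (ev ϖ m k) ∘ₗ rl ϖ m b b ∘ₗ (MonoidAlgebra.lift O _ G τ').toLinearMap ∘ₗ
      LinearMap.proj k ∘ₗ LinearMap.fst O _ _)

lemma qq_fst (ϖ : O) (m : ℕ) {a b : ℕ} (τ' : G →* Matrix (Fin b) (Fin b) O)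
    (η : MonoidAlgebra O G →ₗ[O] Matrix (Fin a) (Fin b) (Quo ϖ m))
    (x : Fin b → MonoidAlgebra O G) (v : Fin a → Quo ϖ m) :
    (qq ϖ m τ' η (x, v)).1 = v + ∑ k, η (x k) *ᵥ ev ϖ m k := by
  simp [qq, mv_apply]

lemma qq_snd (ϖ : O) (m : ℕ) {a b : ℕ} (τ' : G →* Matrix (Fin b) (Fin b) O)
    (η : MonoidAlgebra O G →ₗ[O] Matrix (Fin a) (Fin b) (Quo ϖ m))
    (x : Fin b → MonoidAlgebra O G) (v : Fin a → Quo ϖ m) :
    (qq ϖ m τ' η (x, v)).2 =
      ∑ k, red ϖ m (MonoidAlgebra.lift O _ G τ' (x k)) *ᵥ ev ϖ m k := by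
  simp [qq, mv_apply, rl_apply]

/-- the map to the module which is in the class -/
noncomputable def pp (ϖ : O) (m r : ℕ) {N : ℕ} (a : ℕ) {b : ℕ}
    (σ : G →* Matrix (Fin N) (Fin N) O) (τ' : G →* Matrix (Fin b) (Fin b) O) :
    ((Fin b → MonoidAlgebra O G) × (Fin a → Quo ϖ m)) →ₗ[O]
      ((Fin b → Fin N → Fin N → Quo ϖ r) ×
        ((Fin b → Fin b → Quo ϖ m) × (Fin a → Quo ϖ m))) :=
  LinearMap.prod
    (LinearMap.pi fun k => LinearMap.pi fun l => mv ϖ r (ev ϖ r l) ∘ₗ rl ϖ r N N ∘ₗ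
      (MonoidAlgebra.lift O _ G σ).toLinearMap ∘ₗ LinearMap.proj k ∘ₗ LinearMap.fst O _ _)
    (LinearMap.prod
      (LinearMap.pi fun k => mv ϖ m (ev ϖ m k) ∘ₗ rl ϖ m b b ∘ₗ
        (MonoidAlgebra.lift O _ G τ').toLinearMap ∘ₗ LinearMap.proj k ∘ₗ LinearMap.fst O _ _)
      (LinearMap.snd O _ _))

/-- the action on the source -/
noncomputable def ac (ϖ : O) (m : ℕ) {a : ℕ} (b : ℕ) (τ : G →* Matrix (Fin a) (Fin a) O)
    (g : G) : ((Fin b → MonoidAlgebra O G) × (Fin a → Quo ϖ m)) →ₗ[O]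
      ((Fin b → MonoidAlgebra O G) × (Fin a → Quo ϖ m)) :=
  LinearMap.prodMap
    (LinearMap.pi fun k => LinearMap.mulLeft O (MonoidAlgebra.of O G g) ∘ₗ LinearMap.proj k)
    (latLin ϖ m τ g)

lemma ac_apply (ϖ : O) (m : ℕ) {a : ℕ} (b : ℕ) (τ : G →* Matrix (Fin a) (Fin a) O)
    (g : G) (x : Fin b → MonoidAlgebra O G) (v : Fin a → Quo ϖ m) :
    ac ϖ m b τ g (x, v) = (fun k => MonoidAlgebra.of O G g * x k, red ϖ m (τ g) *ᵥ v) := rfl

lemma lift_of_mul {N : ℕ} (σ : G →* Matrix (Fin N) (Fin N) O) (g : G) (x : MonoidAlgebra O G) :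
    MonoidAlgebra.lift O _ G σ (MonoidAlgebra.of O G g * x) =
      σ g * MonoidAlgebra.lift O _ G σ x := by
  rw [map_mul, MonoidAlgebra.lift_of]

/-- the cocycle identity, extended linearly -/
lemma eta_mul (ϖ : O) (m : ℕ) {a b : ℕ} (τ : G →* Matrix (Fin a) (Fin a) O)
    (τ' : G →* Matrix (Fin b) (Fin b) O)
    (η : MonoidAlgebra O G →ₗ[O] Matrix (Fin a) (Fin b) (Quo ϖ m)) (z : Z1 ϖ m τ τ')
    (hz : ∀ g, z.1 g = η (MonoidAlgebra.of O G g)) (g : G) (x : MonoidAlgebra O G) :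
    η (MonoidAlgebra.of O G g * x) = red ϖ m (τ g) * η x +
      z.1 g * red ϖ m (MonoidAlgebra.lift O _ G τ' x) := by
  induction x using MonoidAlgebra.induction_on with
  | of h =>
    rw [← map_mul, ← hz, ← hz, MonoidAlgebra.lift_of]
    exact z.2 g h
  | add x y hx hy =>
    rw [mul_add, map_add, hx, hy, map_add, map_add, Matrix.mul_add, red_add', Matrix.mul_add]
    abel
  | smul c x hx =>
    rw [mul_smul_comm, map_smul, hx, map_smul, map_smul, red_smul', Matrix.mul_smul,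
      Matrix.mul_smul, smul_add]

lemma mulVec_sum' (ϖ : O) (m : ℕ) {a b : ℕ} {S : Type} (s : Finset S)
    (M : Matrix (Fin a) (Fin b) (Quo ϖ m)) (f : S → Fin b → Quo ϖ m) :
    M *ᵥ (∑ k ∈ s, f k) = ∑ k ∈ s, M *ᵥ f k :=
  map_sum (Matrix.mulVecLin M) f s

end

end CLS_

open CLS_ in
theorem p_CLS (h1 : T_PROD.{u, v}) (h2 : T_SUBQ.{u, v, max u v}) : T_CLS.{u, v} := by
  intro O _ ϖ G _ C hC N a b m r σ τ τ' hσ hτ hτ' η hη z hz
  refine h2 O G C hC _ _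
    ((piRep b (piRep N (latRep ϖ r σ))).prod ((piRep b (latRep ϖ m τ')).prod (latRep ϖ m τ)))
    (extRep ϖ m τ τ' z) ((Fin b → MonoidAlgebra O G) × (Fin a → Quo ϖ m)) (ac ϖ m b τ)
    (pp ϖ m r a σ τ') (qq ϖ m τ' η) ?_ ?_ ?_ ?_ ?_
  · rintro g ⟨x, v⟩
    refine Prod.ext ?_ (Prod.ext ?_ rfl)
    · funext k l
      change red ϖ r (MonoidAlgebra.lift O _ G σ (MonoidAlgebra.of O G g * x k)) *ᵥ ev ϖ r l =
        red ϖ r (σ g) *ᵥ (red ϖ r (MonoidAlgebra.lift O _ G σ (x k)) *ᵥ ev ϖ r l)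
      rw [lift_of_mul, red_mul, Matrix.mulVec_mulVec]
    · funext k
      change red ϖ m (MonoidAlgebra.lift O _ G τ' (MonoidAlgebra.of O G g * x k)) *ᵥ ev ϖ m k =
        red ϖ m (τ' g) *ᵥ (red ϖ m (MonoidAlgebra.lift O _ G τ' (x k)) *ᵥ ev ϖ m k)
      rw [lift_of_mul, red_mul, Matrix.mulVec_mulVec]
  · rintro g ⟨x, v⟩
    rw [ac_apply]
    refine Prod.ext ?_ ?_
    · change _ = red ϖ m (τ g) *ᵥ (qq ϖ m τ' η (x, v)).1 + z.1 g *ᵥ (qq ϖ m τ' η (x, v)).2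
      rw [qq_fst, qq_fst, qq_snd, Matrix.mulVec_add, mulVec_sum', mulVec_sum', add_assoc,
        ← Finset.sum_add_distrib]
      refine congrArg _ (Finset.sum_congr rfl fun k _ => ?_)
      rw [eta_mul ϖ m τ τ' η z hz, Matrix.add_mulVec, Matrix.mulVec_mulVec,
        Matrix.mulVec_mulVec]
    · change _ = red ϖ m (τ' g) *ᵥ (qq ϖ m τ' η (x, v)).2
      rw [qq_snd, qq_snd, mulVec_sum']
      refine Finset.sum_congr rfl fun k _ => ?_
      rw [lift_of_mul, red_mul, Matrix.mulVec_mulVec]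
  · rintro ⟨y, t⟩
    choose t' ht using fun k => Ideal.Quotient.mk_surjective (t k)
    refine ⟨(fun k => algebraMap O (MonoidAlgebra O G) (t' k),
      y - ∑ k, η (algebraMap O (MonoidAlgebra O G) (t' k)) *ᵥ ev ϖ m k), ?_⟩
    refine Prod.ext ?_ ?_
    · rw [qq_fst]
      exact sub_add_cancel _ _
    · rw [qq_snd]
      funext j
      change _ = t j
      rw [Finset.sum_apply, Finset.sum_eq_single j]
      · rw [mulVec_ev, AlgHom.commutes]
        change Ideal.Quotient.mk _ ((algebraMap O (Matrix (Fin b) (Fin b) O) (t' j)) j j) = t j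
        rw [Matrix.algebraMap_matrix_apply, if_pos rfl]
        exact ht j
      · intro k _ hkj
        rw [mulVec_ev, AlgHom.commutes]
        change Ideal.Quotient.mk _ ((algebraMap O (Matrix (Fin b) (Fin b) O) (t' k)) j k) = 0
        rw [Matrix.algebraMap_matrix_apply, if_neg (Ne.symm hkj), map_zero]
      · intro h
        exact absurd (Finset.mem_univ j) h
  · rintro ⟨x, v⟩ h
    have e1 : ∀ k l, red ϖ r (MonoidAlgebra.lift O _ G σ (x k)) *ᵥ ev ϖ r l = 0 := by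
      intro k l
      exact congrFun (congrFun (congrArg Prod.fst h) k) l
    have e2 : ∀ k, red ϖ m (MonoidAlgebra.lift O _ G τ' (x k)) *ᵥ ev ϖ m k = 0 := by
      intro k
      exact congrFun (congrArg (fun t => t.2.1) h) k
    have e3 : v = 0 := congrArg (fun t => t.2.2) h
    have e4 : ∀ k, η (x k) = 0 := by
      intro k
      apply hη
      intro i l
      have h3 := congrFun (e1 k l) i
      rw [mulVec_ev] at h3
      exact Ideal.mem_span_singleton.1 (Ideal.Quotient.eq_zero_iff_mem.1 h3)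
    refine Prod.ext ?_ ?_
    · rw [qq_fst, e3, zero_add]
      exact Finset.sum_eq_zero fun k _ => by rw [e4, Matrix.zero_mulVec]
    · rw [qq_snd]
      exact Finset.sum_eq_zero fun k _ => e2 k
  · exact hC.prod _ _ _ _ (h1 O G C hC _ _ (h1 O G C hC _ _ hσ N) b)
      (hC.prod _ _ _ _ (h1 O G C hC _ _ hτ' b) hτ)

end Pool.Agent.RRC
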