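import Pool.Agent.RRC.Targets

set_option autoImplicit false

/-!
# RRC: target COC
-/

universe u v w

open Matrix Pool.Agent.RTL

namespace Pool.Agent.RRC

namespace COC_

variable {O : Type u} [CommRing O] [IsDomain O] {ϖ : O}

theorem inj (hϖ : ϖ ≠ 0) {e : ℤ} {x y : O}
    (h : algebraMap O (FractionRing O) ϖ ^ e * algebraMap O (FractionRing O) x =
      algebraMap O (FractionRing O) ϖ ^ e * algebraMap O (FractionRing O) y) : x = y := by
  have h2 : algebraMap O (FractionRing O) ϖ ^ e ≠ 0 := zpow_ne_zero _ (pi_ne hϖ)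
  exact IsFractionRing.injective O (FractionRing O) (mul_left_cancel₀ h2 h)

theorem dvd (hϖ : ϖ ≠ 0) {e : ℤ} {k : ℕ} {x : O}
    (h : Lev ϖ (e + k) (algebraMap O (FractionRing O) ϖ ^ e *
      algebraMap O (FractionRing O) x)) : ϖ ^ k ∣ x := by
  obtain ⟨c, hc⟩ := h
  refine ⟨c, inj hϖ (e := e) ?_⟩
  rw [hc, zpow_add₀ (pi_ne hϖ), zpow_natCast, map_mul, map_pow]
  ring

end COC_

theorem p_COC : T_COC.{u, w} := by
  classical
  intro O _ _ _ ϖ hϖ A _ _ ι _ _ n T E ρ hT α hα i j hij eps heps hu
  have h0 : ϖ ≠ 0 := hϖ.ne_zero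
  have hex : ∀ a s t, ∃ o : O, E a ⟨i, s⟩ ⟨j, t⟩ =
      algebraMap O (FractionRing O) ϖ ^ (α i j) * algebraMap O (FractionRing O) o :=
    fun a s t => hα i j hij a s t
  choose ζ0 hζ0 using hex
  let ζ : A →ₗ[O] Matrix (Fin (n i)) (Fin (n j)) O :=
    { toFun := fun a => Matrix.of fun s t => ζ0 a s t
      map_add' := by
        intro a b
        ext s t
        refine COC_.inj h0 (e := α i j) ?_
        change algebraMap O (FractionRing O) ϖ ^ (α i j) *
            algebraMap O (FractionRing O) (ζ0 (a + b) s t) =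
          algebraMap O (FractionRing O) ϖ ^ (α i j) *
            algebraMap O (FractionRing O) (ζ0 a s t + ζ0 b s t)
        rw [map_add, mul_add, ← hζ0, ← hζ0, ← hζ0, map_add, Matrix.add_apply]
      map_smul' := by
        intro r a
        ext s t
        refine COC_.inj h0 (e := α i j) ?_
        change algebraMap O (FractionRing O) ϖ ^ (α i j) *
            algebraMap O (FractionRing O) (ζ0 (r • a) s t) =
          algebraMap O (FractionRing O) ϖ ^ (α i j) *
            algebraMap O (FractionRing O) (r * ζ0 a s t)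
        rw [map_mul, mul_left_comm, ← hζ0, ← hζ0, map_smul, Matrix.smul_apply,
          Algebra.smul_def] }
  have hζ : ∀ a s t, E a ⟨i, s⟩ ⟨j, t⟩ =
      algebraMap O (FractionRing O) ϖ ^ (α i j) * algebraMap O (FractionRing O) (ζ a s t) :=
    hζ0
  refine ⟨ζ, hζ, fun a b s t => ?_⟩
  refine COC_.dvd h0 (e := α i j) ?_
  set X : FractionRing O := ∑ r, algebraMap O (FractionRing O) (T i a s r) *
    E b ⟨i, r⟩ ⟨j, t⟩ with hX
  set Y : FractionRing O := ∑ r, E a ⟨i, s⟩ ⟨j, r⟩ *
    algebraMap O (FractionRing O) (T j b r t) with hY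
  have hX' : algebraMap O (FractionRing O) ϖ ^ (α i j) *
      algebraMap O (FractionRing O) ((T i a * ζ b) s t) = X := by
    rw [Matrix.mul_apply, map_sum, Finset.mul_sum, hX]
    refine Finset.sum_congr rfl fun r _ => ?_
    rw [map_mul, hζ]
    ring
  have hY' : algebraMap O (FractionRing O) ϖ ^ (α i j) *
      algebraMap O (FractionRing O) ((ζ a * T j b) s t) = Y := by
    rw [Matrix.mul_apply, map_sum, Finset.mul_sum, hY]
    refine Finset.sum_congr rfl fun r _ => ?_
    rw [map_mul, hζ]
    ring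
  have hval : algebraMap O (FractionRing O) ϖ ^ (α i j) *
      algebraMap O (FractionRing O) ((ζ (a * b) - (T i a * ζ b + ζ a * T j b)) s t) =
      ∑ u, ((∑ r, E a ⟨i, s⟩ ⟨u, r⟩ * E b ⟨u, r⟩ ⟨j, t⟩) -
        ((if u = i then X else 0) + (if u = j then Y else 0))) := by
    rw [Finset.sum_sub_distrib, Finset.sum_add_distrib, Finset.sum_ite_eq',
      Finset.sum_ite_eq', if_pos (Finset.mem_univ _), if_pos (Finset.mem_univ _),
      Matrix.sub_apply, Matrix.add_apply, map_sub, map_add, mul_sub, mul_add, hX', hY', ← hζ,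
      map_mul, Matrix.mul_apply, Fintype.sum_sigma]
  rw [hval]
  refine Lev.sum _ fun u _ => ?_
  by_cases hui : u = i
  · subst hui
    rw [if_pos rfl, if_neg hij, add_zero, hX, ← Finset.sum_sub_distrib]
    refine Lev.sum _ fun r _ => ?_
    rw [← sub_mul]
    refine Lev.mono h0 (by omega) (Lev.mul h0 (hT a u s r) (hα u j hij b r t))
  · by_cases huj : u = j
    · subst huj
      rw [if_neg hui, if_pos rfl, zero_add, hY, ← Finset.sum_sub_distrib]
      refine Lev.sum _ fun r _ => ?_
      rw [← mul_sub]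
      refine Lev.mono h0 (by omega) (Lev.mul h0 (hα i u hij a s r) (hT b u r t))
    · rw [if_neg hui, if_neg huj, add_zero, sub_zero]
      refine Lev.sum _ fun r _ => ?_
      have h1 := hu u hui huj
      refine Lev.mono h0 (by omega)
        (Lev.mul h0 (hα i u (Ne.symm hui) a s r) (hα u j huj b r t))

end Pool.Agent.RRC
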