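import Pool.Agent.RRC.Targets

set_option autoImplicit false

/-!
# Target DIAG
-/

namespace Pool.Agent.RRC

universe u v w

open Matrix Pool.Agent.RTL

theorem p_DIAG : T_DIAG.{u} := by
  intro K _ N X _ _ S μ hμ hS
  -- the cardinality
  have hcard : Fintype.card X = N := by
    have h1 := congrArg Polynomial.natDegree hS
    rw [Matrix.charpoly_natDegree_eq_dim, Polynomial.natDegree_finsetProd_X_sub_C_eq_card,
      Fintype.card_fin, Finset.card_univ] at h1
    exact h1.symm
  -- eigenvectors
  have hev : ∀ y, ∃ v : Fin N → K, v ≠ 0 ∧ S *ᵥ v = μ y • v := by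
    intro y
    have h1 : (Matrix.scalar (Fin N) (μ y) - S).det = 0 := by
      rw [← Matrix.eval_charpoly, hS, Polynomial.eval_prod]
      exact Finset.prod_eq_zero (Finset.mem_univ y) (by simp)
    obtain ⟨v, hv, hv2⟩ := Matrix.exists_mulVec_eq_zero_iff.2 h1
    refine ⟨v, hv, ?_⟩
    rw [Matrix.sub_mulVec, sub_eq_zero] at hv2
    rw [← hv2]
    ext i
    simp [Matrix.scalar_apply, Matrix.mulVec_diagonal]
  choose u hu0 hu using hev
  have hli : LinearIndependent K u := by
    refine Module.End.eigenvectors_linearIndependent' (Matrix.mulVecLin S) μ hμ u ?_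
    intro y
    refine ⟨?_, hu0 y⟩
    rw [Module.End.mem_eigenspace_iff, Matrix.mulVecLin_apply, hu]
  let e : X ≃ Fin N := Fintype.equivFinOfCardEq hcard
  set U : Matrix (Fin N) X K := Matrix.of fun i y => u y i with hUdef
  have hSU : S * U = U * Matrix.diagonal μ := by
    ext i y
    rw [Matrix.mul_diagonal]
    have h1 := congrFun (hu y) i
    rw [Pi.smul_apply, smul_eq_mul] at h1
    change (S *ᵥ u y) i = u y i * μ y
    rw [h1, mul_comm]
  set W : Matrix (Fin N) (Fin N) K := U.submatrix id e.symm with hW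
  have hWu : IsUnit W := by
    rw [← Matrix.linearIndependent_cols_iff_isUnit]
    exact hli.comp e.symm e.symm.injective
  have hdet : IsUnit W.det := (Matrix.isUnit_iff_isUnit_det W).1 hWu
  have hUW : U = W.submatrix id e := by
    ext i y
    simp [hW]
  have h1 : U * (W⁻¹.submatrix e id) = 1 := by
    rw [hUW, Matrix.submatrix_mul_equiv, Matrix.mul_nonsing_inv _ hdet]
    simp
  have h2 : (W⁻¹.submatrix e id) * U = 1 := by
    rw [hUW, Matrix.submatrix_mul _ _ e id e Function.bijective_id |>.symm,
      Matrix.nonsing_inv_mul _ hdet]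
    simp
  refine ⟨U, W⁻¹.submatrix e id, h1, h2, ?_⟩
  rw [Matrix.mul_assoc, hSU, ← Matrix.mul_assoc, h2, Matrix.one_mul]

end Pool.Agent.RRC
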