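import Pool.Agent.RRC.Targets

set_option autoImplicit false

/-!
# RRC: proof of the target DY (helper88)
-/

namespace Pool.Agent.RRC

universe u v w

open Matrix Pool.Agent.RTL

namespace DY_

/-- Congruence of products. -/
lemma dvd_prod_sub {O : Type u} [CommRing O] {X : Type} (m : O) (s : Finset X) (a b : X → O)
    (h : ∀ z ∈ s, m ∣ a z - b z) : m ∣ ∏ z ∈ s, a z - ∏ z ∈ s, b z := by
  classical
  induction s using Finset.induction_on with
  | empty => simp
  | insert t s ht ih =>
    rw [Finset.prod_insert ht, Finset.prod_insert ht]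
    have h1 := ih fun z hz => h z (Finset.mem_insert_of_mem hz)
    have h2 := h t (Finset.mem_insert_self _ _)
    have h3 : a t * ∏ z ∈ s, a z - b t * ∏ z ∈ s, b z =
        a t * (∏ z ∈ s, a z - ∏ z ∈ s, b z) + (a t - b t) * ∏ z ∈ s, b z := by ring
    rw [h3]
    exact dvd_add (Dvd.dvd.mul_left h1 _) (Dvd.dvd.mul_right h2 _)

/-- Polynomials of an element with diagonal image. -/
lemma aeval_diag {O : Type u} [CommRing O] {A : Type w} [Ring A] [Algebra O A] {X : Type}
    [Fintype X] [DecidableEq X] {S : Type v} [CommRing S] [Algebra O S]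
    (F : A →ₐ[O] Matrix X X S) (x : A) (e : X → S) (hx : F x = Matrix.diagonal e)
    (p : Polynomial O) :
    F (Polynomial.aeval x p) = Matrix.diagonal (fun t => Polynomial.aeval (e t) p) := by
  rw [← Polynomial.aeval_algHom_apply, hx]
  have h1 : Matrix.diagonal e = Matrix.diagonalAlgHom O e := rfl
  rw [h1, Polynomial.aeval_algHom_apply]
  change Matrix.diagonal (Polynomial.aeval e p) = _
  congr 1
  funext t
  have h2 := Polynomial.aeval_algHom_apply (Pi.evalAlgHom O (fun _ : X => S) t) e p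
  exact h2.symm

end DY_

theorem p_DY : T_DY.{u, w} := by
  intro O _ _ _ ϖ hϖ A _ _ X _ _ E TA x d ν c c' M0 hd hM0 hν hc hTA hE
  -- the differences of the `ν y` are units
  have hmem : ∀ y, ν y - d y ∈ IsLocalRing.maximalIdeal O := by
    intro y
    have h1 : ϖ ∈ IsLocalRing.maximalIdeal O :=
      (IsLocalRing.mem_maximalIdeal _).2 hϖ.not_isUnit
    obtain ⟨r, hr⟩ := (dvd_pow_self ϖ hM0.ne').trans (hν y)
    rw [hr]
    exact Ideal.mul_mem_right _ _ h1
  have hunit : ∀ y z, y ≠ z → IsUnit (ν y - ν z) := by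
    intro y z hyz
    by_contra hcon
    have h1 : ν y - ν z ∈ IsLocalRing.maximalIdeal O := (IsLocalRing.mem_maximalIdeal _).2 hcon
    have h2 : d y - d z ∈ IsLocalRing.maximalIdeal O := by
      have h3 : d y - d z = (ν y - ν z) - (ν y - d y) + (ν z - d z) := by ring
      rw [h3]
      exact Ideal.add_mem _ (Ideal.sub_mem _ h1 (hmem y)) (hmem z)
    exact (IsLocalRing.mem_maximalIdeal _).1 h2 (hd y z hyz)
  have hw : ∀ y, IsUnit (∏ z ∈ Finset.univ.erase y, (ν y - ν z)) := by
    intro y
    rw [IsUnit.prod_iff]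
    intro z hz
    exact hunit y z (Finset.ne_of_mem_erase hz).symm
  choose W hW using hw
  let q : X → Polynomial O := fun y => Polynomial.C (((W y)⁻¹ : Oˣ) : O) *
    ∏ z ∈ Finset.univ.erase y, (Polynomial.X - Polynomial.C (ϖ ^ c * ν z))
  have hcard : ∀ y : X, ϖ ^ c' = ∏ _z ∈ Finset.univ.erase y, ϖ ^ c := by
    intro y
    rw [Finset.prod_const, Finset.card_erase_of_mem (Finset.mem_univ y), Finset.card_univ,
      ← pow_mul]
    congr 1
    have h1 : 0 < Fintype.card X := Fintype.card_pos_iff.2 ⟨y⟩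
    obtain ⟨n, hn⟩ : ∃ n, Fintype.card X = n + 1 := ⟨Fintype.card X - 1, by omega⟩
    rw [hn] at hc ⊢
    have h2 : (n + 1) * c = n * c + c := by ring
    rw [h2] at hc
    have h3 : c' = n * c := by omega
    rw [h3, Nat.add_sub_cancel, mul_comm]
  have hev : ∀ (y : X) (r : O), (q y).eval (ϖ ^ c * r) =
      (((W y)⁻¹ : Oˣ) : O) * (ϖ ^ c' * ∏ z ∈ Finset.univ.erase y, (r - ν z)) := by
    intro y r
    have h1 : (q y).eval (ϖ ^ c * r) = (((W y)⁻¹ : Oˣ) : O) *
        ∏ z ∈ Finset.univ.erase y, (ϖ ^ c * r - ϖ ^ c * ν z) := by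
      simp only [q]
      rw [Polynomial.eval_mul, Polynomial.eval_C, Polynomial.eval_prod]
      congr 1
      apply Finset.prod_congr rfl
      intro z _
      rw [Polynomial.eval_sub, Polynomial.eval_X, Polynomial.eval_C]
    rw [h1, hcard y, ← Finset.prod_mul_distrib]
    congr 1
    apply Finset.prod_congr rfl
    intro z _
    ring
  have hself : ∀ y, (q y).eval (ϖ ^ c * ν y) = ϖ ^ c' := by
    intro y
    rw [hev, ← hW y]
    calc (((W y)⁻¹ : Oˣ) : O) * (ϖ ^ c' * ((W y : Oˣ) : O))
        = ϖ ^ c' * ((((W y)⁻¹ : Oˣ) : O) * ((W y : Oˣ) : O)) := by ring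
      _ = ϖ ^ c' := by rw [Units.inv_mul, mul_one]
  refine ⟨fun y => Polynomial.aeval x (q y), ⟨fun y => ?_, fun y p r => ?_⟩⟩
  · rw [DY_.aeval_diag E x _ hE]
    ext p r
    rw [Matrix.diagonal_apply, Matrix.single_apply]
    by_cases hpr : p = r
    · subst hpr
      rw [if_pos rfl, Polynomial.aeval_algebraMap_apply, Polynomial.coe_aeval_eq_eval]
      by_cases hy : y = p
      · subst hy
        rw [if_pos ⟨rfl, rfl⟩, hself, map_pow]
      · rw [if_neg (fun h => hy h.1), hev,
          Finset.prod_eq_zero (Finset.mem_erase.2 ⟨fun h => hy h.symm, Finset.mem_univ p⟩)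
            (sub_self (ν p)), mul_zero, mul_zero, map_zero]
    · rw [if_neg hpr, if_neg (fun h => hpr (h.1.symm.trans h.2))]
  · rw [DY_.aeval_diag TA x _ hTA, Matrix.sub_apply, Matrix.diagonal_apply, Matrix.single_apply]
    by_cases hpr : p = r
    · subst hpr
      rw [if_pos rfl, Polynomial.coe_aeval_eq_eval, hev]
      by_cases hy : y = p
      · subst hy
        rw [if_pos ⟨rfl, rfl⟩]
        have h1 : (((W y)⁻¹ : Oˣ) : O) * (ϖ ^ c' * ∏ z ∈ Finset.univ.erase y, (d y - ν z))
            - ϖ ^ c' = (((W y)⁻¹ : Oˣ) : O) * (ϖ ^ c' *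
              (∏ z ∈ Finset.univ.erase y, (d y - ν z) -
                ∏ z ∈ Finset.univ.erase y, (ν y - ν z))) := by
          rw [← hW y]
          have h2 : (((W y)⁻¹ : Oˣ) : O) * ((W y : Oˣ) : O) = 1 := Units.inv_mul _
          linear_combination (ϖ ^ c') * h2
        rw [h1, pow_add]
        refine Dvd.dvd.mul_left (mul_dvd_mul_left _ ?_) _
        apply DY_.dvd_prod_sub
        intro z _
        have h3 : d y - ν z - (ν y - ν z) = -(ν y - d y) := by ring
        rw [h3, dvd_neg]
        exact hν y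
      · rw [if_neg (fun h => hy h.1), sub_zero, pow_add]
        refine Dvd.dvd.mul_left (mul_dvd_mul_left _ ?_) _
        refine dvd_trans ?_ (Finset.dvd_prod_of_mem _
          (Finset.mem_erase.2 ⟨fun h => hy h.symm, Finset.mem_univ p⟩))
        have h3 : d p - ν p = -(ν p - d p) := by ring
        rw [h3, dvd_neg]
        exact hν p
    · rw [if_neg hpr, if_neg (fun h => hpr (h.1.symm.trans h.2)), sub_zero]
      exact dvd_zero _

end Pool.Agent.RRC
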