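import Pool.Agent.RRC.Targets

set_option autoImplicit false

namespace Pool.Agent.RRC

universe u v w

open Matrix Pool.Agent.RTL

namespace EV_

lemma conj_mul {K : Type u} [Field K] {N : ℕ} {X : Type} [Fintype X] [DecidableEq X]
    (U : Matrix (Fin N) X K) (V : Matrix X (Fin N) K) (hUV : U * V = 1)
    (M M' : Matrix (Fin N) (Fin N) K) : V * (M * M') * U = (V * M * U) * (V * M' * U) := by
  have h : (V * M * U) * (V * M' * U) = V * M * (U * V) * (M' * U) := by
    simp only [Matrix.mul_assoc]
  rw [h, hUV, Matrix.mul_one]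
  simp only [Matrix.mul_assoc]

/-- conjugation of an algebra homomorphism to matrices -/
noncomputable def ev {O : Type u} [CommRing O] [IsDomain O] {A : Type w} [Ring A] [Algebra O A]
    {N : ℕ} {X : Type} [Fintype X] [DecidableEq X] (Sg : A →ₐ[O] Matrix (Fin N) (Fin N) O)
    (U : Matrix (Fin N) X (FractionRing O)) (V : Matrix X (Fin N) (FractionRing O))
    (hUV : U * V = 1) (hVU : V * U = 1) : A →ₐ[O] Matrix X X (FractionRing O) where
  toFun a := V * (Sg a).map (algebraMap O (FractionRing O)) * U
  map_one' := by
    rw [map_one, Matrix.map_one _ (map_zero _) (map_one _), Matrix.mul_one, hVU]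
  map_mul' a b := by
    rw [map_mul, Matrix.map_mul, conj_mul U V hUV]
  map_zero' := by
    rw [map_zero, Matrix.map_zero _ (map_zero _), Matrix.mul_zero, Matrix.zero_mul]
  map_add' a b := by
    rw [map_add, Matrix.map_add _ (map_add _), Matrix.mul_add, Matrix.add_mul]
  commutes' r := by
    have h : ((algebraMap O (Matrix (Fin N) (Fin N) O)) r).map
        (algebraMap O (FractionRing O)) = algebraMap O (FractionRing O) r •
          (1 : Matrix (Fin N) (Fin N) (FractionRing O)) := by
      ext p q
      by_cases hpq : p = q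
      · subst hpq
        simp [Matrix.algebraMap_matrix_apply]
      · simp [Matrix.algebraMap_matrix_apply, hpq]
    rw [AlgHom.commutes, h, Matrix.mul_smul, Matrix.mul_one, Matrix.smul_mul, hVU,
      Algebra.algebraMap_eq_smul_one (A := Matrix X X (FractionRing O)), algebraMap_smul]

end EV_

theorem p_EV : T_EV.{u, w} := by
  intro O _ _ A _ _ N X _ _ Sg U V hUV hVU
  exact ⟨EV_.ev Sg U V hUV hVU, fun a => rfl⟩

end Pool.Agent.RRC
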