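import Pool.Agent.RRC.Targets

set_option autoImplicit false

/-!
# Target HENSEL of the project RRC (MP_78858f_nt)
-/

namespace Pool.Agent.RRC

universe u v w

open Matrix Pool.Agent.RTL

namespace HENSEL_

open Polynomial

lemma unit_add {O : Type u} [CommRing O] [IsLocalRing O] {ϖ : O} (h : ¬ IsUnit ϖ) {a b : O}
    (ha : IsUnit a) (hb : ϖ ∣ b) : IsUnit (a + b) := by
  by_contra hcon
  have h1 : a + b ∈ IsLocalRing.maximalIdeal O := (IsLocalRing.mem_maximalIdeal _).2 hcon
  have h2 : b ∈ IsLocalRing.maximalIdeal O := by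
    obtain ⟨c, rfl⟩ := hb
    exact Ideal.mul_mem_right _ _ ((IsLocalRing.mem_maximalIdeal _).2 h)
  have h3 : a ∈ IsLocalRing.maximalIdeal O := by
    have := Ideal.sub_mem _ h1 h2
    simpa using this
  exact (IsLocalRing.mem_maximalIdeal _).1 h3 ha

lemma monic_prod {O : Type u} [CommRing O] {X : Type} [Fintype X] (d : X → O) :
    (∏ z, (Polynomial.X - Polynomial.C (d z))).Monic :=
  Polynomial.monic_prod_of_monic _ _ fun z _ => Polynomial.monic_X_sub_C (d z)

lemma natDegree_prod {O : Type u} [CommRing O] [Nontrivial O] {X : Type} [Fintype X]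
    (d : X → O) :
    (∏ z, (Polynomial.X - Polynomial.C (d z))).natDegree = Fintype.card X := by
  rw [Polynomial.natDegree_prod_of_monic _ _ fun z _ => Polynomial.monic_X_sub_C (d z)]
  simp

lemma eval_prod {O : Type u} [CommRing O] {X : Type} [Fintype X] [DecidableEq X]
    (d : X → O) (x : O) (y : X) :
    (∏ z, (Polynomial.X - Polynomial.C (d z))).eval x =
      (x - d y) * ∏ z ∈ Finset.univ.erase y, (x - d z) := by
  rw [Polynomial.eval_prod, ← Finset.mul_prod_erase Finset.univ _ (Finset.mem_univ y)]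
  simp

lemma eval_deriv {O : Type u} [CommRing O] {X : Type} [Fintype X] [DecidableEq X]
    (d : X → O) (y : X) :
    (∏ z, (Polynomial.X - Polynomial.C (d z))).derivative.eval (d y) =
      ∏ z ∈ Finset.univ.erase y, (d y - d z) := by
  rw [← Finset.mul_prod_erase Finset.univ _ (Finset.mem_univ y), Polynomial.derivative_mul]
  simp [Polynomial.eval_prod]

lemma comp_inj {O : Type u} [CommRing O] [IsDomain O] {r : O} (hr : r ≠ 0) {p q : O[X]}
    (h : p.comp (Polynomial.C r * Polynomial.X) = q.comp (Polynomial.C r * Polynomial.X)) :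
    p = q := by
  ext n
  have h1 := congrArg (fun s => s.coeff n) h
  simp only [Polynomial.comp_C_mul_X_coeff] at h1
  exact mul_right_cancel₀ (pow_ne_zero n hr) h1

end HENSEL_

open HENSEL_ in
theorem p_HENSEL (hI : T_INTERP.{u}) : T_HENSEL.{u} := by
  intro O _ _ _ ϖ hϖ hcomp X _ _ d hd c m1 M0 hm1 hM0 f hf hdeg hdvd
  classical
  have hϖ0 : ϖ ≠ 0 := hϖ.ne_zero
  set N := Fintype.card X with hN
  set P : Polynomial O := ∏ z, (Polynomial.X - Polynomial.C (d z)) with hP
  have hPm : P.Monic := HENSEL_.monic_prod d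
  have hPd : P.natDegree = N := HENSEL_.natDegree_prod d
  set f' := f.comp (Polynomial.C (ϖ ^ c) * Polynomial.X) with hf'
  set g := f' - Polynomial.C (ϖ ^ (c * N)) * P with hg
  have hgc : ∀ n, N ≤ n → g.coeff n = 0 := by
    intro n hn
    rw [hg, Polynomial.coeff_sub, hf', Polynomial.comp_C_mul_X_coeff, Polynomial.coeff_C_mul]
    rcases hn.eq_or_lt with rfl | hlt
    · have h1 : f.coeff N = 1 := by
        rw [← hdeg]
        exact hf
      have h2 : P.coeff N = 1 := by
        rw [← hPd]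
        exact hPm
      rw [h1, h2, ← pow_mul]
      ring
    · rw [Polynomial.coeff_eq_zero_of_natDegree_lt (by rw [hdeg]; exact hlt),
        Polynomial.coeff_eq_zero_of_natDegree_lt (by rw [hPd]; exact hlt)]
      ring
  have hge : ∀ y, ϖ ^ m1 ∣ g.eval (d y) := by
    intro y
    have h1 : g.eval (d y) = f.eval (ϖ ^ c * d y) := by
      rw [hg, hf', Polynomial.eval_sub, Polynomial.eval_mul, hP, HENSEL_.eval_prod d (d y) y]
      simp [Polynomial.eval_comp]
    rw [h1]
    exact hdvd y
  have hgz : g.map (Ideal.Quotient.mk (Ideal.span {ϖ ^ m1})) = 0 := by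
    apply hI (O ⧸ Ideal.span {ϖ ^ m1}) X (fun y => Ideal.Quotient.mk _ (d y))
    · intro y z hyz
      have := (hd y z hyz).map (Ideal.Quotient.mk (Ideal.span {ϖ ^ m1}))
      rwa [map_sub] at this
    · refine lt_of_le_of_lt Polynomial.degree_map_le ?_
      rw [Polynomial.degree_lt_iff_coeff_zero]
      exact hgc
    · intro y
      rw [Polynomial.eval_map_apply, Ideal.Quotient.eq_zero_iff_mem,
        Ideal.mem_span_singleton]
      exact hge y
  have hgd : Polynomial.C (ϖ ^ m1) ∣ g := by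
    rw [Polynomial.C_dvd_iff_dvd_coeff]
    intro i
    have h1 := congrArg (fun s => s.coeff i) hgz
    simp only [Polynomial.coeff_map, Polynomial.coeff_zero] at h1
    rwa [Ideal.Quotient.eq_zero_iff_mem, Ideal.mem_span_singleton] at h1
  obtain ⟨h, hh⟩ := hgd
  have hhc : ∀ n, N ≤ n → h.coeff n = 0 := by
    intro n hn
    have h1 := hgc n hn
    rw [hh, Polynomial.coeff_C_mul] at h1
    exact (mul_eq_zero.1 h1).resolve_left (pow_ne_zero _ hϖ0)
  have hNP : P.degree = (N : WithBot ℕ) := by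
    rw [Polynomial.degree_eq_natDegree hPm.ne_zero, hPd]
  have hhd : (Polynomial.C (ϖ ^ M0) * h).degree < (N : WithBot ℕ) := by
    rw [Polynomial.degree_lt_iff_coeff_zero]
    intro n hn
    rw [Polynomial.coeff_C_mul, hhc n hn, mul_zero]
  obtain ⟨F, hF⟩ : ∃ F, F = P + Polynomial.C (ϖ ^ M0) * h := ⟨_, rfl⟩
  have hFm : F.Monic := by
    rw [hF]
    exact hPm.add_of_left (by rw [hNP]; exact hhd)
  have hFdeg : F.degree = (N : WithBot ℕ) := by
    rw [hF, Polynomial.degree_add_eq_left_of_degree_lt (by rw [hNP]; exact hhd), hNP]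
  have hf'F : f' = Polynomial.C (ϖ ^ (c * N)) * F := by
    have h1 : f' = g + Polynomial.C (ϖ ^ (c * N)) * P := by rw [hg]; ring
    rw [h1, hh, hF, hm1, show N * c + M0 = c * N + M0 by ring, pow_add,
      Polynomial.C_mul]
    ring
  have hPe : ∀ y, P.eval (d y) = 0 := by
    intro y
    rw [hP, HENSEL_.eval_prod d (d y) y]
    simp
  have hprodu : ∀ (x : O) (y : X), ϖ ∣ x - d y →
      IsUnit (∏ z ∈ Finset.univ.erase y, (x - d z)) := by
    intro x y hxy
    refine Finset.prod_induction _ IsUnit (fun _ _ => IsUnit.mul) isUnit_one ?_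
    intro z hz
    have hzy : y ≠ z := fun hyz => Finset.notMem_erase y Finset.univ (by rwa [← hyz] at hz)
    have h1 : x - d z = (d y - d z) + (x - d y) := by ring
    rw [h1]
    exact HENSEL_.unit_add hϖ.not_isUnit (hd y z hzy) hxy
  have hroot : ∀ y, ∃ x, F.eval x = 0 ∧ ϖ ∣ x - d y := by
    intro y
    have hH : HenselianRing O (Ideal.span ({ϖ} : Set O)) := inferInstance
    obtain ⟨x, hx1, hx2⟩ := hH.is_henselian F hFm (d y) (by
      rw [Ideal.mem_span_singleton, hF, Polynomial.eval_add, hPe y, zero_add,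
        Polynomial.eval_mul, Polynomial.eval_C]
      exact Dvd.dvd.mul_right (dvd_pow_self ϖ hM0.ne') _) (by
      have h1 : Ideal.Quotient.mk (Ideal.span ({ϖ} : Set O)) (F.derivative.eval (d y)) =
          Ideal.Quotient.mk (Ideal.span ({ϖ} : Set O))
            (∏ z ∈ Finset.univ.erase y, (d y - d z)) := by
        rw [Ideal.Quotient.mk_eq_mk_iff_sub_mem, Ideal.mem_span_singleton, hF,
          Polynomial.derivative_add, Polynomial.eval_add, hP, HENSEL_.eval_deriv d y,
          Polynomial.derivative_C_mul, Polynomial.eval_mul, Polynomial.eval_C,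
          add_sub_cancel_left]
        exact Dvd.dvd.mul_right (dvd_pow_self ϖ hM0.ne') _
      rw [h1]
      exact (hprodu (d y) y (by simp)).map _)
    exact ⟨x, hx1, Ideal.mem_span_singleton.1 hx2⟩
  choose ν hν1 hν2 using hroot
  have hν3 : ∀ y, ϖ ^ M0 ∣ ν y - d y := by
    intro y
    have h1 := hν1 y
    rw [hF, Polynomial.eval_add, hP, HENSEL_.eval_prod d (ν y) y, Polynomial.eval_mul,
      Polynomial.eval_C] at h1
    have h2 : ϖ ^ M0 ∣ (ν y - d y) * ∏ z ∈ Finset.univ.erase y, (ν y - d z) := by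
      rw [eq_neg_of_add_eq_zero_left h1]
      exact (Dvd.intro _ rfl).neg_right
    exact (hprodu (ν y) y (hν2 y)).dvd_mul_right.1 h2
  refine ⟨ν, hν3, ?_⟩
  have hνu : ∀ y z, y ≠ z → IsUnit (ν y - ν z) := by
    intro y z hyz
    have h1 : ν y - ν z = (d y - d z) + ((ν y - d y) - (ν z - d z)) := by ring
    rw [h1]
    exact HENSEL_.unit_add hϖ.not_isUnit (hd y z hyz) (dvd_sub (hν2 y) (hν2 z))
  have hQm := HENSEL_.monic_prod ν
  have hQd : (∏ z, (Polynomial.X - Polynomial.C (ν z))).degree = (N : WithBot ℕ) := by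
    rw [Polynomial.degree_eq_natDegree hQm.ne_zero, HENSEL_.natDegree_prod ν]
  have hFQ : F - ∏ z, (Polynomial.X - Polynomial.C (ν z)) = 0 := by
    apply hI O X ν hνu
    · have h1 := Polynomial.degree_sub_lt_left (hFdeg.trans hQd.symm) hFm.ne_zero
        (hFm.leadingCoeff.trans hQm.leadingCoeff.symm)
      rwa [hFdeg] at h1
    · intro y
      rw [Polynomial.eval_sub, hν1 y, HENSEL_.eval_prod ν (ν y) y]
      simp
  rw [sub_eq_zero] at hFQ
  apply HENSEL_.comp_inj (pow_ne_zero c hϖ0)
  change f' = _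
  rw [hf'F, hFQ, Polynomial.prod_comp]
  have h1 : ∀ y, (Polynomial.X - Polynomial.C (ϖ ^ c * ν y)).comp
      (Polynomial.C (ϖ ^ c) * Polynomial.X) =
      Polynomial.C (ϖ ^ c) * (Polynomial.X - Polynomial.C (ν y)) := by
    intro y
    rw [Polynomial.sub_comp, Polynomial.X_comp, Polynomial.C_comp, Polynomial.C_mul]
    ring
  rw [Finset.prod_congr rfl fun y _ => h1 y, Finset.prod_mul_distrib, Finset.prod_const,
    Finset.card_univ, ← Polynomial.C_pow, ← pow_mul]

end Pool.Agent.RRC
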