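import Pool.Agent.RRC.Targets

set_option autoImplicit false

/-!
# Interpolation over a commutative ring (project RRC, MP_78858f_nt)
-/

universe u v w

open Matrix Pool.Agent.RTL

namespace Pool.Agent.RRC

namespace INTERP_

lemma prod_dvd {R : Type u} [CommRing R] {X : Type} [DecidableEq X] (d : X → R)
    (hd : ∀ y z, y ≠ z → IsUnit (d y - d z)) (g : Polynomial R)
    (hg : ∀ y, g.eval (d y) = 0) (S : Finset X) :
    (∏ y ∈ S, (Polynomial.X - Polynomial.C (d y))) ∣ g := by
  induction S using Finset.induction_on with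
  | empty => simp
  | insert z S hz ih =>
    obtain ⟨h, hh⟩ := ih
    have h1 : g.eval (d z) = 0 := hg z
    rw [hh, Polynomial.eval_mul, Polynomial.eval_prod] at h1
    have h2 : IsUnit (∏ y ∈ S, (Polynomial.X - Polynomial.C (d y)).eval (d z)) := by
      refine Finset.prod_induction _ IsUnit (fun _ _ => IsUnit.mul) isUnit_one ?_
      intro y hy
      have hne : z ≠ y := fun e => hz (e ▸ hy)
      simpa using hd z y hne
    have h3 : h.eval (d z) = 0 := (h2.mul_right_eq_zero).1 h1
    obtain ⟨k, hk⟩ := Polynomial.dvd_iff_isRoot.2 (show h.IsRoot (d z) from h3)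
    refine ⟨k, ?_⟩
    rw [Finset.prod_insert hz, hh, hk]
    ring

end INTERP_

/-- INTERP -/
theorem p_INTERP : T_INTERP.{u} := by
  intro R _ X _ _ d hd g hdeg hg
  rcases subsingleton_or_nontrivial R with hR | hR
  · exact Subsingleton.elim _ _
  by_contra hne
  have hm : (∏ y : X, (Polynomial.X - Polynomial.C (d y))).Monic :=
    Polynomial.monic_prod_of_monic _ _ fun y _ => Polynomial.monic_X_sub_C (d y)
  have hn : (∏ y : X, (Polynomial.X - Polynomial.C (d y))).natDegree = Fintype.card X := by
    rw [Polynomial.natDegree_prod_of_monic _ _ fun y _ => Polynomial.monic_X_sub_C (d y)]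
    simp
  have hdg : g.degree < (∏ y : X, (Polynomial.X - Polynomial.C (d y))).degree := by
    rw [Polynomial.degree_eq_natDegree hm.ne_zero, hn]
    exact hdeg
  exact hm.not_dvd_of_degree_lt hne hdg (INTERP_.prod_dvd d hd g hg Finset.univ)

end Pool.Agent.RRC
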