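import Pool.Agent.RRC.Targets

set_option autoImplicit false
set_option linter.unusedSectionVars false

/-!
# NORM: normalization of the diagonal blocks
-/

universe u v w

open Matrix Pool.Agent.RTL

namespace Pool.Agent.RRC

namespace NORM_

variable {O : Type u} [CommRing O] [IsDomain O]

lemma isUnit_one_add [IsLocalRing O] {ϖ : O} (hϖ : Irreducible ϖ) {ρ : ℕ} (hρ : 0 < ρ)
    (o : O) : IsUnit (1 + ϖ ^ ρ * o) := by
  by_contra hcon
  have h1 : 1 + ϖ ^ ρ * o ∈ IsLocalRing.maximalIdeal O :=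
    (IsLocalRing.mem_maximalIdeal _).2 hcon
  have h0 : ϖ ∈ IsLocalRing.maximalIdeal O :=
    (IsLocalRing.mem_maximalIdeal _).2 hϖ.not_isUnit
  have h2 : ϖ ^ ρ * o ∈ IsLocalRing.maximalIdeal O :=
    Ideal.mul_mem_right _ _ (Ideal.pow_mem_of_mem _ h0 _ hρ)
  have h3 : (1 : O) ∈ IsLocalRing.maximalIdeal O := by
    have := Ideal.sub_mem _ h1 h2
    simpa using this
  exact (IsLocalRing.mem_maximalIdeal _).1 h3 isUnit_one

lemma one {ϖ : O} (hϖ : ϖ ≠ 0) {ρ c : ℕ} {x x' : FractionRing O}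
    (h : Lev ϖ ((ρ : ℤ) + 2 * c)
      (x * x' - algebraMap O (FractionRing O) (ϖ ^ c * ϖ ^ c))) :
    ∃ o : O, x * x' = algebraMap O (FractionRing O) ϖ ^ c * algebraMap O (FractionRing O) ϖ ^ c *
      algebraMap O (FractionRing O) (1 + ϖ ^ ρ * o) := by
  obtain ⟨o, ho⟩ := h
  refine ⟨o, ?_⟩
  have h2 : algebraMap O (FractionRing O) ϖ ^ ((ρ : ℤ) + 2 * c) =
      algebraMap O (FractionRing O) ϖ ^ ρ *
        (algebraMap O (FractionRing O) ϖ ^ c * algebraMap O (FractionRing O) ϖ ^ c) := by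
    rw [zpow_add₀ (pi_ne hϖ), zpow_natCast, two_mul, zpow_add₀ (pi_ne hϖ), zpow_natCast]
  rw [h2, map_mul, map_pow] at ho
  rw [map_add, map_mul, map_pow, map_one]
  linear_combination ho

lemma two {ϖ : O} (hϖ : ϖ ≠ 0) {ρ c : ℕ} {x x' m z : FractionRing O} {o t : O}
    (hx : x ≠ 0) (ho : IsUnit (1 + ϖ ^ ρ * o))
    (h1 : x * x' = algebraMap O (FractionRing O) ϖ ^ c * algebraMap O (FractionRing O) ϖ ^ c *
      algebraMap O (FractionRing O) (1 + ϖ ^ ρ * o))
    (h : Lev ϖ ((ρ : ℤ) + 2 * c)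
      (m * z * x' - algebraMap O (FractionRing O) (t * ϖ ^ c * ϖ ^ c))) :
    Lev ϖ ρ ((x / algebraMap O (FractionRing O) ϖ ^ c)⁻¹ * m *
      (z / algebraMap O (FractionRing O) ϖ ^ c) - algebraMap O (FractionRing O) t) := by
  obtain ⟨p, hp⟩ := h
  obtain ⟨v', hv'⟩ := ho.exists_right_inv
  have h2 : algebraMap O (FractionRing O) ϖ ^ ((ρ : ℤ) + 2 * c) =
      algebraMap O (FractionRing O) ϖ ^ ρ *
        (algebraMap O (FractionRing O) ϖ ^ c * algebraMap O (FractionRing O) ϖ ^ c) := by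
    rw [zpow_add₀ (pi_ne hϖ), zpow_natCast, two_mul, zpow_add₀ (pi_ne hϖ), zpow_natCast]
  have hP : algebraMap O (FractionRing O) ϖ ^ c ≠ 0 := pow_ne_zero _ (pi_ne hϖ)
  have hv : algebraMap O (FractionRing O) (1 + ϖ ^ ρ * o) *
      algebraMap O (FractionRing O) v' = 1 := by
    rw [← map_mul, hv', map_one]
  have hvx : algebraMap O (FractionRing O) (1 + ϖ ^ ρ * o) =
      1 + algebraMap O (FractionRing O) ϖ ^ ρ * algebraMap O (FractionRing O) o := by
    rw [map_add, map_mul, map_pow, map_one]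
  rw [h2, map_mul, map_mul, map_pow] at hp
  refine ⟨v' * (p - t * o), ?_⟩
  rw [zpow_natCast, map_mul, map_sub, map_mul]
  generalize algebraMap O (FractionRing O) (1 + ϖ ^ ρ * o) = V at *
  generalize algebraMap O (FractionRing O) v' = W at *
  generalize algebraMap O (FractionRing O) p = p1 at *
  generalize algebraMap O (FractionRing O) t = t1 at *
  generalize algebraMap O (FractionRing O) o = o1 at *
  generalize algebraMap O (FractionRing O) ϖ ^ c = P at *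
  generalize algebraMap O (FractionRing O) ϖ ^ ρ = R at *
  have e1 : (x / P)⁻¹ * m * (z / P) = m * z / x := by
    field_simp
  have hx' : x' = P * P * V / x := by
    field_simp
    linear_combination h1
  rw [e1]
  have e2 : m * z / x * V - t1 = R * p1 := by
    have h3 : P * P ≠ 0 := mul_ne_zero hP hP
    apply mul_left_cancel₀ h3
    rw [hx'] at hp
    linear_combination hp
  have e3 : m * z / x = W * (t1 + R * p1) := by
    have : m * z / x = m * z / x * (V * W) := by rw [hv, mul_one]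
    rw [this]
    linear_combination W * e2
  rw [e3]
  have e4 : W = 1 - W * (R * o1) := by
    rw [hvx] at hv
    linear_combination hv
  linear_combination t1 * e4

end NORM_

theorem p_NORM (h : T_WALK3.{u, w}) : T_NORM.{u, w} := by
  intro O _ _ _ ϖ hϖ A _ _ ι _ _ n hn T E m k c c' ρ D hkm hk hρ hTr hD hsurj
  have hw := h O ϖ hϖ.ne_zero A (Idx n) E (bd T) m k c' D hkm hTr hD
  have hlev : (k : ℤ) - 3 * c' = (ρ : ℤ) + 2 * c := by
    rw [hk]
    push_cast
    ring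
  rw [hlev] at hw
  have hZ : ∀ y : Idx n, ∃ a : A, T y.1 a = ϖ ^ c • Matrix.single y.2 ⟨0, hn y.1⟩ (1 : O) := by
    rintro ⟨i, s⟩
    obtain ⟨a, ha⟩ := hsurj (Function.update (fun j => 0) i
      (Matrix.single s ⟨0, hn i⟩ (1 : O)))
    refine ⟨a, ?_⟩
    have := ha i
    rw [Function.update_self] at this
    exact this
  have hZ' : ∀ y : Idx n, ∃ a : A, T y.1 a = ϖ ^ c • Matrix.single ⟨0, hn y.1⟩ y.2 (1 : O) := by
    rintro ⟨i, s⟩
    obtain ⟨a, ha⟩ := hsurj (Function.update (fun j => 0) i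
      (Matrix.single ⟨0, hn i⟩ s (1 : O)))
    refine ⟨a, ?_⟩
    have := ha i
    rw [Function.update_self] at this
    exact this
  choose Z hZ using hZ
  choose Z' hZ' using hZ'
  have eZ : ∀ i (s : Fin (n i)), bd T (Z ⟨i, s⟩) ⟨i, s⟩ (bp hn i) = ϖ ^ c := by
    intro i s
    have h1 := hZ ⟨i, s⟩
    simp only at h1
    unfold bp
    rw [bd_eq, h1]
    simp
  have eZ' : ∀ i (s : Fin (n i)), bd T (Z' ⟨i, s⟩) (bp hn i) ⟨i, s⟩ = ϖ ^ c := by
    intro i s
    have h1 := hZ' ⟨i, s⟩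
    simp only at h1
    unfold bp
    rw [bd_eq, h1]
    simp
  have h1 : ∀ y : Idx n, ∃ o : O, E (Z y) y (bp hn y.1) * E (Z' y) (bp hn y.1) y =
      algebraMap O (FractionRing O) ϖ ^ c * algebraMap O (FractionRing O) ϖ ^ c *
      algebraMap O (FractionRing O) (1 + ϖ ^ ρ * o) := by
    rintro ⟨i, s⟩
    have h2 := hw (Z ⟨i, s⟩) 1 (Z' ⟨i, s⟩) ⟨i, s⟩ (bp hn i) (bp hn i)
    rw [map_one, map_one, Matrix.one_apply_eq, Matrix.one_apply_eq, mul_one, mul_one,
      eZ, eZ'] at h2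
    exact NORM_.one hϖ.ne_zero h2
  choose o ho using h1
  have hunit : ∀ y, IsUnit (1 + ϖ ^ ρ * o y) := fun y => NORM_.isUnit_one_add hϖ hρ _
  have hP : algebraMap O (FractionRing O) ϖ ^ c ≠ 0 := pow_ne_zero _ (pi_ne hϖ.ne_zero)
  have hne : ∀ y : Idx n, E (Z y) y (bp hn y.1) ≠ 0 := by
    intro y h0
    have h2 := ho y
    rw [h0, zero_mul] at h2
    exact mul_ne_zero (mul_ne_zero hP hP) (pi_ne (hunit y).ne_zero) h2.symm
  refine ⟨fun y => E (Z y) y (bp hn y.1) / algebraMap O (FractionRing O) ϖ ^ c,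
    fun y => div_ne_zero (hne y) hP, ?_⟩
  intro a i s t
  have h2 := hw a (Z ⟨i, t⟩) (Z' ⟨i, s⟩) ⟨i, s⟩ ⟨i, t⟩ (bp hn i)
  rw [eZ, eZ', bd_eq] at h2
  exact NORM_.two hϖ.ne_zero (hne ⟨i, s⟩) (hunit ⟨i, s⟩) (ho ⟨i, s⟩) h2

end Pool.Agent.RRC
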