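import Pool.Agent.RRC.Targets

set_option autoImplicit false

/-!
# Target ORD of the project RRC (MP_78858f_nt)
-/

namespace Pool.Agent.RRC

universe u v w

open Matrix Pool.Agent.RTL

namespace ORD_

/-- a matrix entry is divisible if the image modulo `x` vanishes -/
lemma dvd_of_map {O : Type u} [CommRing O] {X Y : Type*} (x : O) (M : Matrix X Y O)
    (h : M.map (Ideal.Quotient.mk (Ideal.span {x})) = 0) (p : X) (q : Y) : x ∣ M p q := by
  have h1 : Ideal.Quotient.mk (Ideal.span {x}) (M p q) = 0 := by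
    have := congrFun (congrFun h p) q
    simpa using this
  rwa [Ideal.Quotient.eq_zero_iff_mem, Ideal.mem_span_singleton] at h1

/-- matrices with congruent entries have the same image -/
lemma map_eq {O : Type u} [CommRing O] {X Y : Type*} (x : O) (M N : Matrix X Y O)
    (h : ∀ p q, x ∣ (M - N) p q) :
    M.map (Ideal.Quotient.mk (Ideal.span {x})) =
      N.map (Ideal.Quotient.mk (Ideal.span {x})) := by
  ext p q
  rw [Matrix.map_apply, Matrix.map_apply]
  apply Ideal.Quotient.eq.2
  rw [Ideal.mem_span_singleton]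
  exact h p q

/-- the entries of a product are divisible if those of the left factor are -/
lemma dvd_mul_left {O : Type u} [CommRing O] {X Y Z : Type*} [Fintype Y] (x : O)
    (M : Matrix X Y O) (N : Matrix Y Z O) (h : ∀ p q, x ∣ M p q) (p : X) (q : Z) :
    x ∣ (M * N) p q := by
  rw [Matrix.mul_apply]
  exact Finset.dvd_sum fun r _ => Dvd.dvd.mul_right (h p r) _

/-- the entries of a product are divisible if those of the right factor are -/
lemma dvd_mul_right {O : Type u} [CommRing O] {X Y Z : Type*} [Fintype Y] (x : O)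
    (M : Matrix X Y O) (N : Matrix Y Z O) (h : ∀ p q, x ∣ N p q) (p : X) (q : Z) :
    x ∣ (M * N) p q := by
  rw [Matrix.mul_apply]
  exact Finset.dvd_sum fun r _ => Dvd.dvd.mul_left (h r q) _

end ORD_

theorem p_ORD : T_ORD.{u, w} := by
  intro O _ _ _ ϖ hϖ A _ _ ι _ _ n T E m k c c' D hm hD i j hij α ζ hζ hex eps l heps Y hY
  obtain ⟨a0, s, t, o, ho, hE0⟩ := hex
  have hp : algebraMap O (FractionRing O) ϖ ≠ 0 := pi_ne hϖ.ne_zero
  have hpα : algebraMap O (FractionRing O) ϖ ^ α ≠ 0 := zpow_ne_zero _ hp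
  have hinj := IsFractionRing.injective O (FractionRing O)
  -- the unit
  have hz0 : ζ a0 s t = o := by
    apply hinj
    apply mul_left_cancel₀ hpα
    rw [← hζ, hE0]
  set y : Idx n := ⟨i, s⟩ with hy
  set z : Idx n := ⟨j, t⟩ with hz
  set a : A := D y * a0 * D z with ha
  -- the entry of `E a`
  have hEa : E a y z = algebraMap O (FractionRing O) ϖ ^ c' * E a0 y z *
      algebraMap O (FractionRing O) ϖ ^ c' := by
    rw [ha, map_mul, map_mul, hD.E, hD.E]
    simp [Matrix.mul_apply, Matrix.single_apply, Finset.sum_ite_eq]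
  have hza : ζ a s t = ϖ ^ (2 * c') * o := by
    apply hinj
    apply mul_left_cancel₀ hpα
    rw [← hζ, ← hy, ← hz, hEa, hE0, map_mul, map_pow, two_mul, pow_add]
    ring
  -- the entries of `bd T a`
  have hbd : ∀ p q, ϖ ^ k ∣ bd T a p q := by
    apply ORD_.dvd_of_map
    have h1 := ORD_.map_eq (ϖ ^ k) _ _ (hD.T y)
    have h2 := ORD_.map_eq (ϖ ^ k) _ _ (hD.T z)
    rw [ha, map_mul, map_mul, Matrix.map_mul, Matrix.map_mul, h1, h2, ← Matrix.map_mul,
      ← Matrix.map_mul]
    have h3 : Matrix.single y y (ϖ ^ c') * bd T a0 * Matrix.single z z (ϖ ^ c') = 0 := by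
      have h4 : bd T a0 y z = 0 := bd_ne T a0 hij s t
      ext p q
      by_cases h5 : p = y
      · subst h5
        by_cases h6 : q = z
        · subst h6
          simp [Matrix.mul_apply, Matrix.single_apply, Finset.sum_ite_eq, h4]
        · simp [h6]
      · rw [Matrix.mul_assoc]
        simp [h5]
    rw [h3]
    ext p q
    simp
  have hTi : ∀ p q, ϖ ^ k ∣ T i a p q := fun p q => by
    rw [← bd_eq T a i p q]
    exact hbd _ _
  have hTj : ∀ p q, ϖ ^ k ∣ T j a p q := fun p q => by
    rw [← bd_eq T a j p q]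
    exact hbd _ _
  have hkm : k ≤ m := by omega
  have h7 : ϖ ^ k ∣ (ϖ ^ (l + (m - eps)) • ζ a - (T i a * Y - Y * T j a)) s t :=
    (pow_dvd_pow ϖ hkm).trans (hY a s t)
  have h8 : ϖ ^ k ∣ (T i a * Y - Y * T j a) s t := by
    rw [Matrix.sub_apply]
    exact dvd_sub (ORD_.dvd_mul_left _ _ _ hTi s t) (ORD_.dvd_mul_right _ _ _ hTj s t)
  have h9 : ϖ ^ k ∣ ϖ ^ (l + (m - eps)) * ζ a s t := by
    have h10 := dvd_add h7 h8
    rwa [Matrix.sub_apply, sub_add_cancel, Matrix.smul_apply, smul_eq_mul] at h10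
  rw [hza, ← mul_assoc, ← pow_add] at h9
  have h11 : ϖ ^ k ∣ ϖ ^ (l + (m - eps) + 2 * c') := (ho.dvd_mul_right).1 h9
  have h12 : k ≤ l + (m - eps) + 2 * c' :=
    (pow_dvd_pow_iff hϖ.ne_zero hϖ.not_isUnit).1 h11
  omega

end Pool.Agent.RRC
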