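import Pool.Agent.RRC.Targets

set_option autoImplicit false

/-!
# Finite powers in a closed class
-/

namespace Pool.Agent.RRC

universe u v w

open Matrix Pool.Agent.RTL

theorem p_PROD : T_PROD.{u, v} := by
  intro O _ G _ C hC M _ _ ρ hM k
  induction k with
  | zero =>
    refine hC.quot M (Fin 0 → M) ρ (piRep 0 ρ) 0 ?_ ?_ hM
    · intro y
      exact ⟨0, Subsingleton.elim _ _⟩
    · intro g x
      exact Subsingleton.elim _ _
  | succ k ih =>
    refine hC.sub (Fin (k + 1) → M) (M × (Fin k → M)) (piRep (k + 1) ρ)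
      (ρ.prod (piRep k ρ))
      (LinearMap.prod (LinearMap.proj 0) (LinearMap.pi fun i => LinearMap.proj i.succ))
      ?_ ?_ (hC.prod M (Fin k → M) ρ (piRep k ρ) hM ih)
    · intro x y hxy
      have h1 : x 0 = y 0 := congrArg Prod.fst hxy
      have h2 : (fun i : Fin k => x i.succ) = fun i : Fin k => y i.succ := congrArg Prod.snd hxy
      funext i
      refine Fin.cases h1 (fun j => ?_) i
      exact congrFun h2 j
    · intro g x
      rfl

end Pool.Agent.RRC
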