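import Pool.Agent.RRC.Targets

set_option autoImplicit false

/-!
# Target RESC: rescaling of the basis (MP_78858f_nt)
-/

universe u v w

open Matrix Pool.Agent.RTL

namespace Pool.Agent.RRC

theorem p_RESC : T_RESC.{u} := by
  intro K _ N X _ _ U V hUV hVU u hu
  have h1 : Matrix.diagonal u * Matrix.diagonal (fun y => (u y)⁻¹) = 1 := by
    rw [Matrix.diagonal_mul_diagonal, ← Matrix.diagonal_one]
    congr 1
    funext y
    exact mul_inv_cancel₀ (hu y)
  have h2 : Matrix.diagonal (fun y => (u y)⁻¹) * Matrix.diagonal u = 1 := by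
    rw [Matrix.diagonal_mul_diagonal, ← Matrix.diagonal_one]
    congr 1
    funext y
    exact inv_mul_cancel₀ (hu y)
  refine ⟨U * Matrix.diagonal u, Matrix.diagonal (fun y => (u y)⁻¹) * V, ?_, ?_, ?_⟩
  · rw [Matrix.mul_assoc, ← Matrix.mul_assoc (Matrix.diagonal u), h1, Matrix.one_mul, hUV]
  · rw [Matrix.mul_assoc, ← Matrix.mul_assoc V, hVU, Matrix.one_mul, h2]
  · intro M y z
    have h3 : Matrix.diagonal (fun y => (u y)⁻¹) * V * M * (U * Matrix.diagonal u) =
        Matrix.diagonal (fun y => (u y)⁻¹) * (V * M * U) * Matrix.diagonal u := by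
      simp only [Matrix.mul_assoc]
    rw [h3, Matrix.mul_diagonal, Matrix.diagonal_mul]

end Pool.Agent.RRC
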