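import Pool.Agent.RRC.Targets

set_option autoImplicit false

/-!
# RRC: target ROOTS
-/

universe u v w

open Matrix Pool.Agent.RTL

namespace Pool.Agent.RRC

namespace ROOTS_

theorem aeval_diag {O : Type u} [CommRing O] {X : Type} [Fintype X] [DecidableEq X]
    (e : X → O) (f : Polynomial O) :
    Polynomial.aeval (Matrix.diagonal e) f = Matrix.diagonal (fun y => f.eval (e y)) := by
  induction f using Polynomial.induction_on' with
  | add p q hp hq =>
    rw [map_add, hp, hq, Matrix.diagonal_add]
    simp only [Polynomial.eval_add]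
  | monomial n a =>
    rw [Polynomial.aeval_monomial, Matrix.diagonal_pow, Matrix.algebraMap_eq_diagonal,
      Matrix.diagonal_mul_diagonal]
    simp [Polynomial.eval_monomial]

end ROOTS_

theorem p_ROOTS : T_ROOTS.{u, w} := by
  intro O _ _ ϖ hϖ A _ _ N X _ _ Sg TA c m m1 hm htr hE x d hx y
  obtain ⟨a, ha⟩ := hE y
  have h1 : Sg (Polynomial.aeval x (Sg x).charpoly * a) = 0 := by
    rw [map_mul, ← Polynomial.aeval_algHom_apply, Matrix.aeval_self_charpoly, zero_mul]
  have h2 : TA (Polynomial.aeval x (Sg x).charpoly * a) =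
      Matrix.diagonal (fun z => (Sg x).charpoly.eval (ϖ ^ c * d z)) *
        Matrix.single y y (ϖ ^ c) := by
    rw [map_mul, ← Polynomial.aeval_algHom_apply, hx, ha, ROOTS_.aeval_diag]
  have h3 := htr (Polynomial.aeval x (Sg x).charpoly * a)
  have h4 : (Matrix.diagonal (fun z => (Sg x).charpoly.eval (ϖ ^ c * d z)) *
        Matrix.single y y (ϖ ^ c)).trace = ϖ ^ c * (Sg x).charpoly.eval (ϖ ^ c * d y) := by
    rw [Matrix.trace, Finset.sum_eq_single y]
    · rw [Matrix.diag_apply, Matrix.diagonal_mul, Matrix.single_apply_same, mul_comm]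
    · intro z _ hz
      rw [Matrix.diag_apply, Matrix.diagonal_mul, Matrix.single_apply_of_ne, mul_zero]
      intro h
      exact hz h.1.symm
    · intro h
      exact absurd (Finset.mem_univ y) h
  rw [h1, h2, h4, Matrix.trace_zero, zero_sub, dvd_neg, hm, pow_add] at h3
  exact (mul_dvd_mul_iff_left (pow_ne_zero c hϖ)).1 h3

end Pool.Agent.RRC
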