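import Pool.Agent.RRC.Targets

set_option autoImplicit false

/-!
# Target SETUP
-/

universe u v w

open Matrix Pool.Agent.RTL

namespace Pool.Agent.RRC

theorem p_SETUP : T_SETUP.{u, v} := by
  intro O _ ϖ G _ ι _ _ n N σ τ c m hb htr
  constructor
  · intro a
    induction a using MonoidAlgebra.induction_linear with
    | zero => simp
    | add a b ha hb =>
      have h1 : ((MonoidAlgebra.lift O _ G σ) (a + b)).trace -
          (bd (fun i => MonoidAlgebra.lift O _ G (τ i)) (a + b)).trace =
          (((MonoidAlgebra.lift O _ G σ) a).trace -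
            (bd (fun i => MonoidAlgebra.lift O _ G (τ i)) a).trace) +
          (((MonoidAlgebra.lift O _ G σ) b).trace -
            (bd (fun i => MonoidAlgebra.lift O _ G (τ i)) b).trace) := by
        rw [map_add, map_add, Matrix.trace_add, Matrix.trace_add]
        ring
      rw [h1]
      exact dvd_add ha hb
    | single g x =>
      have h1 : ((MonoidAlgebra.lift O _ G σ) (MonoidAlgebra.single g x)).trace -
          (bd (fun i => MonoidAlgebra.lift O _ G (τ i)) (MonoidAlgebra.single g x)).trace =
          x * ((σ g).trace - ∑ i, (τ i g).trace) := by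
        rw [bd_apply, Matrix.trace_blockDiagonal', MonoidAlgebra.lift_single, Matrix.trace_smul]
        have h2 : ∀ i, ((MonoidAlgebra.lift O _ G (τ i)) (MonoidAlgebra.single g x)).trace =
            x * (τ i g).trace := by
          intro i
          rw [MonoidAlgebra.lift_single, Matrix.trace_smul, smul_eq_mul]
        rw [Finset.sum_congr rfl (fun i _ => h2 i), ← Finset.mul_sum, smul_eq_mul, mul_sub]
      rw [h1]
      exact Dvd.dvd.mul_left (htr g) x
  · intro b
    obtain ⟨a, ha⟩ := hb b
    refine ⟨MonoidAlgebra.ofCoeff a, fun i => ?_⟩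
    rw [← ha i]
    exact MonoidAlgebra.lift_apply _ _

end Pool.Agent.RRC
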