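import Pool.Agent.RRC.Targets

set_option autoImplicit false

/-!
# Target STEPS of the project RRC (MP_78858f_nt)
-/

namespace Pool.Agent.RRC

universe u v w

open Matrix Pool.Agent.RTL

namespace STEPS_

/-- a matrix entry is divisible if the image modulo `x` vanishes -/
lemma dvd_of_map {O : Type u} [CommRing O] {X Y : Type*} (x : O) (M : Matrix X Y O)
    (h : M.map (Ideal.Quotient.mk (Ideal.span {x})) = 0) (p : X) (q : Y) : x ∣ M p q := by
  have h1 : Ideal.Quotient.mk (Ideal.span {x}) (M p q) = 0 := by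
    have := congrFun (congrFun h p) q
    simpa using this
  rwa [Ideal.Quotient.eq_zero_iff_mem, Ideal.mem_span_singleton] at h1

/-- matrices with congruent entries have the same image -/
lemma map_eq {O : Type u} [CommRing O] {X Y : Type*} (x : O) (M N : Matrix X Y O)
    (h : ∀ p q, x ∣ (M - N) p q) :
    M.map (Ideal.Quotient.mk (Ideal.span {x})) =
      N.map (Ideal.Quotient.mk (Ideal.span {x})) := by
  ext p q
  rw [Matrix.map_apply, Matrix.map_apply]
  apply Ideal.Quotient.eq.2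
  rw [Ideal.mem_span_singleton]
  exact h p q

end STEPS_

theorem p_STEPS : T_STEPS.{u, w} := by
  intro O _ _ _ ϖ hϖ A _ _ ι _ _ n hn T E k c c' ρ D hD hcρ hdiag hsurj i j hij α hex
  obtain ⟨a, s, t, hEa⟩ := hex
  set y : Idx n := ⟨i, s⟩ with hy
  set z : Idx n := ⟨j, t⟩ with hz
  -- the level of `ϖ ^ c`
  have hlev : ∀ r : ℕ, LevU ϖ r (algebraMap O (FractionRing O) ϖ ^ r) := fun r => by
    have h := LevU.zpow (ϖ := ϖ) (r : ℤ)
    rwa [zpow_natCast] at h
  -- the connecting elements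
  obtain ⟨W, hW⟩ := hsurj (Function.update (fun _ => 0) i (Matrix.single ⟨0, hn i⟩ s 1))
  obtain ⟨W', hW'⟩ := hsurj (Function.update (fun _ => 0) j (Matrix.single t ⟨0, hn j⟩ 1))
  have hWi := hW i
  have hWj := hW' j
  rw [Function.update_self] at hWi hWj
  have hEW : LevU ϖ c (E W (bp hn i) y) := by
    have h1 := hdiag W i ⟨0, hn i⟩ s
    have h2 : T i W ⟨0, hn i⟩ s = ϖ ^ c := by
      rw [hWi]
      simp
    rw [h2, map_pow] at h1
    have h3 := (hlev c).add_lev hϖ (by exact_mod_cast hcρ) h1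
    have h4 : algebraMap O (FractionRing O) ϖ ^ c + (E W ⟨i, ⟨0, hn i⟩⟩ ⟨i, s⟩ -
        algebraMap O (FractionRing O) ϖ ^ c) = E W (bp hn i) y := by
      rw [add_sub_cancel]
      rfl
    rwa [h4] at h3
  have hEW' : LevU ϖ c (E W' z (bp hn j)) := by
    have h1 := hdiag W' j t ⟨0, hn j⟩
    have h2 : T j W' t ⟨0, hn j⟩ = ϖ ^ c := by
      rw [hWj]
      simp
    rw [h2, map_pow] at h1
    have h3 := (hlev c).add_lev hϖ (by exact_mod_cast hcρ) h1
    have h4 : algebraMap O (FractionRing O) ϖ ^ c + (E W' ⟨j, t⟩ ⟨j, ⟨0, hn j⟩⟩ -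
        algebraMap O (FractionRing O) ϖ ^ c) = E W' z (bp hn j) := by
      rw [add_sub_cancel]
      rfl
    rwa [h4] at h3
  set x : FractionRing O := algebraMap O (FractionRing O) ϖ ^ c' with hx
  have hxl : LevU ϖ c' x := hlev c'
  refine ⟨D (bp hn i) * W * (D y * a * D z) * (W' * D (bp hn j)),
    ⟨x * E W (bp hn i) y * x * E a y z * x * E W' z (bp hn j) * x, ?_, ?_⟩, ?_⟩
  · have h5 := ((((((hxl.mul hϖ.ne_zero hEW).mul hϖ.ne_zero hxl).mul hϖ.ne_zero hEa).mul
      hϖ.ne_zero hxl).mul hϖ.ne_zero hEW').mul hϖ.ne_zero hxl)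
    have h6 : (c' : ℤ) + c + c' + α + c' + c + c' = α + 4 * c' + 2 * c := by ring
    rwa [h6] at h5
  · have h7 : D (bp hn i) * W * (D y * a * D z) * (W' * D (bp hn j)) =
        (D (bp hn i) * W * D y) * a * D z * W' * D (bp hn j) := by
      simp only [mul_assoc]
    rw [h7]
    simp only [map_mul, hD.E]
    rw [Matrix.single_mul_mul_single, Matrix.single_mul_mul_single,
      Matrix.single_mul_mul_single]
  · apply STEPS_.dvd_of_map
    have h3 : Matrix.single y y (ϖ ^ c') * bd T a * Matrix.single z z (ϖ ^ c') = 0 := by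
      rw [Matrix.single_mul_mul_single]
      have h4 : bd T a y z = 0 := bd_ne T a hij s t
      rw [h4]
      simp
    have h8 : (bd T (D y * a * D z)).map (Ideal.Quotient.mk (Ideal.span {ϖ ^ k})) = 0 := by
      have h1 := STEPS_.map_eq (ϖ ^ k) _ _ (hD.T y)
      have h2 := STEPS_.map_eq (ϖ ^ k) _ _ (hD.T z)
      rw [map_mul, map_mul, Matrix.map_mul, Matrix.map_mul, h1, h2, ← Matrix.map_mul,
        ← Matrix.map_mul, h3]
      ext p q
      simp
    rw [map_mul, map_mul (bd T) (D (bp hn i) * W), Matrix.map_mul, Matrix.map_mul, h8]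
    simp

end Pool.Agent.RRC
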