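import Pool.Agent.RRC.Targets

set_option autoImplicit false

/-! # Target SUBQ: a quotient of a subobject -/

universe u v w

open Matrix Pool.Agent.RTL

namespace Pool.Agent.RRC

theorem p_SUBQ : T_SUBQ.{u, v, w} := by
  intro O _ G _ C hC M M' _ _ _ _ ρ ρ' F _ _ ρF p q hp hq hsur hker hCM
  have hst : ∀ g, ∀ x ∈ LinearMap.range p, ρ g x ∈ LinearMap.range p := by
    rintro g _ ⟨x, rfl⟩
    exact ⟨ρF g x, hp g x⟩
  have hwd : ∀ x y, p x = p y → q x = q y := by
    intro x y h
    have h1 : q (x - y) = 0 := hker _ (by rw [map_sub, h, sub_self])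
    rwa [map_sub, sub_eq_zero] at h1
  let ρW : Representation O G (LinearMap.range p) :=
    { toFun := fun g => (ρ g).restrict (hst g)
      map_one' := by
        apply LinearMap.ext
        intro x
        apply Subtype.ext
        show ρ 1 (x : M) = (x : M)
        rw [map_one]
        rfl
      map_mul' := by
        intro g h
        apply LinearMap.ext
        intro x
        apply Subtype.ext
        show ρ (g * h) (x : M) = ρ g (ρ h (x : M))
        rw [map_mul]
        rfl }
  have h1 : C (LinearMap.range p) ρW :=
    hC.sub _ _ ρW ρ (LinearMap.range p).subtype Subtype.val_injective (fun g x => rfl) hCM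
  choose s hs using fun y : LinearMap.range p => y.2
  let h : LinearMap.range p →ₗ[O] M' :=
    { toFun := fun y => q (s y)
      map_add' := by
        intro y z
        rw [← map_add]
        apply hwd
        rw [map_add, hs, hs, hs]
        rfl
      map_smul' := by
        intro c y
        rw [← map_smul]
        apply hwd
        rw [map_smul, hs, hs]
        rfl }
  refine hC.quot _ _ ρW ρ' h ?_ ?_ h1
  · intro z
    obtain ⟨x, rfl⟩ := hsur z
    refine ⟨⟨p x, x, rfl⟩, ?_⟩
    exact hwd _ _ (hs _)
  · intro g y
    show q (s (ρW g y)) = ρ' g (q (s y))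
    rw [← hq]
    apply hwd
    rw [hs, hp, hs]
    rfl

end Pool.Agent.RRC
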