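import Pool.Agent.RRC.Targets

set_option autoImplicit false

/-!
# Target WALK
-/

namespace Pool.Agent.RRC

universe u v w

open Matrix Pool.Agent.RTL

theorem WALK_.step {O : Type u} [CommRing O] [IsDomain O] [IsDiscreteValuationRing O]
    {ϖ : O} (hϖ : Irreducible ϖ) {A : Type w} [Ring A] [Algebra O A] {X : Type} [Fintype X]
    [DecidableEq X] {E : A →ₐ[O] Matrix X X (FractionRing O)} {TA : A →ₐ[O] Matrix X X O}
    {k c' : ℕ} {D : X → A} (hD : IsD ϖ c' k E TA D)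
    {ι : Type} [DecidableEq ι] {b : ι → X} {α' : ι → ι → ℤ}
    (hB : ∀ i j, i ≠ j → ∃ B : A, (∃ e, LevU ϖ (α' i j) e ∧ E B = Matrix.single (b i) (b j) e) ∧
      ∀ p q, ϖ ^ k ∣ TA B p q) (w : ℕ → ι) (l : ℕ) :
    ∃ P : A, (∃ x, LevU ϖ ((c' : ℤ) +
        ∑ t ∈ Finset.range l, if w t = w (t + 1) then 0 else α' (w t) (w (t + 1))) x ∧
        E P = Matrix.single (b (w 0)) (b (w l)) x) ∧
      ((∃ t < l, w t ≠ w (t + 1)) → ∀ p q, ϖ ^ k ∣ TA P p q) := by
  induction l with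
  | zero =>
    refine ⟨D (b (w 0)), ⟨algebraMap O (FractionRing O) ϖ ^ (c' : ℤ), ?_, ?_⟩, ?_⟩
    · simpa using LevU.zpow (ϖ := ϖ) (c' : ℤ)
    · rw [hD.E, zpow_natCast]
    · rintro ⟨t, ht, -⟩
      exact absurd ht (Nat.not_lt_zero t)
  | succ l ih =>
    obtain ⟨P, ⟨x, hx, hP⟩, hd⟩ := ih
    by_cases h : w l = w (l + 1)
    · refine ⟨P, ⟨x, ?_, ?_⟩, ?_⟩
      · rw [Finset.sum_range_succ, if_pos h, add_zero]
        exact hx
      · rw [hP, h]
      · rintro ⟨t, ht, hne⟩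
        apply hd
        refine ⟨t, ?_, hne⟩
        rcases Nat.lt_succ_iff_lt_or_eq.mp ht with h1 | h1
        · exact h1
        · subst h1
          exact absurd h hne
    · obtain ⟨B, ⟨e, he, hEB⟩, hTB⟩ := hB _ _ h
      refine ⟨P * B, ⟨x * e, ?_, ?_⟩, ?_⟩
      · rw [Finset.sum_range_succ, if_neg h, ← add_assoc]
        exact hx.mul hϖ.ne_zero he
      · rw [map_mul, hP, hEB, Matrix.single_mul_single_same]
      · intro _ p q
        rw [map_mul, Matrix.mul_apply]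
        exact Finset.dvd_sum fun r _ => Dvd.dvd.mul_left (hTB r q) _

theorem p_WALK : T_WALK.{u, w} := by
  intro O _ _ _ ϖ hϖ A _ _ X _ _ E TA m k c' D hkm hT hD ι _ b α' hB w l hw hne
  obtain ⟨P, ⟨x, hx, hP⟩, hd⟩ := WALK_.step hϖ hD hB w l
  have h1 := hT P
  rw [hP, hw, Matrix.trace_single_eq_same] at h1
  have h2 : Lev ϖ (k : ℤ) (algebraMap O (FractionRing O) (TA P).trace) := by
    rw [Lev.of_iff hϖ.ne_zero, Matrix.trace]
    exact Finset.dvd_sum fun p _ => hd hne p p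
  have h3 : Lev ϖ (k : ℤ) x := by
    have h4 := (h1.mono hϖ.ne_zero (by exact_mod_cast hkm : (k : ℤ) ≤ m)).add h2
    rwa [sub_add_cancel] at h4
  have h5 := hx.le hϖ h3
  linarith

end Pool.Agent.RRC
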