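import Pool.Agent.RRC.Targets

set_option autoImplicit false
set_option linter.unusedSectionVars false

/-!
# The target `T_WALK3`: walks of length three (MP_78858f_nt)
-/

namespace Pool.Agent.RRC

universe u v w

open Matrix Pool.Agent.RTL

namespace WALK3_

section Trace

variable {R : Type u} [CommRing R] {X : Type} [Fintype X] [DecidableEq X]

lemma trace_walk (c : R) (A B C : Matrix X X R) (y z w : X) :
    (Matrix.single y y c * A * Matrix.single z z c * B * Matrix.single w w c * C).trace =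
      c ^ 3 * (A y z * B z w * C w y) := by
  rw [Matrix.single_mul_mul_single, Matrix.single_mul_mul_single, Matrix.trace_single_mul,
    smul_eq_mul]
  ring

/-- entrywise congruence modulo `r` -/
def Cg (r : R) (M N : Matrix X X R) : Prop := ∀ p q, r ∣ (M - N) p q

lemma Cg.refl (r : R) (M : Matrix X X R) : Cg r M M := fun p q => by simp

lemma Cg.mul {r : R} {M N M' N' : Matrix X X R} (h : Cg r M N) (h' : Cg r M' N') :
    Cg r (M * M') (N * N') := by
  intro p q
  have h1 : M * M' - N * N' = (M - N) * M' + N * (M' - N') := by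
    rw [Matrix.sub_mul, Matrix.mul_sub]
    abel
  rw [h1, Matrix.add_apply, Matrix.mul_apply, Matrix.mul_apply]
  refine dvd_add (Finset.dvd_sum fun t _ => ?_) (Finset.dvd_sum fun t _ => ?_)
  · exact Dvd.dvd.mul_right (h p t) _
  · exact Dvd.dvd.mul_left (h' t q) _

lemma Cg.trace {r : R} {M N : Matrix X X R} (h : Cg r M N) : r ∣ M.trace - N.trace := by
  rw [← Matrix.trace_sub]
  exact Finset.dvd_sum fun t _ => h t t

end Trace

end WALK3_

open WALK3_ in
theorem p_WALK3 : T_WALK3.{u, w} := by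
  intro O _ _ ϖ hϖ A _ _ X _ _ E TA m k c' D hkm hTr hD a b e y z w
  have h1 := hTr (D y * a * D z * b * D w * e)
  have hE : (E (D y * a * D z * b * D w * e)).trace =
      (algebraMap O (FractionRing O) ϖ ^ c') ^ 3 * (E a y z * E b z w * E e w y) := by
    simp only [map_mul]
    rw [hD.E y, hD.E z, hD.E w, trace_walk]
  have hT : ϖ ^ k ∣ (TA (D y * a * D z * b * D w * e)).trace -
      (ϖ ^ c') ^ 3 * (TA a y z * TA b z w * TA e w y) := by
    rw [← trace_walk]
    simp only [map_mul]
    have hy : Cg (ϖ ^ k) (TA (D y)) (Matrix.single y y (ϖ ^ c')) := hD.T y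
    have hz : Cg (ϖ ^ k) (TA (D z)) (Matrix.single z z (ϖ ^ c')) := hD.T z
    have hw : Cg (ϖ ^ k) (TA (D w)) (Matrix.single w w (ϖ ^ c')) := hD.T w
    exact (((((hy.mul (Cg.refl _ _)).mul hz).mul (Cg.refl _ _)).mul hw).mul
      (Cg.refl _ _)).trace
  have h2 : Lev ϖ (k : ℤ) ((E (D y * a * D z * b * D w * e)).trace -
      algebraMap O (FractionRing O) (TA (D y * a * D z * b * D w * e)).trace) :=
    Lev.mono hϖ (by exact_mod_cast hkm) h1
  have h3 := (Lev.of_iff hϖ (k := k)).2 hT
  have h4 := h2.add h3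
  obtain ⟨o, ho⟩ := h4
  refine ⟨o, ?_⟩
  have hp : algebraMap O (FractionRing O) ϖ ^ ((3 : ℤ) * c') ≠ 0 := zpow_ne_zero _ (pi_ne hϖ)
  apply mul_left_cancel₀ hp
  rw [← mul_assoc, ← zpow_add₀ (pi_ne hϖ)]
  have h5 : (3 : ℤ) * c' + ((k : ℤ) - 3 * c') = k := by ring
  rw [h5, ← ho, hE]
  have h7 : algebraMap O (FractionRing O) ((TA (D y * a * D z * b * D w * e)).trace -
      (ϖ ^ c') ^ 3 * (TA a y z * TA b z w * TA e w y)) =
      algebraMap O (FractionRing O) (TA (D y * a * D z * b * D w * e)).trace -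
      (algebraMap O (FractionRing O) ϖ ^ c') ^ 3 *
        algebraMap O (FractionRing O) (TA a y z * TA b z w * TA e w y) := by
    rw [map_sub, map_mul (algebraMap O (FractionRing O)) ((ϖ ^ c') ^ 3), map_pow, map_pow]
  have h6 : algebraMap O (FractionRing O) ϖ ^ ((3 : ℤ) * c') =
      (algebraMap O (FractionRing O) ϖ ^ c') ^ 3 := by
    rw [← pow_mul, mul_comm (3 : ℤ) (c' : ℤ)]
    exact_mod_cast rfl
  rw [h7, h6]
  ring

end Pool.Agent.RRC
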