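import Pool.Agent.RRC.Targets

set_option autoImplicit false

universe u v w

open Matrix Pool.Agent.RTL

namespace Pool.Agent.RRC

/-- The trivial cocycle gives the product of the two representations. -/
theorem p_ZERO : T_ZERO.{u, v} := by
  intro O _ ϖ G _ C hC a b m τ τ' h1 h2 z hz
  refine hC.sub _ _ (extRep ϖ m τ τ' z) ((latRep ϖ m τ).prod (latRep ϖ m τ')) LinearMap.id
    Function.injective_id ?_ (hC.prod _ _ _ _ h1 h2)
  intro g x
  have h3 : z.1 g = 0 := by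
    rw [hz]
    rfl
  change (red ϖ m (τ g) *ᵥ x.1 + z.1 g *ᵥ x.2, red ϖ m (τ' g) *ᵥ x.2)
    = (red ϖ m (τ g) *ᵥ x.1, red ϖ m (τ' g) *ᵥ x.2)
  rw [h3, Matrix.zero_mulVec, add_zero]

end Pool.Agent.RRC
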