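import Pool.Agent.RRC.Main
import Pool.Agent.RRC.P_ROOTS
import Pool.Agent.RRC.P_INTERP
import Pool.Agent.RRC.P_HENSEL
import Pool.Agent.RRC.P_DIAG
import Pool.Agent.RRC.P_EV
import Pool.Agent.RRC.P_DY
import Pool.Agent.RRC.P_WALK3
import Pool.Agent.RRC.P_NORM
import Pool.Agent.RRC.P_RESC
import Pool.Agent.RRC.P_BND
import Pool.Agent.RRC.Irr2
import Pool.Agent.RRC.P_ALPHA
import Pool.Agent.RRC.P_STEPS
import Pool.Agent.RRC.P_WALK
import Pool.Agent.RRC.P_CUT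
import Pool.Agent.RRC.P_COC
import Pool.Agent.RRC.P_ORD
import Pool.Agent.RRC.P_PROD
import Pool.Agent.RRC.P_SUBQ
import Pool.Agent.RRC.P_CLS
import Pool.Agent.RRC.P_ZERO
import Pool.Agent.RRC.P_SETUP

set_option autoImplicit false

namespace Pool.Agent.RRC

universe u v

/-- the main theorem, all targets inserted -/
theorem a_MAIN : T_MAIN.{u, v} :=
  p_MAIN p_ROOTS (p_HENSEL p_INTERP) p_DIAG p_EV p_DY (p_NORM p_WALK3) p_RESC p_BND q_IRR p_ALPHA
    p_STEPS p_WALK p_CUT p_COC p_ORD (p_CLS p_PROD p_SUBQ) p_ZERO p_SETUP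

end Pool.Agent.RRC
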