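import Pool.Agent.RRC.Defs

set_option autoImplicit false

/-!
# Existence of the constant `c`

If the `τ i` are absolutely irreducible over the fraction field and pairwise non-isomorphic, then
`ϖ ^ c` times every family of matrices is an `O`-combination of the families `(τ i g)_i`.
-/

namespace Pool.Agent.RRC

universe u v w

open Matrix Pool.Agent.RTL

namespace BURN_

theorem density {K : Type u} [Field K] {A : Type w} [Ring A] [Algebra K A] {ι : Type}
    [Fintype ι] [DecidableEq ι] (V : ι → Type u) [∀ i, AddCommGroup (V i)] [∀ i, Module K (V i)]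
    [∀ i, Module A (V i)] [∀ i, IsScalarTower K A (V i)] [∀ i, IsSimpleModule A (V i)]
    (h2 : ∀ i, ∀ X : V i →ₗ[A] V i, ∃ x : K, ∀ v, X v = x • v)
    (h3 : ∀ i j, i ≠ j → ∀ X : V j →ₗ[A] V i, X = 0) (b : (i : ι) → V i →ₗ[K] V i)
    (s : Finset ((i : ι) → V i)) : ∃ a : A, ∀ v ∈ s, ∀ i, a • v i = b i (v i) := by
  have hss : IsSemisimpleModule A ((i : ι) → V i) := inferInstance
  have hend : ∀ φ : Module.End A ((i : ι) → V i), ∃ x : ι → K, ∀ v i, φ v i = x i • v i := by
    intro φ
    choose x hx using fun i => h2 i (LinearMap.proj i ∘ₗ φ ∘ₗ LinearMap.single A V i)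
    refine ⟨x, fun v i => ?_⟩
    have h4 : φ v i = ∑ j, (LinearMap.proj i ∘ₗ φ ∘ₗ LinearMap.single A V j) (v j) := by
      conv_lhs => rw [← Finset.univ_sum_single v, map_sum, Finset.sum_apply]
      rfl
    rw [h4, Finset.sum_eq_single i]
    · exact hx i (v i)
    · intro j _ hj
      rw [h3 i j hj.symm (LinearMap.proj i ∘ₗ φ ∘ₗ LinearMap.single A V j), LinearMap.zero_apply]
    · intro h
      exact absurd (Finset.mem_univ i) h
  let F : Module.End (Module.End A ((i : ι) → V i)) ((i : ι) → V i) :=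
    { toFun := fun v i => b i (v i)
      map_add' := by
        intro v w
        funext i
        exact map_add (b i) (v i) (w i)
      map_smul' := by
        intro φ v
        obtain ⟨x, hx⟩ := hend φ
        funext i
        change b i (φ v i) = φ (fun i => b i (v i)) i
        rw [hx, hx, map_smul] }
  obtain ⟨r, hr⟩ := jacobson_density F s
  exact ⟨r, fun v hv i => (congrFun (hr v hv) i).symm⟩

theorem matrixDensity {K : Type u} [Field K] {A : Type w} [Ring A] [Algebra K A] {ι : Type}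
    [Fintype ι] [DecidableEq ι] (n : ι → ℕ) (hn : ∀ i, 0 < n i)
    (f : (i : ι) → A →ₐ[K] Matrix (Fin (n i)) (Fin (n i)) K)
    (h1 : ∀ i, ∀ W : Submodule K (Fin (n i) → K), (∀ a, ∀ w ∈ W, f i a *ᵥ w ∈ W) →
      W = ⊥ ∨ W = ⊤)
    (h2 : ∀ i, ∀ X : Matrix (Fin (n i)) (Fin (n i)) K, (∀ a, f i a * X = X * f i a) →
      ∃ x : K, X = x • 1)
    (h3 : ∀ i j, i ≠ j → ∀ X : Matrix (Fin (n i)) (Fin (n j)) K,
      (∀ a, f i a * X = X * f j a) → X = 0)
    (b : (i : ι) → Matrix (Fin (n i)) (Fin (n i)) K) : ∃ a, ∀ i, f i a = b i := by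
  classical
  let inst1 : ∀ i, Module A (Fin (n i) → K) := fun i =>
    Module.compHom (Fin (n i) → K) (((Matrix.toLinAlgEquiv' (R := K) (n := Fin (n i))).toAlgHom.comp
      (f i)).toRingHom)
  have hact : ∀ i (a : A) (v : Fin (n i) → K), a • v = f i a *ᵥ v := fun i a v => rfl
  have inst2 : ∀ i, IsScalarTower K A (Fin (n i) → K) := fun i => ⟨fun x a v => by
    rw [hact, hact, map_smul, Matrix.smul_mulVec]⟩
  have inst3 : ∀ i, IsSimpleModule A (Fin (n i) → K) := by
    intro i
    rw [isSimpleModule_iff]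
    have : Nonempty (Fin (n i)) := ⟨⟨0, hn i⟩⟩
    refine { toNontrivial := inferInstance, eq_bot_or_eq_top := fun W => ?_ }
    rcases h1 i (W.restrictScalars K) (fun a w hw => W.smul_mem a hw) with h | h
    · left
      rwa [Submodule.restrictScalars_eq_bot_iff] at h
    · right
      rwa [Submodule.restrictScalars_eq_top_iff] at h
  have hmat : ∀ i j (X : (Fin (n j) → K) →ₗ[A] (Fin (n i) → K)),
      ∃ M : Matrix (Fin (n i)) (Fin (n j)) K, (∀ v, X v = M *ᵥ v) ∧
        ∀ a, f i a * M = M * f j a := by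
    intro i j X
    refine ⟨LinearMap.toMatrix' (X.restrictScalars K), ?_, ?_⟩
    · intro v
      rw [LinearMap.toMatrix'_mulVec]
      rfl
    · intro a
      apply Matrix.toLin'.injective
      apply LinearMap.ext
      intro w
      rw [Matrix.toLin'_apply, Matrix.toLin'_apply, ← Matrix.mulVec_mulVec, ← Matrix.mulVec_mulVec,
        LinearMap.toMatrix'_mulVec, LinearMap.toMatrix'_mulVec]
      change f i a *ᵥ X w = X (f j a *ᵥ w)
      rw [← hact, ← hact, map_smul]
  obtain ⟨a, ha⟩ := density (K := K) (A := A) (fun i => Fin (n i) → K) (by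
      intro i X
      obtain ⟨M, hM1, hM2⟩ := hmat i i X
      obtain ⟨x, rfl⟩ := h2 i M hM2
      refine ⟨x, fun v => ?_⟩
      rw [hM1, Matrix.smul_mulVec, Matrix.one_mulVec]) (by
      intro i j hij X
      obtain ⟨M, hM1, hM2⟩ := hmat i j X
      apply LinearMap.ext
      intro v
      rw [hM1, h3 i j hij M hM2, Matrix.zero_mulVec, LinearMap.zero_apply])
    (fun i => Matrix.toLin' (b i))
    (Finset.univ.image fun p : (i : ι) × Fin (n i) =>
      (Pi.single p.1 (Pi.single p.2 (1 : K)) : (i : ι) → Fin (n i) → K))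
  refine ⟨a, fun i => ?_⟩
  ext s t
  have h5 := ha _ (Finset.mem_image.2 ⟨⟨i, t⟩, Finset.mem_univ _, rfl⟩) i
  rw [Pi.single_eq_same, hact, Matrix.toLin'_apply, Matrix.mulVec_single_one,
    Matrix.mulVec_single_one] at h5
  exact congrFun h5 s

/-- clearing denominators -/
theorem clear {O : Type u} [CommRing O] [IsDomain O] [IsDiscreteValuationRing O] {ϖ : O}
    (hϖ : Irreducible ϖ) (S : Finset (FractionRing O)) :
    ∃ k : ℕ, ∀ x ∈ S, ∃ o : O, algebraMap O (FractionRing O) o =
      algebraMap O (FractionRing O) ϖ ^ k * x := by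
  classical
  induction S using Finset.induction_on with
  | empty => exact ⟨0, fun x hx => absurd hx (Finset.notMem_empty x)⟩
  | insert x S hx ih =>
    obtain ⟨k, hk⟩ := ih
    obtain ⟨l, hl⟩ : ∃ l : ℕ, ∃ o : O, algebraMap O (FractionRing O) o =
        algebraMap O (FractionRing O) ϖ ^ l * x := by
      rcases eq_or_ne x 0 with rfl | h0
      · exact ⟨0, 0, by simp⟩
      · obtain ⟨e, o, -, rfl⟩ := exists_levU hϖ h0
        refine ⟨(-e).toNat, ϖ ^ (e + (-e).toNat).toNat * o, ?_⟩
        rw [map_mul, map_pow, ← mul_assoc, ← zpow_natCast, ← zpow_natCast,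
          ← zpow_add₀ (pi_ne hϖ.ne_zero)]
        congr 2
        omega
    refine ⟨k + l, fun y hy => ?_⟩
    rw [Finset.mem_insert] at hy
    rcases hy with rfl | hy
    · obtain ⟨o, ho⟩ := hl
      exact ⟨ϖ ^ k * o, by rw [map_mul, ho, map_pow, pow_add]; ring⟩
    · obtain ⟨o, ho⟩ := hk y hy
      exact ⟨ϖ ^ l * o, by rw [map_mul, ho, map_pow, pow_add]; ring⟩

end BURN_

open BURN_

/-- The constant `c` exists if for every family a power of `ϖ` times it is a combination. -/
theorem c_exists {O : Type u} [CommRing O] (ϖ : O) {G : Type v} [Group G] {ι : Type} [Fintype ι]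
    [DecidableEq ι] (n : ι → ℕ) (τ : (i : ι) → G →* Matrix (Fin (n i)) (Fin (n i)) O)
    (h : ∀ b : (i : ι) → Matrix (Fin (n i)) (Fin (n i)) O, ∃ (k : ℕ) (a : G →₀ O),
      ∀ i, a.sum (fun g x => x • τ i g) = ϖ ^ k • b i) :
    ∃ c : ℕ, ∀ b : (i : ι) → Matrix (Fin (n i)) (Fin (n i)) O, ∃ a : G →₀ O,
      ∀ i, a.sum (fun g x => x • τ i g) = ϖ ^ c • b i := by
  classical
  let E : ((i : ι) × Fin (n i) × Fin (n i)) → (i : ι) → Matrix (Fin (n i)) (Fin (n i)) O :=
    fun p => Pi.single p.1 (Matrix.single p.2.1 p.2.2 1)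
  choose k a hka using fun p => h (E p)
  let c := Finset.univ.sup k
  let L : (i : ι) → (G →₀ O) →ₗ[O] Matrix (Fin (n i)) (Fin (n i)) O := fun i =>
    Finsupp.linearCombination O (fun g => τ i g)
  have hL : ∀ i (a : G →₀ O), L i a = a.sum (fun g x => x • τ i g) := fun i a => rfl
  refine ⟨c, fun b => ⟨∑ p : (i : ι) × Fin (n i) × Fin (n i),
    (ϖ ^ (c - k p) * b p.1 p.2.1 p.2.2) • a p, fun i => ?_⟩⟩
  rw [← hL, map_sum]
  have h1 : ∀ p : (i : ι) × Fin (n i) × Fin (n i),
      L i ((ϖ ^ (c - k p) * b p.1 p.2.1 p.2.2) • a p) =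
        ϖ ^ c • (b p.1 p.2.1 p.2.2 • E p i) := by
    intro p
    have h2 : k p ≤ c := Finset.le_sup (Finset.mem_univ p)
    rw [map_smul, hL, hka, smul_smul, smul_smul]
    congr 1
    have h3 : ϖ ^ c = ϖ ^ (c - k p) * ϖ ^ (k p) := by
      rw [← pow_add]
      congr 1
      omega
    rw [h3]
    ring
  rw [Finset.sum_congr rfl fun p _ => h1 p, ← Finset.smul_sum, Fintype.sum_sigma]
  congr 1
  rw [Finset.sum_eq_single i]
  · ext s t
    simp only [E, Pi.single_eq_same, Matrix.sum_apply, Matrix.smul_apply, smul_eq_mul]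
    rw [Fintype.sum_prod_type, Finset.sum_eq_single s, Finset.sum_eq_single t]
    · simp
    · intro t' _ ht
      simp [ht]
    · simp
    · intro s' _ hs
      refine Finset.sum_eq_zero fun t' _ => ?_
      simp [hs]
    · simp
  · intro j _ hj
    refine Finset.sum_eq_zero fun q _ => ?_
    simp [E, Pi.single_eq_of_ne hj.symm]
  · simp

/-- The constant `c` exists for absolutely irreducible pairwise non-isomorphic `τ i`. -/
theorem c_exists_of_irreducible {O : Type u} [CommRing O] [IsDomain O]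
    [IsDiscreteValuationRing O] (ϖ : O) (hϖ : Irreducible ϖ) {G : Type v} [Group G] {ι : Type}
    [Fintype ι] [DecidableEq ι] (n : ι → ℕ) (hn : ∀ i, 0 < n i)
    (τ : (i : ι) → G →* Matrix (Fin (n i)) (Fin (n i)) O)
    (h1 : ∀ i, ∀ W : Submodule (FractionRing O) (Fin (n i) → FractionRing O),
      (∀ g, ∀ w ∈ W, (τ i g).map (algebraMap O (FractionRing O)) *ᵥ w ∈ W) → W = ⊥ ∨ W = ⊤)
    (h2 : ∀ i, ∀ X : Matrix (Fin (n i)) (Fin (n i)) (FractionRing O),
      (∀ g, (τ i g).map (algebraMap O (FractionRing O)) * X =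
        X * (τ i g).map (algebraMap O (FractionRing O))) → ∃ x : FractionRing O, X = x • 1)
    (h3 : ∀ i j, i ≠ j → ∀ X : Matrix (Fin (n i)) (Fin (n j)) (FractionRing O),
      (∀ g, (τ i g).map (algebraMap O (FractionRing O)) * X =
        X * (τ j g).map (algebraMap O (FractionRing O))) → X = 0) :
    ∃ c : ℕ, ∀ b : (i : ι) → Matrix (Fin (n i)) (Fin (n i)) O, ∃ a : G →₀ O,
      ∀ i, a.sum (fun g x => x • τ i g) = ϖ ^ c • b i := by
  classical
  apply c_exists
  intro b
  let K := FractionRing O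
  let τK : (i : ι) → G →* Matrix (Fin (n i)) (Fin (n i)) K := fun i =>
    ((algebraMap O K).mapMatrix.toMonoidHom).comp (τ i)
  have hτK : ∀ i g, τK i g = (τ i g).map (algebraMap O K) := fun i g => rfl
  let f : (i : ι) → MonoidAlgebra K G →ₐ[K] Matrix (Fin (n i)) (Fin (n i)) K := fun i =>
    MonoidAlgebra.lift K _ G (τK i)
  have hf : ∀ i g, f i (MonoidAlgebra.of K G g) = (τ i g).map (algebraMap O K) := by
    intro i g
    rw [← hτK]
    exact MonoidAlgebra.lift_of _ _
  obtain ⟨a, ha⟩ := matrixDensity n hn f (fun i W hW => h1 i W fun g w hw => by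
      rw [← hf]
      exact hW _ w hw)
    (fun i X hX => h2 i X fun g => by
      rw [← hf]
      exact hX _)
    (fun i j hij X hX => h3 i j hij X fun g => by
      rw [← hf, ← hf]
      exact hX _)
    (fun i => (b i).map (algebraMap O K))
  obtain ⟨k, hk⟩ := clear hϖ (a.coeff.support.image a.coeff)
  have hk' : ∀ g, ∃ o : O, algebraMap O K o = algebraMap O K ϖ ^ k * a.coeff g := by
    intro g
    by_cases hg : a.coeff g = 0
    · exact ⟨0, by rw [hg, map_zero, mul_zero]⟩
    · exact hk _ (Finset.mem_image.2 ⟨g, Finsupp.mem_support_iff.2 hg, rfl⟩)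
  choose o ho using hk'
  have ho0 : ∀ g, o g ≠ 0 → g ∈ a.coeff.support := by
    intro g hg
    rw [Finsupp.mem_support_iff]
    intro h
    apply hg
    apply IsFractionRing.injective O K
    rw [ho, h, mul_zero, map_zero]
  refine ⟨k, Finsupp.onFinset a.coeff.support o ho0, fun i => ?_⟩
  apply Matrix.map_injective (IsFractionRing.injective O K)
  have h6 : f i a = a.coeff.sum (fun g x => x • τK i g) := MonoidAlgebra.lift_apply _ _
  rw [ha] at h6
  rw [Finsupp.onFinset_sum _ (fun g => zero_smul O (τ i g))]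
  change (∑ g ∈ a.coeff.support, o g • τ i g).map (algebraMap O K) =
    (ϖ ^ k • b i).map (algebraMap O K)
  have h7 : (ϖ ^ k • b i).map (algebraMap O K) =
      algebraMap O K ϖ ^ k • (b i).map (algebraMap O K) := by
    ext s t
    simp
  rw [h7, h6, Finsupp.sum, Finset.smul_sum]
  ext s t
  simp only [Matrix.map_apply, Matrix.sum_apply, Matrix.smul_apply, smul_eq_mul, map_sum, map_mul,
    ho, hτK, mul_assoc]

end Pool.Agent.RRC
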