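import Pool.Agent.RRC.Targets

set_option autoImplicit false

/-! # Steps 1 - 7: normalized coordinates -/

namespace Pool.Agent.RRC

universe u v w

open Matrix Pool.Agent.RTL

namespace CORE_

section

variable {O : Type u} [CommRing O] {A : Type w} [Ring A] [Algebra O A] {ι : Type} [Fintype ι]
  [DecidableEq ι] {n : ι → ℕ} (T : (i : ι) → A →ₐ[O] Matrix (Fin (n i)) (Fin (n i)) O)

lemma bd_of {a : A} {M : (i : ι) → Matrix (Fin (n i)) (Fin (n i)) O} (h : ∀ i, T i a = M i) :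
    bd T a = Matrix.blockDiagonal' M := by
  rw [bd_apply]
  congr 1
  funext i
  exact h i

lemma bd_diag {ϖ : O} {c : ℕ}
    (hs : ∀ b : (i : ι) → Matrix (Fin (n i)) (Fin (n i)) O, ∃ a, ∀ i, T i a = ϖ ^ c • b i)
    (d : Idx n → O) : ∃ a, bd T a = Matrix.diagonal (fun y => ϖ ^ c * d y) := by
  obtain ⟨a, ha⟩ := hs (fun i => Matrix.diagonal fun s => d ⟨i, s⟩)
  refine ⟨a, ?_⟩
  rw [bd_of T ha]
  ext ⟨i, s⟩ ⟨j, t⟩
  by_cases h : i = j
  · subst h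
    rw [Matrix.blockDiagonal'_apply_eq]
    by_cases hst : s = t
    · subst hst
      simp
    · have : (⟨i, s⟩ : Idx n) ≠ ⟨i, t⟩ := by
        intro h
        apply hst
        simpa using h
      rw [Matrix.diagonal_apply_ne _ this]
      simp [hst]
  · rw [Matrix.blockDiagonal'_apply_ne _ _ _ h]
    have : (⟨i, s⟩ : Idx n) ≠ ⟨j, t⟩ := by
      intro h'
      exact h (congrArg Sigma.fst h')
    rw [Matrix.diagonal_apply_ne _ this]

lemma bd_single {ϖ : O} {c : ℕ}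
    (hs : ∀ b : (i : ι) → Matrix (Fin (n i)) (Fin (n i)) O, ∃ a, ∀ i, T i a = ϖ ^ c • b i)
    (y : Idx n) : ∃ a, bd T a = Matrix.single y y (ϖ ^ c) := by
  obtain ⟨a, ha⟩ := bd_diag T hs (Pi.single y 1)
  refine ⟨a, ?_⟩
  rw [ha]
  ext p q
  by_cases hpq : p = q
  · subst hpq
    rw [Matrix.diagonal_apply_eq]
    by_cases hp : y = p
    · subst hp
      simp
    · rw [Pi.single_eq_of_ne (fun h => hp h.symm), Matrix.single_apply_of_row_ne hp]
      simp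
  · rw [Matrix.diagonal_apply_ne _ hpq]
    by_cases hp : y = p
    · subst hp
      simp [Matrix.single_apply, hpq]
    · simp [Matrix.single_apply, hp]

end

lemma trcong {O : Type u} [CommRing O] [IsDomain O] {ϖ : O} (hϖ : ϖ ≠ 0) {A : Type w} [Ring A]
    [Algebra O A] {N : ℕ} {X : Type} [Fintype X] [DecidableEq X]
    (Sg : A →ₐ[O] Matrix (Fin N) (Fin N) O) (TA : A →ₐ[O] Matrix X X O)
    (U : Matrix (Fin N) X (FractionRing O)) (V : Matrix X (Fin N) (FractionRing O))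
    (hUV : U * V = 1) (E : A →ₐ[O] Matrix X X (FractionRing O))
    (hE : ∀ a, E a = V * (Sg a).map (algebraMap O (FractionRing O)) * U) {m : ℕ}
    (htr : ∀ a, ϖ ^ m ∣ (Sg a).trace - (TA a).trace) : TrCong ϖ m E TA := by
  intro a
  have h1 : (E a).trace = algebraMap O (FractionRing O) (Sg a).trace := by
    rw [hE, Matrix.trace_mul_comm, ← Matrix.mul_assoc, hUV, Matrix.one_mul]
    simp [Matrix.trace]
  rw [h1, ← map_sub, Lev.of_iff hϖ]
  exact htr a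

end CORE_

open CORE_

/-- Steps 1 - 7 together. -/
theorem core1 (h_ROOTS : T_ROOTS.{u, w}) (h_HENSEL : T_HENSEL.{u}) (h_DIAG : T_DIAG.{u})
    (h_EV : T_EV.{u, w}) (h_DY : T_DY.{u, w}) (h_NORM : T_NORM.{u, w}) (h_RESC : T_RESC.{u})
    (h_BND : T_BND.{u}) (h_IRR : T_IRR.{u, w}) (h_ALPHA : T_ALPHA.{u, w})
    (O : Type u) [CommRing O] [IsDomain O] [IsDiscreteValuationRing O] (ϖ : O)
    (hϖ : Irreducible ϖ) (hcomp : IsAdicComplete (Ideal.span ({ϖ} : Set O)) O)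
    (A : Type w) [Ring A] [Algebra O A] (ι : Type) [Fintype ι] [DecidableEq ι] (n : ι → ℕ)
    (hn : ∀ i, 0 < n i) (N : ℕ) (hN : N = ∑ i, n i) (Sg : A →ₐ[O] Matrix (Fin N) (Fin N) O)
    (T : (i : ι) → A →ₐ[O] Matrix (Fin (n i)) (Fin (n i)) O) (m k c c' ρ : ℕ)
    (hc' : c' + c = N * c) (hm : m = k + 2 * c) (hk : k = ρ + 3 * c' + 2 * c) (hρ : 0 < ρ)
    (d : Idx n → O) (hd : ∀ y z, y ≠ z → IsUnit (d y - d z))
    (hs : ∀ b : (i : ι) → Matrix (Fin (n i)) (Fin (n i)) O, ∃ a, ∀ i, T i a = ϖ ^ c • b i)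
    (htr : ∀ a, ϖ ^ m ∣ (Sg a).trace - (bd T a).trace)
    (hirr : ∀ W : Submodule O (Fin N → O), (∀ a, ∀ w ∈ W, Sg a *ᵥ w ∈ W) →
      W = ⊥ ∨ ∃ k : ℕ, ∀ v : Fin N → O, ϖ ^ k • v ∈ W) :
    ∃ (E : A →ₐ[O] Matrix (Idx n) (Idx n) (FractionRing O)) (D : Idx n → A) (α : ι → ι → ℤ)
      (e : ℤ), TrCong ϖ m E (bd T) ∧ IsD ϖ c' k E (bd T) D ∧
      (∀ a i s t, Lev ϖ ρ (E a ⟨i, s⟩ ⟨i, t⟩ - algebraMap O (FractionRing O) (T i a s t))) ∧
      (∀ i j, (∀ a s t, Lev ϖ (α i j) (E a ⟨i, s⟩ ⟨j, t⟩)) ∧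
        ∃ a s t, LevU ϖ (α i j) (E a ⟨i, s⟩ ⟨j, t⟩)) ∧
      (∀ (r : ℕ) a, (∀ p q, ϖ ^ r ∣ Sg a p q) → ∀ y z, Lev ϖ (e + r) (E a y z)) := by
  have hϖ0 := hϖ.ne_zero
  have hcard : Fintype.card (Idx n) = N := by simp [hN]
  obtain ⟨x, hx⟩ := bd_diag T hs d
  have hroots := h_ROOTS O ϖ hϖ0 A N (Idx n) Sg (bd T) c m (k + c) (by omega) htr
    (bd_single T hs) x d hx
  obtain ⟨ν, hν, hf⟩ := h_HENSEL O ϖ hϖ hcomp (Idx n) d hd c (k + c) (ρ + 2 * c' + 2 * c)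
    (by rw [hcard]; omega) (by omega) (Sg x).charpoly (Matrix.charpoly_monic _)
    (by rw [Matrix.charpoly_natDegree_eq_dim, Fintype.card_fin, hcard]) hroots
  have hνne : ∀ y z, y ≠ z → ν y ≠ ν z := by
    intro y z hyz h
    have h1 : ϖ ∣ ν y - d y := (dvd_pow_self ϖ (by omega)).trans (hν y)
    have h2 : ϖ ∣ ν z - d z := (dvd_pow_self ϖ (by omega)).trans (hν z)
    have h3 : ϖ ∣ d y - d z := by
      have := dvd_sub h2 h1
      rw [h] at this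
      convert this using 1
      ring
    exact hϖ.not_isUnit (isUnit_of_dvd_unit h3 (hd y z hyz))
  have hinj : Function.Injective fun y => algebraMap O (FractionRing O) (ϖ ^ c * ν y) := by
    intro y z h
    by_contra hyz
    exact hνne y z hyz (mul_left_cancel₀ (pow_ne_zero _ hϖ0)
      (IsFractionRing.injective O (FractionRing O) h))
  obtain ⟨U0, V0, hUV0, hVU0, hS0⟩ := h_DIAG (FractionRing O) N (Idx n)
    ((Sg x).map (algebraMap O (FractionRing O))) _ hinj (by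
      rw [Matrix.charpoly_map, hf, Polynomial.map_prod]
      refine Finset.prod_congr rfl fun y _ => ?_
      rw [Polynomial.map_sub, Polynomial.map_X, Polynomial.map_C])
  obtain ⟨E0, hE0⟩ := h_EV O A N (Idx n) Sg U0 V0 hUV0 hVU0
  have htr0 := trcong hϖ0 Sg (bd T) U0 V0 hUV0 E0 hE0 htr
  obtain ⟨D, hD⟩ := h_DY O ϖ hϖ A (Idx n) E0 (bd T) x d ν c c' (ρ + 2 * c' + 2 * c) hd
    (by omega) hν (by rw [hcard, hc']) hx (by rw [hE0, hS0])
  have hk' : c' + (ρ + 2 * c' + 2 * c) = k := by omega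
  rw [hk'] at hD
  obtain ⟨u, hu0, hu⟩ := h_NORM O ϖ hϖ A ι n hn T E0 m k c c' ρ D (by omega) hk hρ htr0 hD hs
  obtain ⟨U, V, hUV, hVU, hconj⟩ := h_RESC (FractionRing O) N (Idx n) U0 V0 hUV0 hVU0 u hu0
  obtain ⟨E, hE⟩ := h_EV O A N (Idx n) Sg U V hUV hVU
  have hrel : ∀ a y z, E a y z = (u y)⁻¹ * E0 a y z * u z := by
    intro a y z
    rw [hE, hconj, hE0]
  have hDE : IsD ϖ c' k E (bd T) D := by
    refine ⟨fun y => ?_, hD.T⟩
    ext p q
    rw [hrel, hD.E]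
    by_cases hp : y = p
    · subst hp
      by_cases hq : y = q
      · subst hq
        rw [Matrix.single_apply_same]
        field_simp [hu0 y]
      · simp [Matrix.single_apply, hq]
    · simp [Matrix.single_apply, hp]
  obtain ⟨e, he⟩ := h_BND O ϖ hϖ N (Idx n) U V
  have hirr' := h_IRR O ϖ hϖ A N (Idx n) Sg U V hUV hVU E hE c' D hDE.E hirr
  have he0 : ∀ a y z, Lev ϖ e (E a y z) := by
    intro a y z
    have := he 0 (Sg a) (fun p q => by simp) y z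
    rw [← hE] at this
    simpa using this
  choose α hα using fun i j => h_ALPHA O ϖ hϖ A ι n E e he0 i j (by
    obtain ⟨a, ha⟩ := hirr' ⟨i, ⟨0, hn i⟩⟩ ⟨j, ⟨0, hn j⟩⟩
    exact ⟨a, _, _, ha⟩)
  refine ⟨E, D, α, e, trcong hϖ0 Sg (bd T) U V hUV E hE htr, hDE, ?_, hα, ?_⟩
  · intro a i s t
    rw [hrel]
    exact hu a i s t
  · intro r a ha y z
    rw [hE]
    exact he r (Sg a) ha y z

end Pool.Agent.RRC
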