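import Pool.Agent.RTL.Targets

set_option autoImplicit false
set_option linter.unusedSectionVars false
set_option linter.unusedVariables false

/-!
# Definitions for the cut theorem with residually reducible constituents (MP_78858f_nt)

`O` is a discrete valuation ring with uniformizer `ϖ`, `K = FractionRing O`.
-/

namespace Pool.Agent.RRC

universe u v w

open Matrix Pool.Agent.RTL

section Lev

variable {O : Type u} [CommRing O] [IsDomain O]

/-- `x ∈ ϖ ^ e O` inside the fraction field, `e` an integer. -/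
def Lev (ϖ : O) (e : ℤ) (x : FractionRing O) : Prop :=
  ∃ o : O, x = algebraMap O (FractionRing O) ϖ ^ e * algebraMap O (FractionRing O) o

/-- `x ∈ ϖ ^ e Oˣ` inside the fraction field, `e` an integer. -/
def LevU (ϖ : O) (e : ℤ) (x : FractionRing O) : Prop :=
  ∃ o : O, IsUnit o ∧
    x = algebraMap O (FractionRing O) ϖ ^ e * algebraMap O (FractionRing O) o

variable {ϖ : O}

lemma pi_ne (hϖ : ϖ ≠ 0) : algebraMap O (FractionRing O) ϖ ≠ 0 := by
  intro h
  exact hϖ (IsFractionRing.injective O (FractionRing O) (by rw [h, map_zero]))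

lemma Lev.zero (e : ℤ) : Lev ϖ e 0 := ⟨0, by simp⟩

lemma Lev.add {e : ℤ} {x y : FractionRing O} (hx : Lev ϖ e x) (hy : Lev ϖ e y) :
    Lev ϖ e (x + y) := by
  obtain ⟨a, rfl⟩ := hx
  obtain ⟨b, rfl⟩ := hy
  exact ⟨a + b, by rw [map_add]; ring⟩

lemma Lev.neg {e : ℤ} {x : FractionRing O} (hx : Lev ϖ e x) : Lev ϖ e (-x) := by
  obtain ⟨a, rfl⟩ := hx
  exact ⟨-a, by rw [map_neg]; ring⟩

lemma Lev.sub {e : ℤ} {x y : FractionRing O} (hx : Lev ϖ e x) (hy : Lev ϖ e y) :
    Lev ϖ e (x - y) := by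
  rw [sub_eq_add_neg]
  exact hx.add hy.neg

lemma Lev.sum {e : ℤ} {I : Type*} (s : Finset I) {x : I → FractionRing O}
    (h : ∀ i ∈ s, Lev ϖ e (x i)) : Lev ϖ e (∑ i ∈ s, x i) := by
  classical
  induction s using Finset.induction_on with
  | empty => simpa using Lev.zero e
  | insert a s ha ih =>
    rw [Finset.sum_insert ha]
    exact (h a (Finset.mem_insert_self _ _)).add
      (ih fun i hi => h i (Finset.mem_insert_of_mem hi))

lemma Lev.mono (hϖ : ϖ ≠ 0) {e e' : ℤ} (hee : e' ≤ e) {x : FractionRing O} (hx : Lev ϖ e x) :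
    Lev ϖ e' x := by
  obtain ⟨a, rfl⟩ := hx
  obtain ⟨k, hk⟩ := Int.le.dest hee
  refine ⟨ϖ ^ k * a, ?_⟩
  rw [map_mul, map_pow, ← hk, zpow_add₀ (pi_ne hϖ), zpow_natCast]
  ring

lemma Lev.mul (hϖ : ϖ ≠ 0) {e e' : ℤ} {x y : FractionRing O} (hx : Lev ϖ e x)
    (hy : Lev ϖ e' y) : Lev ϖ (e + e') (x * y) := by
  obtain ⟨a, rfl⟩ := hx
  obtain ⟨b, rfl⟩ := hy
  exact ⟨a * b, by rw [map_mul, zpow_add₀ (pi_ne hϖ)]; ring⟩

/-- elements of `O` have level `0` -/
lemma Lev.of (o : O) : Lev ϖ 0 (algebraMap O (FractionRing O) o) := ⟨o, by simp⟩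

/-- the level of elements of `O` -/
lemma Lev.of_iff (hϖ : ϖ ≠ 0) {k : ℕ} {o : O} :
    Lev ϖ k (algebraMap O (FractionRing O) o) ↔ ϖ ^ k ∣ o := by
  constructor
  · rintro ⟨a, ha⟩
    refine ⟨a, IsFractionRing.injective O (FractionRing O) ?_⟩
    rw [ha, map_mul, map_pow, zpow_natCast]
  · rintro ⟨a, rfl⟩
    exact ⟨a, by rw [map_mul, map_pow, zpow_natCast]⟩

lemma Lev.algebraMap_mul {e : ℤ} {x : FractionRing O} (o : O) (hx : Lev ϖ e x) :
    Lev ϖ e (algebraMap O (FractionRing O) o * x) := by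
  obtain ⟨a, rfl⟩ := hx
  exact ⟨o * a, by rw [map_mul]; ring⟩

lemma Lev.zpow (e : ℤ) : Lev ϖ e (algebraMap O (FractionRing O) ϖ ^ e) := ⟨1, by simp⟩

lemma LevU.zpow (e : ℤ) : LevU ϖ e (algebraMap O (FractionRing O) ϖ ^ e) :=
  ⟨1, isUnit_one, by simp⟩

lemma LevU.lev {e : ℤ} {x : FractionRing O} (hx : LevU ϖ e x) : Lev ϖ e x := by
  obtain ⟨a, -, h⟩ := hx
  exact ⟨a, h⟩

lemma LevU.ne_zero (hϖ : ϖ ≠ 0) {e : ℤ} {x : FractionRing O} (hx : LevU ϖ e x) : x ≠ 0 := by
  obtain ⟨a, ha, rfl⟩ := hx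
  exact mul_ne_zero (zpow_ne_zero _ (pi_ne hϖ)) (pi_ne ha.ne_zero)

lemma LevU.mul (hϖ : ϖ ≠ 0) {e e' : ℤ} {x y : FractionRing O} (hx : LevU ϖ e x)
    (hy : LevU ϖ e' y) : LevU ϖ (e + e') (x * y) := by
  obtain ⟨a, ha, rfl⟩ := hx
  obtain ⟨b, hb, rfl⟩ := hy
  exact ⟨a * b, ha.mul hb, by rw [map_mul, zpow_add₀ (pi_ne hϖ)]; ring⟩

lemma LevU.inv {e : ℤ} {x : FractionRing O} (hx : LevU ϖ e x) :
    LevU ϖ (-e) x⁻¹ := by
  obtain ⟨a, ⟨b, rfl⟩, rfl⟩ := hx
  refine ⟨(b⁻¹ : Oˣ), Units.isUnit _, ?_⟩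
  have h1 : algebraMap O (FractionRing O) (b : O) * algebraMap O (FractionRing O)
      ((b⁻¹ : Oˣ) : O) = 1 := by
    rw [← map_mul, Units.mul_inv, map_one]
  have h2 : (algebraMap O (FractionRing O) (b : O))⁻¹ = algebraMap O (FractionRing O)
      ((b⁻¹ : Oˣ) : O) := inv_eq_of_mul_eq_one_right h1
  rw [mul_inv, ← _root_.zpow_neg, h2]

/-- the exponent of an element of exact level `e` is at least every level -/
lemma LevU.le (hϖ : Irreducible ϖ) {e e' : ℤ} {x : FractionRing O} (hx : LevU ϖ e x)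
    (hy : Lev ϖ e' x) : e' ≤ e := by
  by_contra hlt
  rw [not_le] at hlt
  obtain ⟨k, hk⟩ := Int.le.dest (Int.add_one_le_of_lt hlt)
  obtain ⟨a, ha, rfl⟩ := hx
  obtain ⟨b, hb⟩ := hy
  have h1 : algebraMap O (FractionRing O) a =
      algebraMap O (FractionRing O) (ϖ * (ϖ ^ k * b)) := by
    have h2 : algebraMap O (FractionRing O) ϖ ^ e ≠ 0 := zpow_ne_zero _ (pi_ne hϖ.ne_zero)
    apply mul_left_cancel₀ h2
    rw [hb, ← hk, zpow_add₀ (pi_ne hϖ.ne_zero), zpow_add₀ (pi_ne hϖ.ne_zero), zpow_one,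
      zpow_natCast, map_mul, map_mul, map_pow]
    ring
  have h3 := IsFractionRing.injective O (FractionRing O) h1
  rw [h3] at ha
  exact hϖ.not_isUnit (isUnit_of_mul_isUnit_left ha)

/-- a perturbation of higher level does not change the exact level -/
lemma LevU.add_lev [IsLocalRing O] (hϖ : Irreducible ϖ) {e e' : ℤ} (h : e < e')
    {x y : FractionRing O} (hx : LevU ϖ e x) (hy : Lev ϖ e' y) : LevU ϖ e (x + y) := by
  obtain ⟨a, ha, rfl⟩ := hx
  obtain ⟨b, rfl⟩ := hy
  obtain ⟨k, hk⟩ := Int.le.dest (Int.add_one_le_of_lt h)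
  refine ⟨a + ϖ * (ϖ ^ k * b), ?_, ?_⟩
  · by_contra hcon
    have h1 : a + ϖ * (ϖ ^ k * b) ∈ IsLocalRing.maximalIdeal O :=
      (IsLocalRing.mem_maximalIdeal _).2 hcon
    have h2 : ϖ * (ϖ ^ k * b) ∈ IsLocalRing.maximalIdeal O :=
      Ideal.mul_mem_right _ _ ((IsLocalRing.mem_maximalIdeal _).2 hϖ.not_isUnit)
    have h3 : a ∈ IsLocalRing.maximalIdeal O := by
      have := Ideal.sub_mem _ h1 h2
      simpa using this
    exact (IsLocalRing.mem_maximalIdeal _).1 h3 ha
  · rw [← hk, zpow_add₀ (pi_ne hϖ.ne_zero), zpow_add₀ (pi_ne hϖ.ne_zero), zpow_one,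
      zpow_natCast, map_add, map_mul, map_mul, map_pow]
    ring

/-- every nonzero element has an exact level -/
lemma exists_levU [IsDiscreteValuationRing O] (hϖ : Irreducible ϖ) {x : FractionRing O}
    (hx : x ≠ 0) : ∃ e, LevU ϖ e x := by
  obtain ⟨a, b, hb, rfl⟩ := IsFractionRing.div_surjective (A := O) x
  have hb0 : b ≠ 0 := nonZeroDivisors.ne_zero hb
  have ha0 : a ≠ 0 := by
    rintro rfl
    exact hx (by simp)
  obtain ⟨k, u, rfl⟩ := IsDiscreteValuationRing.eq_unit_mul_pow_irreducible ha0 hϖ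
  obtain ⟨l, w, rfl⟩ := IsDiscreteValuationRing.eq_unit_mul_pow_irreducible hb0 hϖ
  have h1 : LevU ϖ k (algebraMap O (FractionRing O) (u * ϖ ^ k)) :=
    ⟨u, Units.isUnit _, by rw [map_mul, map_pow, zpow_natCast]; ring⟩
  have h2 : LevU ϖ l (algebraMap O (FractionRing O) (w * ϖ ^ l)) :=
    ⟨w, Units.isUnit _, by rw [map_mul, map_pow, zpow_natCast]; ring⟩
  exact ⟨k + -l, by rw [div_eq_mul_inv]; exact h1.mul hϖ.ne_zero h2.inv⟩

end Lev

section Blocks

variable {O : Type u} [CommRing O] {A : Type w} [Ring A] [Algebra O A] {ι : Type} [Fintype ι]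
  [DecidableEq ι] {n : ι → ℕ}

/-- The block diagonal sum of the algebra homomorphisms `T i`. -/
noncomputable def bd (T : (i : ι) → A →ₐ[O] Matrix (Fin (n i)) (Fin (n i)) O) :
    A →ₐ[O] Matrix (Idx n) (Idx n) O where
  toFun a := Matrix.blockDiagonal' fun i => T i a
  map_one' := by
    have : (fun i => T i (1 : A)) = fun i => (1 : Matrix (Fin (n i)) (Fin (n i)) O) := by
      funext i
      rw [map_one]
    rw [this]
    exact Matrix.blockDiagonal'_one
  map_mul' a b := by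
    have : (fun i => T i (a * b)) = fun i => T i a * T i b := by
      funext i
      rw [map_mul]
    rw [this, Matrix.blockDiagonal'_mul]
  map_zero' := by
    have : (fun i => T i (0 : A)) = fun i => (0 : Matrix (Fin (n i)) (Fin (n i)) O) := by
      funext i
      rw [map_zero]
    rw [this]
    exact Matrix.blockDiagonal'_zero
  map_add' a b := by
    have : (fun i => T i (a + b)) = (fun i => T i a) + fun i => T i b := by
      funext i
      simp
    rw [this, Matrix.blockDiagonal'_add]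
  commutes' r := by
    ext ⟨i, s⟩ ⟨j, t⟩
    simp only [AlgHom.commutes]
    by_cases h : i = j
    · subst h
      rw [Matrix.blockDiagonal'_apply_eq]
      by_cases hst : s = t
      · subst hst
        simp [Matrix.algebraMap_matrix_apply]
      · have : (⟨i, s⟩ : Idx n) ≠ ⟨i, t⟩ := by
          intro h
          apply hst
          simpa using h
        simp [Matrix.algebraMap_matrix_apply, hst]
    · rw [Matrix.blockDiagonal'_apply_ne _ _ _ h]
      have : (⟨i, s⟩ : Idx n) ≠ ⟨j, t⟩ := by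
        intro h'
        exact h (congrArg Sigma.fst h')
      simp [Matrix.algebraMap_matrix_apply, this]

variable (T : (i : ι) → A →ₐ[O] Matrix (Fin (n i)) (Fin (n i)) O)

lemma bd_apply (a : A) : bd T a = Matrix.blockDiagonal' fun i => T i a := rfl

lemma bd_eq (a : A) (i : ι) (s t : Fin (n i)) : bd T a ⟨i, s⟩ ⟨i, t⟩ = T i a s t := by
  rw [bd_apply]
  exact Matrix.blockDiagonal'_apply_eq (fun i => T i a) i s t

lemma bd_ne (a : A) {i j : ι} (h : i ≠ j) (s : Fin (n i)) (t : Fin (n j)) :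
    bd T a ⟨i, s⟩ ⟨j, t⟩ = 0 := by
  rw [bd_apply]
  exact Matrix.blockDiagonal'_apply_ne (fun i => T i a) s t h

/-- the base point of a block -/
def bp (hn : ∀ i, 0 < n i) (i : ι) : Idx n := ⟨i, ⟨0, hn i⟩⟩

end Blocks

/-- Two algebra homomorphisms `E : A → M_X(K)` and `TA : A → M_X(O)` have congruent traces modulo
`ϖ ^ m` (so the traces of `E` are in `O`). -/
def TrCong {O : Type u} [CommRing O] [IsDomain O] {A : Type w} [Ring A] [Algebra O A] {X : Type}
    [Fintype X] [DecidableEq X] (ϖ : O) (m : ℕ) (E : A →ₐ[O] Matrix X X (FractionRing O))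
    (TA : A →ₐ[O] Matrix X X O) : Prop :=
  ∀ a, Lev ϖ m ((E a).trace - algebraMap O (FractionRing O) (TA a).trace)

/-- Elements `D y` which are close to `ϖ ^ c'` times the matrix units `E_yy`: exactly on the side of
`E`, modulo `ϖ ^ k` on the side of `TA`. -/
structure IsD {O : Type u} [CommRing O] [IsDomain O] {A : Type w} [Ring A] [Algebra O A]
    {X : Type} [Fintype X] [DecidableEq X] (ϖ : O) (c' k : ℕ)
    (E : A →ₐ[O] Matrix X X (FractionRing O)) (TA : A →ₐ[O] Matrix X X O) (D : X → A) : Prop where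
  E : ∀ y, E (D y) = Matrix.single y y (algebraMap O (FractionRing O) ϖ ^ c')
  T : ∀ y p q, ϖ ^ k ∣ (TA (D y) - Matrix.single y y (ϖ ^ c')) p q

/-- The representation on `Fin k → M` which is given by `ρ` in every coordinate. -/
def piRep {O : Type u} [CommRing O] {G : Type v} [Group G] {M : Type w} [AddCommGroup M]
    [Module O M] (k : ℕ) (ρ : Representation O G M) : Representation O G (Fin k → M) where
  toFun g := LinearMap.pi fun i => (ρ g).comp (LinearMap.proj i)
  map_one' := by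
    refine LinearMap.ext fun x => ?_
    funext i
    simp
  map_mul' g h := by
    refine LinearMap.ext fun x => ?_
    funext i
    simp

end Pool.Agent.RRC
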