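import Pool.Agent.RRC.Pair

set_option autoImplicit false

/-! # The main theorem from the targets -/

namespace Pool.Agent.RRC

universe u v w

open Matrix Pool.Agent.RTL

/-- MAIN theorem, for classes of representations. -/
def T_MAIN : Prop := ∀ (O : Type u) [CommRing O] [IsDomain O] [IsDiscreteValuationRing O] (ϖ : O),
    Irreducible ϖ → IsAdicComplete (Ideal.span ({ϖ} : Set O)) O → ∀ (G : Type v) [Group G]
    (C : RepClass O G), C.Closed → ∀ (ι : Type) [Fintype ι] [DecidableEq ι] (n : ι → ℕ),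
    (∀ i, 0 < n i) → ∀ N : ℕ, N = ∑ i, n i → ∀ (σ : G →* Matrix (Fin N) (Fin N) O)
    (τ : (i : ι) → G →* Matrix (Fin (n i)) (Fin (n i)) O) (c m : ℕ),
    (∃ d : Idx n → O, ∀ y z, y ≠ z → IsUnit (d y - d z)) →
    (∀ b : (i : ι) → Matrix (Fin (n i)) (Fin (n i)) O, ∃ a : G →₀ O,
      ∀ i, a.sum (fun g x => x • τ i g) = ϖ ^ c • b i) →
    (∀ g, ϖ ^ m ∣ (σ g).trace - ∑ i, (τ i g).trace) →
    (∀ W : Submodule O (Fin N → O), (∀ g, ∀ w ∈ W, σ g *ᵥ w ∈ W) →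
      W = ⊥ ∨ ∃ k : ℕ, ∀ v : Fin N → O, ϖ ^ k • v ∈ W) →
    (∀ r, C _ (latRep ϖ r σ)) → (∀ i, C _ (latRep ϖ m (τ i))) →
    ∃ cc : ι → ι → ℕ,
      (∀ i j, i ≠ j → ∃ z : Z1 ϖ m (τ i) (τ j), C _ (extRep ϖ m (τ i) (τ j) z) ∧
        ∀ l : ℕ, ϖ ^ l • z.1 ∈ B1 ϖ m (τ i) (τ j) → cc i j ≤ l) ∧
      ∀ P : Finset ι, P.Nonempty → P ≠ Finset.univ →
        m ≤ ∑ i ∈ P, ∑ j ∈ Pᶜ, cc i j + 9 * N * P.card * Pᶜ.card * c

theorem p_MAIN (h_ROOTS : T_ROOTS.{u, max u v}) (h_HENSEL : T_HENSEL.{u}) (h_DIAG : T_DIAG.{u})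
    (h_EV : T_EV.{u, max u v}) (h_DY : T_DY.{u, max u v}) (h_NORM : T_NORM.{u, max u v})
    (h_RESC : T_RESC.{u}) (h_BND : T_BND.{u}) (h_IRR : T_IRR.{u, max u v})
    (h_ALPHA : T_ALPHA.{u, max u v}) (h_STEPS : T_STEPS.{u, max u v})
    (h_WALK : T_WALK.{u, max u v}) (h_CUT : T_CUT) (h_COC : T_COC.{u, max u v})
    (h_ORD : T_ORD.{u, max u v}) (h_CLS : T_CLS.{u, v}) (h_ZERO : T_ZERO.{u, v})
    (h_SETUP : T_SETUP.{u, v}) : T_MAIN.{u, v} := by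
  intro O _ _ _ ϖ hϖ hcomp G _ C hC ι _ _ n hn N hN σ τ c m hd h1 h2 h3 hCσ hCτ
  have hϖ0 := hϖ.ne_zero
  -- the trivial case
  by_cases htriv : m ≤ (3 * N + 2) * c
  · refine ⟨fun _ _ => 0, fun i j _ => ⟨0, h_ZERO O ϖ G C hC _ _ m (τ i) (τ j) (hCτ i) (hCτ j) 0
      rfl, fun l _ => Nat.zero_le _⟩, ?_⟩
    intro P hP hP'
    have hcP : 1 ≤ P.card := hP.card_pos
    have hcP' : 1 ≤ Pᶜ.card := by
      rw [Nat.one_le_iff_ne_zero, Finset.card_ne_zero]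
      rw [Finset.nonempty_iff_ne_empty]
      intro h
      exact hP' (Finset.compl_eq_empty_iff _ |>.1 h)
    have hN1 : 1 ≤ N := by
      obtain ⟨i, hi⟩ := hP
      rw [hN]
      exact (hn i).trans_le (Finset.single_le_sum (fun _ _ => Nat.zero_le _) (Finset.mem_univ i))
    have h4 : N * 1 * 1 ≤ N * P.card * Pᶜ.card := by gcongr
    calc m ≤ (3 * N + 2) * c := htriv
      _ ≤ (9 * (N * 1 * 1)) * c := by
          gcongr
          omega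
      _ ≤ (9 * (N * P.card * Pᶜ.card)) * c := by gcongr
      _ = 9 * N * P.card * Pᶜ.card * c := by ring
      _ ≤ _ := Nat.le_add_left _ _
  rw [not_le] at htriv
  rcases isEmpty_or_nonempty ι with hι | ⟨⟨i0⟩⟩
  · refine ⟨fun _ _ => 0, fun i => (hι.false i).elim, ?_⟩
    rintro P ⟨i, -⟩
    exact (hι.false i).elim
  have hN1 : 1 ≤ N := by
    rw [hN]
    exact (hn i0).trans_le (Finset.single_le_sum (fun _ _ => Nat.zero_le _) (Finset.mem_univ i0))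
  obtain ⟨N', hN'⟩ : ∃ N', N = N' + 1 := ⟨N - 1, by omega⟩
  -- the constants
  obtain ⟨c', hc'⟩ : ∃ c', c' = N' * c := ⟨_, rfl⟩
  have hNc : N * c = c' + c := by rw [hN', hc']; ring
  have e1 : (3 * N + 2) * c = 3 * (N * c) + 2 * c := by ring
  rw [e1, hNc] at htriv
  obtain ⟨k, hk⟩ : ∃ k, m = k + 2 * c := ⟨m - 2 * c, by omega⟩
  obtain ⟨ρ, hρ⟩ : ∃ ρ, k = ρ + 3 * c' + 2 * c := ⟨k - 3 * c' - 2 * c, by omega⟩
  have hρc : c < ρ := by omega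
  obtain ⟨d, hd⟩ := hd
  obtain ⟨htr, hs⟩ := h_SETUP O ϖ G ι n N σ τ c m h1 h2
  have hof : ∀ g : G, MonoidAlgebra.lift O _ G σ (MonoidAlgebra.of O G g) = σ g :=
    fun g => MonoidAlgebra.lift_of _ _
  obtain ⟨E, D, α, e, hTr, hD, hEB, hα, he⟩ := core1 h_ROOTS h_HENSEL h_DIAG h_EV h_DY h_NORM h_RESC
    h_BND h_IRR h_ALPHA O ϖ hϖ hcomp (MonoidAlgebra O G) ι n hn N hN (MonoidAlgebra.lift O _ G σ)
    (fun i => MonoidAlgebra.lift O _ G (τ i)) m k c c' ρ hNc.symm hk hρ (by omega) d hd hs htr (by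
      intro W hW
      refine h3 W fun g w hw => ?_
      rw [← hof]
      exact hW _ w hw)
  have hwalk : ∀ (w : ℕ → ι) (l : ℕ), w l = w 0 → (∃ t < l, w t ≠ w (t + 1)) →
      (k : ℤ) - c' ≤ ∑ t ∈ Finset.range l, if w t = w (t + 1) then 0 else
        α (w t) (w (t + 1)) + (4 * c' + 2 * c) := by
    refine h_WALK O ϖ hϖ (MonoidAlgebra O G) (Idx n) E
      (bd fun i => MonoidAlgebra.lift O _ G (τ i)) m k c' D (by omega) hTr hD ι (bp hn)
      (fun i j => α i j + (4 * c' + 2 * c)) ?_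
    intro i j hij
    obtain ⟨B, ⟨x, hx1, hx2⟩, hB⟩ := h_STEPS O ϖ hϖ (MonoidAlgebra O G) ι n hn
      (fun i => MonoidAlgebra.lift O _ G (τ i)) E k c c' ρ D hD hρc hEB hs i j hij (α i j)
      (hα i j).2
    refine ⟨B, ⟨x, ?_, hx2⟩, hB⟩
    rw [← add_assoc]
    exact hx1
  choose eps heps1 heps2 heps3 using fun i j =>
    PAIR_.eps_exists (fun u => α i u + α u j - α i j) (Finset.univ.filter fun u => u ≠ i ∧ u ≠ j) ρ
  have hcut := h_CUT ι α ((k : ℤ) - c') (4 * c' + 2 * c) ρ (by positivity) (by omega) hwalk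
    (fun i j => (eps i j : ℤ)) (fun i j => by positivity) (by
      intro i j hij
      rcases heps3 i j with h | ⟨u, hu, h⟩
      · left
        exact_mod_cast h
      · right
        rw [Finset.mem_filter] at hu
        exact ⟨u, hu.2.1, hu.2.2, h⟩)
  refine ⟨fun i j => eps i j - (2 * c' + 2 * c), ?_, ?_⟩
  · intro i j hij
    refine pair h_COC h_ORD h_CLS h_ZERO O ϖ hϖ G C hC ι n N σ τ m k c c' ρ hk (by omega) hCσ hCτ
      E D α e hD hEB hα he i j hij (eps i j) (heps1 i j) ?_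
    intro hpos u hu1 hu2
    exact heps2 i j hpos u (Finset.mem_filter.2 ⟨Finset.mem_univ _, hu1, hu2⟩)
  · intro P hP hP'
    obtain ⟨T, hT1, hT2, hT3⟩ := hcut P hP hP'
    have hmin : min (ρ : ℤ) ((k : ℤ) - c') = ρ := min_eq_left (by omega)
    rw [hmin] at hT3
    have hT4 : ρ ≤ ∑ p ∈ T, (eps p.1 p.2 + (4 * c' + 2 * c)) := by
      have : ((∑ p ∈ T, (eps p.1 p.2 + (4 * c' + 2 * c)) : ℕ) : ℤ) =
          ∑ p ∈ T, ((eps p.1 p.2 : ℤ) + (4 * c' + 2 * c)) := by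
        push_cast
        rfl
      rw [← this] at hT3
      exact_mod_cast hT3
    have hT5 : ∑ p ∈ T, (eps p.1 p.2 + (4 * c' + 2 * c)) ≤
        ∑ p ∈ T, ((eps p.1 p.2 - (2 * c' + 2 * c)) + (6 * c' + 4 * c)) :=
      Finset.sum_le_sum fun p _ => by omega
    have hT6 : ∑ p ∈ T, ((eps p.1 p.2 - (2 * c' + 2 * c)) + (6 * c' + 4 * c)) ≤
        ∑ p ∈ P ×ˢ Pᶜ, (eps p.1 p.2 - (2 * c' + 2 * c)) + T.card * (6 * c' + 4 * c) := by
      rw [Finset.sum_add_distrib, Finset.sum_const, smul_eq_mul]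
      gcongr
    have hT7 : ∑ p ∈ P ×ˢ Pᶜ, (eps p.1 p.2 - (2 * c' + 2 * c)) =
        ∑ i ∈ P, ∑ j ∈ Pᶜ, (eps i j - (2 * c' + 2 * c)) := Finset.sum_product _ _ _
    rw [hT7] at hT6
    have hcard : T.card ≤ P.card * Pᶜ.card := by
      rw [← Finset.card_product]
      exact Finset.card_le_card hT2
    have hcard1 : 1 ≤ T.card := hT1.card_pos
    obtain ⟨q, hq⟩ : ∃ q, q = P.card * Pᶜ.card := ⟨_, rfl⟩
    rw [← hq] at hcard
    have e2 : 9 * N * P.card * Pᶜ.card * c = 9 * (q * (N * c)) := by rw [hq]; ring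
    rw [e2, hNc]
    have e3 : T.card * (6 * c' + 4 * c) ≤ q * (6 * c' + 4 * c) := by gcongr
    have e4 : 3 * c' + 4 * c ≤ q * (3 * c' + 4 * c) :=
      Nat.le_mul_of_pos_left _ (by omega)
    have e5 : q * (6 * c' + 4 * c) + q * (3 * c' + 4 * c) ≤ 9 * (q * (c' + c)) := by nlinarith
    have e6 : m = ρ + (3 * c' + 4 * c) := by omega
    change m ≤ ∑ i ∈ P, ∑ j ∈ Pᶜ, (eps i j - (2 * c' + 2 * c)) + 9 * (q * (c' + c))
    omega

end Pool.Agent.RRC
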