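import Pool.Agent.RRC.Targets

set_option autoImplicit false

/-!
# RRC: the combinatorial target CUT
-/

universe u v w

namespace Pool.Agent.RRC

open Matrix Pool.Agent.RTL

namespace CUT_

/-- A self map of a finite nonempty type has a periodic point. -/
theorem exists_periodic {S : Type} [Finite S] [Nonempty S] (f : S → S) :
    ∃ x, x ∈ Function.periodicPts f := by
  obtain ⟨x0⟩ := ‹Nonempty S›
  obtain ⟨a, b, hab, h⟩ := Finite.exists_ne_map_eq_of_infinite (fun t : ℕ => f^[t] x0)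
  wlog hlt : a < b generalizing a b with H
  · exact H b a hab.symm h.symm (lt_of_le_of_ne (not_lt.1 hlt) hab.symm)
  refine ⟨f^[a] x0, b - a, Nat.sub_pos_of_lt hlt, ?_⟩
  change f^[b - a] (f^[a] x0) = f^[a] x0
  rw [← Function.iterate_add_apply, Nat.sub_add_cancel hlt.le]
  exact h.symm

/-- The step expression of a walk. -/
def st {ι : Type} [DecidableEq ι] (α : ι → ι → ℤ) (q : ℤ) (a b : ι) : ℤ :=
  if a = b then 0 else α a b + q

theorem walk_nonneg {ι : Type} [DecidableEq ι] {α : ι → ι → ℤ} {κ q : ℤ} (hκ : 0 ≤ κ)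
    (hw : ∀ (w : ℕ → ι) (l : ℕ), w l = w 0 → (∃ t < l, w t ≠ w (t + 1)) →
      κ ≤ ∑ t ∈ Finset.range l, if w t = w (t + 1) then 0 else α (w t) (w (t + 1)) + q)
    (w : ℕ → ι) (l : ℕ) (hl : w l = w 0) :
    0 ≤ ∑ t ∈ Finset.range l, st α q (w t) (w (t + 1)) ∧
      ((∃ t < l, w t ≠ w (t + 1)) → κ ≤ ∑ t ∈ Finset.range l, st α q (w t) (w (t + 1))) := by
  constructor
  · by_cases h : ∃ t < l, w t ≠ w (t + 1)
    · exact hκ.trans (hw w l hl h)
    · push Not at h
      refine le_of_eq (Finset.sum_eq_zero fun t ht => ?_).symm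
      unfold st
      rw [if_pos (h t (Finset.mem_range.1 ht))]
  · intro h
    exact hw w l hl h

end CUT_

theorem p_CUT : T_CUT := by
  intro ι _ _ α κ q ρ hq hκ hw ε hε hyp P hP hPu
  classical
  by_cases hc : ∃ p ∈ P ×ˢ Pᶜ, ρ ≤ ε p.1 p.2
  · obtain ⟨p, hp, hρ⟩ := hc
    refine ⟨{p}, Finset.singleton_nonempty _, Finset.singleton_subset_iff.2 hp, ?_⟩
    rw [Finset.sum_singleton]
    exact (min_le_left _ _).trans (by linarith)
  push Not at hc
  have hstep : ∀ x : {p // p ∈ P ×ˢ Pᶜ}, ∃ y : {p // p ∈ P ×ˢ Pᶜ},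
      (x.1.1 ≠ y.1.1 ∧ y.1.2 = x.1.2 ∧
        α x.1.1 y.1.1 + α y.1.1 y.1.2 - α x.1.1 x.1.2 ≤ ε x.1.1 x.1.2) ∨
      (x.1.1 = y.1.1 ∧ y.1.2 ≠ x.1.2 ∧
        α y.1.1 y.1.2 + α y.1.2 x.1.2 - α x.1.1 x.1.2 ≤ ε x.1.1 x.1.2) := by
    rintro ⟨⟨i, j⟩, hx⟩
    have hx' := hx
    rw [Finset.mem_product, Finset.mem_compl] at hx'
    have hij : i ≠ j := by
      rintro rfl
      exact hx'.2 hx'.1
    rcases hyp i j hij with h | ⟨u, hui, huj, h⟩
    · exact absurd h (not_le.2 (hc (i, j) hx))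
    · by_cases hu : u ∈ P
      · exact ⟨⟨(u, j), Finset.mem_product.2 ⟨hu, Finset.mem_compl.2 hx'.2⟩⟩,
          Or.inl ⟨hui.symm, rfl, h⟩⟩
      · exact ⟨⟨(i, u), Finset.mem_product.2 ⟨hx'.1, Finset.mem_compl.2 hu⟩⟩,
          Or.inr ⟨rfl, huj, h⟩⟩
  choose f hf using hstep
  have : Nonempty {p // p ∈ P ×ˢ Pᶜ} := by
    obtain ⟨i, hi⟩ := hP
    obtain ⟨j, hj⟩ : ∃ j, j ∉ P := by
      by_contra hcon
      push Not at hcon
      exact hPu (Finset.eq_univ_iff_forall.2 hcon)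
    exact ⟨⟨(i, j), Finset.mem_product.2 ⟨hi, Finset.mem_compl.2 hj⟩⟩⟩
  obtain ⟨x, hx⟩ := CUT_.exists_periodic f
  set k := Function.minimalPeriod f x with hkdef
  have hk : 0 < k := Function.minimalPeriod_pos_of_mem_periodicPts hx
  have hkx : f^[k] x = x := Function.isPeriodicPt_minimalPeriod f x
  set p : ℕ → ι × ι := fun t => (f^[t] x).1 with hp
  have hpk : p k = p 0 := by
    simp only [hp, hkx, Function.iterate_zero, id_eq]
  have hinj : ∀ a ∈ Finset.range k, ∀ b ∈ Finset.range k, p a = p b → a = b := by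
    intro a ha b hb hab
    exact Function.iterate_injOn_Iio_minimalPeriod (f := f) (x := x)
      (Finset.mem_range.1 ha) (Finset.mem_range.1 hb) (Subtype.ext hab)
  have hs : ∀ t, ((p t).1 ≠ (p (t + 1)).1 ∧ (p (t + 1)).2 = (p t).2 ∧
        α (p t).1 (p (t + 1)).1 + α (p (t + 1)).1 (p (t + 1)).2 - α (p t).1 (p t).2
          ≤ ε (p t).1 (p t).2) ∨
      ((p t).1 = (p (t + 1)).1 ∧ (p (t + 1)).2 ≠ (p t).2 ∧
        α (p (t + 1)).1 (p (t + 1)).2 + α (p (t + 1)).2 (p t).2 - α (p t).1 (p t).2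
          ≤ ε (p t).1 (p t).2) := by
    intro t
    have h1 := hf (f^[t] x)
    have h2 : p (t + 1) = (f (f^[t] x)).1 := by
      simp only [hp]
      rw [Function.iterate_succ_apply']
    rw [h2]
    exact h1
  -- the inequality at one time
  have hone : ∀ t, CUT_.st α q (p t).1 (p (t + 1)).1 + CUT_.st α q (p (t + 1)).2 (p t).2 ≤
      (ε (p t).1 (p t).2 + q) + (α (p t).1 (p t).2 - α (p (t + 1)).1 (p (t + 1)).2) := by
    intro t
    unfold CUT_.st
    rcases hs t with ⟨h1, h2, h3⟩ | ⟨h1, h2, h3⟩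
    · rw [if_neg h1, if_pos h2]
      linarith
    · rw [if_pos h1, if_neg h2]
      linarith
  have hsum : ∑ t ∈ Finset.range k, CUT_.st α q (p t).1 (p (t + 1)).1 +
      ∑ t ∈ Finset.range k, CUT_.st α q (p (t + 1)).2 (p t).2 ≤
      ∑ t ∈ Finset.range k, (ε (p t).1 (p t).2 + q) := by
    have h1 : ∑ t ∈ Finset.range k,
        (α (p t).1 (p t).2 - α (p (t + 1)).1 (p (t + 1)).2) = 0 := by
      rw [Finset.sum_range_sub' (fun t => α (p t).1 (p t).2), hpk, sub_self]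
    calc _ = ∑ t ∈ Finset.range k, (CUT_.st α q (p t).1 (p (t + 1)).1 +
          CUT_.st α q (p (t + 1)).2 (p t).2) := by rw [Finset.sum_add_distrib]
      _ ≤ ∑ t ∈ Finset.range k, ((ε (p t).1 (p t).2 + q) +
          (α (p t).1 (p t).2 - α (p (t + 1)).1 (p (t + 1)).2)) :=
          Finset.sum_le_sum fun t _ => hone t
      _ = _ := by rw [Finset.sum_add_distrib, h1, add_zero]
  -- the two closed walks
  have hI := CUT_.walk_nonneg hκ hw (fun t => (p t).1) k (by simp only [hpk])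
  have hJ := CUT_.walk_nonneg hκ hw (fun t => (p (k - t)).2) k (by simp only [Nat.sub_self,
    Nat.sub_zero, hpk])
  have hrefl : ∑ t ∈ Finset.range k, CUT_.st α q (p (k - t)).2 (p (k - (t + 1))).2 =
      ∑ t ∈ Finset.range k, CUT_.st α q (p (t + 1)).2 (p t).2 := by
    rw [← Finset.sum_range_reflect (fun t => CUT_.st α q (p (t + 1)).2 (p t).2) k]
    refine Finset.sum_congr rfl fun t ht => ?_
    rw [Finset.mem_range] at ht
    have e1 : k - 1 - t + 1 = k - t := by omega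
    have e2 : k - (t + 1) = k - 1 - t := by omega
    rw [e1, e2]
  rw [hrefl] at hJ
  have hmain : κ ≤ ∑ t ∈ Finset.range k, (ε (p t).1 (p t).2 + q) := by
    rcases hs 0 with ⟨h1, -, -⟩ | ⟨-, h2, -⟩
    · have := hI.2 ⟨0, hk, h1⟩
      linarith [hJ.1]
    · have := hJ.2 ⟨k - 1, by omega, by
        have e1 : k - (k - 1) = 0 + 1 := by omega
        have e2 : k - (k - 1 + 1) = 0 := by omega
        rw [e1, e2]
        exact h2⟩
      linarith [hI.1]
  refine ⟨(Finset.range k).image p, ?_, ?_, ?_⟩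
  · exact (Finset.nonempty_range_iff.2 hk.ne').image _
  · intro y hy
    obtain ⟨t, -, rfl⟩ := Finset.mem_image.1 hy
    exact (f^[t] x).2
  · rw [Finset.sum_image hinj]
    exact (min_le_right _ _).trans hmain

end Pool.Agent.RRC
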