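import Pool.Agent.RRC.Core

set_option autoImplicit false

/-! # Steps 11 - 13 for one pair of constituents -/

namespace Pool.Agent.RRC

universe u v w

open Matrix Pool.Agent.RTL

namespace PAIR_

section

variable {O : Type u} [CommRing O] (ϖ : O) (m : ℕ)

/-- reduction as a linear map -/
def redL (a b : ℕ) : Matrix (Fin a) (Fin b) O →ₗ[O] Matrix (Fin a) (Fin b) (Quo ϖ m) where
  toFun M := red ϖ m M
  map_add' M N := by
    ext s t
    simp [red]
  map_smul' c M := by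
    ext s t
    simp only [red, Matrix.map_apply, Matrix.smul_apply, smul_eq_mul, map_mul, RingHom.id_apply,
      Algebra.smul_def]
    rfl

lemma redL_apply (a b : ℕ) (M : Matrix (Fin a) (Fin b) O) : redL ϖ m a b M = red ϖ m M := rfl

lemma red_eq_zero {a b : ℕ} {M : Matrix (Fin a) (Fin b) O} :
    red ϖ m M = 0 ↔ ∀ s t, ϖ ^ m ∣ M s t := by
  constructor
  · intro h s t
    have := congrFun (congrFun h s) t
    simp only [red, Matrix.map_apply, Matrix.zero_apply] at this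
    rwa [Ideal.Quotient.eq_zero_iff_mem, Ideal.mem_span_singleton] at this
  · intro h
    ext s t
    simp only [red, Matrix.map_apply, Matrix.zero_apply]
    rw [Ideal.Quotient.eq_zero_iff_mem, Ideal.mem_span_singleton]
    exact h s t

lemma red_surj {a b : ℕ} (X : Matrix (Fin a) (Fin b) (Quo ϖ m)) :
    ∃ Y : Matrix (Fin a) (Fin b) O, red ϖ m Y = X := by
  choose Y hY using fun i s => Ideal.Quotient.mk_surjective (X i s)
  refine ⟨Matrix.of Y, ?_⟩
  ext s t
  exact hY s t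

end

lemma eps_exists {ι : Type} (f : ι → ℤ) (S : Finset ι) (ρ : ℕ) : ∃ eps : ℕ, eps ≤ ρ ∧
    (0 < eps → ∀ u ∈ S, (eps : ℤ) ≤ f u) ∧ (ρ ≤ eps ∨ ∃ u ∈ S, f u ≤ eps) := by
  rcases S.eq_empty_or_nonempty with rfl | hS
  · exact ⟨ρ, le_rfl, fun _ u hu => absurd hu (Finset.notMem_empty _), Or.inl le_rfl⟩
  · obtain ⟨u0, hu0, hmin⟩ := S.exists_min_image f hS
    refine ⟨min ρ (f u0).toNat, min_le_left _ _, ?_, ?_⟩
    · intro h u hu
      have h1 := hmin u hu
      omega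
    · rcases le_total ρ (f u0).toNat with h | h
      · left
        rw [min_eq_left h]
      · right
        refine ⟨u0, hu0, ?_⟩
        rw [min_eq_right h]
        exact Int.self_le_toNat _

end PAIR_

open PAIR_

theorem pair (h_COC : T_COC.{u, max u v}) (h_ORD : T_ORD.{u, max u v}) (h_CLS : T_CLS.{u, v})
    (h_ZERO : T_ZERO.{u, v})
    (O : Type u) [CommRing O] [IsDomain O] [IsDiscreteValuationRing O] (ϖ : O)
    (hϖ : Irreducible ϖ) (G : Type v) [Group G] (C : RepClass O G) (hC : C.Closed)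
    (ι : Type) [Fintype ι] [DecidableEq ι] (n : ι → ℕ)
    (N : ℕ) (σ : G →* Matrix (Fin N) (Fin N) O)
    (τ : (i : ι) → G →* Matrix (Fin (n i)) (Fin (n i)) O) (m k c c' ρ : ℕ)
    (hm : m = k + 2 * c) (hρm : ρ ≤ m)
    (hCσ : ∀ r, C _ (latRep ϖ r σ)) (hCτ : ∀ i, C _ (latRep ϖ m (τ i)))
    (E : MonoidAlgebra O G →ₐ[O] Matrix (Idx n) (Idx n) (FractionRing O))
    (D : Idx n → MonoidAlgebra O G) (α : ι → ι → ℤ) (e : ℤ)
    (hD : IsD ϖ c' k E (bd fun i => MonoidAlgebra.lift O _ G (τ i)) D)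
    (hEB : ∀ a i s t, Lev ϖ ρ (E a ⟨i, s⟩ ⟨i, t⟩ -
      algebraMap O (FractionRing O) (MonoidAlgebra.lift O _ G (τ i) a s t)))
    (hα : ∀ i j, (∀ a s t, Lev ϖ (α i j) (E a ⟨i, s⟩ ⟨j, t⟩)) ∧
      ∃ a s t, LevU ϖ (α i j) (E a ⟨i, s⟩ ⟨j, t⟩))
    (he : ∀ (r : ℕ) a, (∀ p q, ϖ ^ r ∣ (MonoidAlgebra.lift O _ G σ) a p q) →
      ∀ y z, Lev ϖ (e + r) (E a y z))
    (i j : ι) (hij : i ≠ j) (eps : ℕ) (heps : eps ≤ ρ)
    (heps' : 0 < eps → ∀ u, u ≠ i → u ≠ j → (eps : ℤ) ≤ α i u + α u j - α i j) :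
    ∃ z : Z1 ϖ m (τ i) (τ j), C _ (extRep ϖ m (τ i) (τ j) z) ∧
      ∀ l : ℕ, ϖ ^ l • z.1 ∈ B1 ϖ m (τ i) (τ j) → eps - (2 * c' + 2 * c) ≤ l := by
  have hϖ0 := hϖ.ne_zero
  rcases Nat.eq_zero_or_pos eps with h0 | hpos
  · subst h0
    refine ⟨0, h_ZERO O ϖ G C hC _ _ m (τ i) (τ j) (hCτ i) (hCτ j) 0 rfl, fun l _ => by omega⟩
  obtain ⟨ζ, hζ1, hζ2⟩ := h_COC O ϖ hϖ (MonoidAlgebra O G) ι n
    (fun i => MonoidAlgebra.lift O _ G (τ i)) E ρ hEB α (fun i j _ => (hα i j).1) i j hij eps heps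
    (heps' hpos)
  have hof : ∀ (i : ι) (g : G), MonoidAlgebra.lift O _ G (τ i) (MonoidAlgebra.of O G g) = τ i g :=
    fun i g => MonoidAlgebra.lift_of _ _
  let η : MonoidAlgebra O G →ₗ[O] Matrix (Fin (n i)) (Fin (n j)) (Quo ϖ m) :=
    (redL ϖ m (n i) (n j)).comp (ϖ ^ (m - eps) • ζ)
  have hη : ∀ x, η x = red ϖ m (ϖ ^ (m - eps) • ζ x) := fun x => rfl
  have hcoc : ∀ g h, η (MonoidAlgebra.of O G (g * h)) =
      red ϖ m (τ i g) * η (MonoidAlgebra.of O G h) +
        η (MonoidAlgebra.of O G g) * red ϖ m (τ j h) := by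
    intro g h
    have h1 := hζ2 (MonoidAlgebra.of O G g) (MonoidAlgebra.of O G h)
    rw [← map_mul, hof, hof] at h1
    rw [hη, hη, hη, ← red_mul, ← red_mul, ← redL_apply, ← redL_apply, ← redL_apply, ← map_add,
      ← sub_eq_zero, ← map_sub, redL_apply, red_eq_zero]
    intro s t
    obtain ⟨x, hx⟩ := h1 s t
    refine ⟨x, ?_⟩
    have h2 : ϖ ^ m = ϖ ^ (m - eps) * ϖ ^ eps := by
      rw [← pow_add]
      congr 1
      omega
    rw [h2, mul_assoc, ← hx]
    simp only [Matrix.sub_apply, Matrix.add_apply, Matrix.smul_apply, smul_eq_mul,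
      Matrix.mul_smul, Matrix.smul_mul]
    ring
  let z : Z1 ϖ m (τ i) (τ j) := ⟨fun g => η (MonoidAlgebra.of O G g), hcoc⟩
  refine ⟨z, ?_, ?_⟩
  · refine h_CLS O ϖ G C hC N (n i) (n j) m ((m : ℤ) + α i j - e).toNat σ (τ i) (τ j) (hCσ _)
      (hCτ i) (hCτ j) η ?_ z (fun g => rfl)
    intro x hx
    rw [hη, red_eq_zero]
    intro s t
    rw [Matrix.smul_apply, smul_eq_mul]
    apply Dvd.dvd.mul_left
    have h1 := he _ x hx ⟨i, s⟩ ⟨j, t⟩
    have h2 : Lev ϖ ((m : ℤ) + α i j) (E x ⟨i, s⟩ ⟨j, t⟩) := by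
      refine Lev.mono hϖ0 ?_ h1
      have := Int.self_le_toNat ((m : ℤ) + α i j - e)
      omega
    rw [hζ1] at h2
    have h3 := (LevU.zpow (ϖ := ϖ) (-α i j)).lev.mul hϖ0 h2
    rw [← mul_assoc, ← zpow_add₀ (pi_ne hϖ0), neg_add_cancel, _root_.zpow_zero, one_mul] at h3
    have h4 : -α i j + ((m : ℤ) + α i j) = (m : ℕ) := by omega
    rw [h4] at h3
    exact (Lev.of_iff hϖ0).1 h3
  · rintro l ⟨X, hX⟩
    obtain ⟨Y, rfl⟩ := red_surj ϖ m X
    let L : MonoidAlgebra O G →ₗ[O] Matrix (Fin (n i)) (Fin (n j)) O :=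
      { toFun := fun x => ϖ ^ (l + (m - eps)) • ζ x -
          (MonoidAlgebra.lift O _ G (τ i) x * Y - Y * MonoidAlgebra.lift O _ G (τ j) x)
        map_add' := by
          intro x y
          simp only [map_add, smul_add, Matrix.add_mul, Matrix.mul_add]
          abel
        map_smul' := by
          intro r x
          simp only [map_smul, RingHom.id_apply, Matrix.smul_mul, Matrix.mul_smul, smul_sub]
          rw [smul_comm] }
    have hL : ∀ x, red ϖ m (L x) = 0 := by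
      have h1 : (redL ϖ m (n i) (n j)).comp L = 0 := by
        apply MonoidAlgebra.lhom_ext'
        intro g
        apply LinearMap.ext_ring
        have h2 := hX g
        rw [Pi.smul_apply] at h2
        have h3 : ϖ ^ l • z.1 g = red ϖ m (ϖ ^ (l + (m - eps)) • ζ (MonoidAlgebra.of O G g)) := by
          have : z.1 g = redL ϖ m (n i) (n j) (ϖ ^ (m - eps) • ζ (MonoidAlgebra.of O G g)) := rfl
          rw [this, ← map_smul, smul_smul, ← pow_add]
          rfl
        rw [h3, ← red_mul, ← red_mul, ← redL_apply, ← redL_apply, ← redL_apply, ← map_sub,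
          ← sub_eq_zero, ← map_sub] at h2
        have h4 : L (MonoidAlgebra.of O G g) = ϖ ^ (l + (m - eps)) • ζ (MonoidAlgebra.of O G g) -
            (τ i g * Y - Y * τ j g) := by
          change ϖ ^ (l + (m - eps)) • ζ (MonoidAlgebra.of O G g) -
            (MonoidAlgebra.lift O _ G (τ i) (MonoidAlgebra.of O G g) * Y -
              Y * MonoidAlgebra.lift O _ G (τ j) (MonoidAlgebra.of O G g)) = _
          rw [hof, hof]
        rw [← h4] at h2
        exact h2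
      intro x
      have := LinearMap.congr_fun h1 x
      exact this
    have hfin := h_ORD O ϖ hϖ (MonoidAlgebra O G) ι n (fun i => MonoidAlgebra.lift O _ G (τ i)) E
      m k c c' D hm hD i j hij (α i j) ζ hζ1 (hα i j).2 eps l (by omega) Y (fun a s t =>
        (red_eq_zero ϖ m).1 (hL a) s t)
    omega

end Pool.Agent.RRC
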