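import Pool.Agent.RRC.Defs

set_option autoImplicit false

/-!
# Targets of the project RRC (MP_78858f_nt)

Cut theorem for Ribet's lemma with constituents which may be residually reducible or not disjoint
(loss `9 N |P| |Pᶜ| c`).  Every target is a closed proposition with a complete paper proof in its
docstring.  Read `Defs.lean` first: `Lev ϖ e x` means `x ∈ ϖ ^ e O` (in `K = FractionRing O`,
`e` an integer), `LevU ϖ e x` means `x ∈ ϖ ^ e Oˣ`, with lemmas `Lev.add`, `.sub`, `.neg`, `.sum`,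
`.mul`, `.mono`, `.of`, `.of_iff`, `.algebraMap_mul`, `LevU.lev`, `.mul`, `.inv`, `.ne_zero`, `.le`,
`.add_lev`, `exists_levU`.  `bd T` is the block diagonal homomorphism (`bd_eq`, `bd_ne`),
`bp hn i = ⟨i, 0⟩`, `TrCong` congruence of traces, `IsD` the elements `D y`.
`p̂` stands for `algebraMap O K ϖ`.
-/

namespace Pool.Agent.RRC

universe u v w

open Matrix Pool.Agent.RTL

/-! ### 1. Polynomials -/

/-- ROOTS.  Proof.  `f = (Sg x).charpoly`, choose `a` with `TA a = single y y (ϖ ^ c)`, put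
`b = Polynomial.aeval x f * a`.  `Sg b = aeval (Sg x) f * Sg a = 0` (`Polynomial.aeval_algHom_apply`,
`Matrix.aeval_self_charpoly`).  `TA b = aeval (diagonal e) f * single y y (ϖ ^ c)` with
`e y = ϖ ^ c * d y`, and `aeval (diagonal e) f = diagonal (fun y => f.eval (e y))` (e.g. `aeval`
commutes with `Matrix.diagonalAlgHom` and with `Pi.evalAlgHom`), so its trace is
`f.eval (e y) * ϖ ^ c`.  The hypothesis gives `ϖ ^ (c + m1) ∣ f.eval (e y) * ϖ ^ c`; cancel `ϖ ^ c`.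
About 40 lines. -/
def T_ROOTS : Prop := ∀ (O : Type u) [CommRing O] [IsDomain O] (ϖ : O), ϖ ≠ 0 →
    ∀ (A : Type w) [Ring A] [Algebra O A] (N : ℕ) (X : Type) [Fintype X] [DecidableEq X]
    (Sg : A →ₐ[O] Matrix (Fin N) (Fin N) O) (TA : A →ₐ[O] Matrix X X O) (c m m1 : ℕ),
    m = c + m1 → (∀ a, ϖ ^ m ∣ (Sg a).trace - (TA a).trace) →
    (∀ y, ∃ a, TA a = Matrix.single y y (ϖ ^ c)) →
    ∀ (x : A) (d : X → O), TA x = Matrix.diagonal (fun y => ϖ ^ c * d y) →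
    ∀ y, ϖ ^ m1 ∣ ((Sg x).charpoly).eval (ϖ ^ c * d y)

/-- INTERP.  Proof.  By induction on the finset `S`: `∏ y ∈ S, (X - C (d y)) ∣ g`.  Step: if
`g = (∏ y ∈ S, (X - C (d y))) * h` and `z ∉ S`, evaluation at `d z` gives
`0 = (∏ y ∈ S, (d z - d y)) * h.eval (d z)`, and the product is a unit, so `h.eval (d z) = 0` and
`X - C (d z) ∣ h` (`Polynomial.dvd_iff_isRoot`).  For `S = univ` the product is monic of degree
`card X > degree g`, so `g = 0` (`Polynomial.Monic.not_dvd_of_degree_lt` or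
`Polynomial.eq_zero_of_monic_dvd...`; the zero ring is trivial).  About 40 lines. -/
def T_INTERP : Prop := ∀ (R : Type u) [CommRing R] (X : Type) [Fintype X] [DecidableEq X]
    (d : X → R), (∀ y z, y ≠ z → IsUnit (d y - d z)) → ∀ g : Polynomial R,
    g.degree < (Fintype.card X : WithBot ℕ) → (∀ y, g.eval (d y) = 0) → g = 0

/-- HENSEL (you may use `T_INTERP.{u}` as a hypothesis: `theorem p_HENSEL (h : T_INTERP.{u}) :
T_HENSEL.{u}`).  Proof.  `N = card X`, `Y` the variable.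
(1) `g(Y) = f(ϖ^c Y) - ϖ^(c N) ∏ (Y - d z)` (`f.comp (C (ϖ^c) * X)`) has degree `< N` (the
coefficient of `Y ^ N` is `ϖ^(cN) - ϖ^(cN)`) and `ϖ^m1 ∣ g.eval (d y)` for all `y`.  The image of
`g` in `(O / (ϖ^m1))[Y]` is `0` by INTERP, so `g = ϖ^m1 h`, `deg h < N`; as `m1 = N c + M0`,
`f(ϖ^c Y) = ϖ^(cN) F(Y)` with `F = ∏ (Y - d z) + ϖ^M0 h` monic of degree `N`.
(2) `O` is Henselian (`IsAdicComplete` for the maximal ideal `(ϖ)`, instance
`IsAdicComplete.henselianRing`/`HenselianLocalRing`): `F.eval (d y)` is divisible by `ϖ`,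
`F.derivative.eval (d y) = ∏_{z ≠ y} (d y - d z) + ϖ^M0 (..)` is a unit (`M0 > 0`), so there is a
root `ν y` of `F` with `ϖ ∣ ν y - d y`.
(3) `0 = F(ν y)` gives `ϖ^M0 ∣ ∏_z (ν y - d z)`; the factors `z ≠ y` are units (congruent to
`d y - d z` modulo `ϖ`), so `ϖ^M0 ∣ ν y - d y`.
(4) The `ν y` are distinct with unit differences (modulo `ϖ` they are the `d y`), so
`F - ∏ (Y - ν y)` has degree `< N` and vanishes at all `ν y`: it is `0` by INTERP.
(5) `f(ϖ^c Y) = ϖ^(cN) ∏ (Y - ν y) = (∏ (X - ϖ^c ν y))(ϖ^c Y)`; `p ↦ p(ϖ^c Y)` is injective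
(compare coefficients, or `Polynomial.comp`/`scaleRoots`), which is the claim.
About 120 lines. -/
def T_HENSEL : Prop := ∀ (O : Type u) [CommRing O] [IsDomain O] [IsDiscreteValuationRing O]
    (ϖ : O), Irreducible ϖ → IsAdicComplete (Ideal.span ({ϖ} : Set O)) O →
    ∀ (X : Type) [Fintype X] [DecidableEq X] (d : X → O),
    (∀ y z, y ≠ z → IsUnit (d y - d z)) → ∀ (c m1 M0 : ℕ), m1 = Fintype.card X * c + M0 →
    0 < M0 → ∀ f : Polynomial O, f.Monic → f.natDegree = Fintype.card X →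
    (∀ y, ϖ ^ m1 ∣ f.eval (ϖ ^ c * d y)) →
    ∃ ν : X → O, (∀ y, ϖ ^ M0 ∣ ν y - d y) ∧
      f = ∏ y, (Polynomial.X - Polynomial.C (ϖ ^ c * ν y))

/-! ### 2. Simultaneous diagonalization -/

/-- DIAG.  Proof.  Degrees: `card X = N`.  `μ y` is a root of the characteristic polynomial, hence
an eigenvalue: there is `u y ≠ 0` with `S *ᵥ u y = μ y • u y` (`Matrix.charpoly`,
`Module.End.hasEigenvalue_iff_isRoot_charpoly` or: `det (μ y • 1 - S) = 0` and
`Matrix.exists_mulVec_eq_zero_iff`).  The `u y` are linearly independent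
(`Module.End.eigenvectors_linearIndependent'`), so the matrix `U` with columns `u y` is invertible
(reindex by an equivalence `Fin N ≃ X` to get a square matrix, `Matrix.linearIndependent_cols_iff_
isUnit`).  `V` = inverse; `S * U = U * diagonal μ`, so `V * S * U = diagonal μ`.
About 60 lines. -/
def T_DIAG : Prop := ∀ (K : Type u) [Field K] (N : ℕ) (X : Type) [Fintype X] [DecidableEq X]
    (S : Matrix (Fin N) (Fin N) K) (μ : X → K), Function.Injective μ →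
    S.charpoly = ∏ y, (Polynomial.X - Polynomial.C (μ y)) →
    ∃ (U : Matrix (Fin N) X K) (V : Matrix X (Fin N) K), U * V = 1 ∧ V * U = 1 ∧
      V * S * U = Matrix.diagonal μ

/-- EV.  Proof: `toFun a := V * (Sg a).map (algebraMap O _) * U`; multiplicativity by inserting
`U * V = 1` (compare `MAIN_.conjHom` in `RTL/Main.lean`), `Matrix.map_mul`.  About 30 lines. -/
def T_EV : Prop := ∀ (O : Type u) [CommRing O] [IsDomain O] (A : Type w) [Ring A] [Algebra O A]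
    (N : ℕ) (X : Type) [Fintype X] [DecidableEq X] (Sg : A →ₐ[O] Matrix (Fin N) (Fin N) O)
    (U : Matrix (Fin N) X (FractionRing O)) (V : Matrix X (Fin N) (FractionRing O)),
    U * V = 1 → V * U = 1 → ∃ E : A →ₐ[O] Matrix X X (FractionRing O),
      ∀ a, E a = V * (Sg a).map (algebraMap O (FractionRing O)) * U

/-- DY.  Proof.  `w y = ∏_{z ≠ y} (ν y - ν z)` is a unit of `O` (`ν y - ν z` is congruent modulo
`ϖ` to the unit `d y - d z`, `M0 > 0`).  Put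
`D y = (w y)⁻¹ • ∏_{z ≠ y} (x - algebraMap O A (ϖ^c * ν z))`; to have a commutative product, take
`D y = aeval x q` with the polynomial
`q = C (w y)⁻¹ * ∏_{z ∈ univ.erase y} (X - C (ϖ^c * ν z))`, so that for every algebra homomorphism
`F` with `F x = diagonal e` one has `F (D y) = diagonal (fun t => q.eval (e t))` (evaluated in the
target ring).  For `E`: at `t ≠ y` a factor vanishes, at `t = y` the value is
`(w y)⁻¹ ϖ^(c (N-1)) w y = ϖ^c'` (`c' = (N-1) c`).  For `TA`: at `t ≠ y` the factor `z = t` is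
`ϖ^c (d t - ν t)`, divisible by `ϖ^(c + M0)`, the other `N - 2` factors are divisible by `ϖ^c`:
total `ϖ^(c' + M0)`; at `t = y` the value is `ϖ^c' (w y)⁻¹ ∏_{z ≠ y} (d y - ν z)` and
`∏_{z ≠ y} (d y - ν z)` is congruent to `w y` modulo `ϖ^M0`.  About 90 lines. -/
def T_DY : Prop := ∀ (O : Type u) [CommRing O] [IsDomain O] [IsDiscreteValuationRing O] (ϖ : O),
    Irreducible ϖ → ∀ (A : Type w) [Ring A] [Algebra O A] (X : Type) [Fintype X] [DecidableEq X]
    (E : A →ₐ[O] Matrix X X (FractionRing O)) (TA : A →ₐ[O] Matrix X X O) (x : A) (d ν : X → O)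
    (c c' M0 : ℕ), (∀ y z, y ≠ z → IsUnit (d y - d z)) → 0 < M0 → (∀ y, ϖ ^ M0 ∣ ν y - d y) →
    c' + c = Fintype.card X * c → TA x = Matrix.diagonal (fun y => ϖ ^ c * d y) →
    E x = Matrix.diagonal (fun y => algebraMap O (FractionRing O) (ϖ ^ c * ν y)) →
    ∃ D : X → A, IsD ϖ c' (c' + M0) E TA D

/-! ### 3. Normalization of the diagonal blocks -/

/-- WALK3.  Proof.  Take `P = D y * a * D z * b * D w * e`.  `(E P).trace =
p̂^(3 c') E(a)_{yz} E(b)_{zw} E(e)_{wy}` (products with `Matrix.single`).  `TA (D y)` is congruent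
to `single y y (ϖ ^ c')` modulo `ϖ ^ k` (entrywise; these congruences are compatible with products:
map to `O / (ϖ ^ k)`, for instance with `red ϖ k`), so `(TA P).trace` is congruent to
`ϖ^(3 c') TA(a)_{yz} TA(b)_{zw} TA(e)_{wy}` modulo `ϖ ^ k`.  By `TrCong` and `k ≤ m` the difference
of the two traces is in `ϖ ^ k O`; divide by `ϖ^(3 c')`.  About 60 lines. -/
def T_WALK3 : Prop := ∀ (O : Type u) [CommRing O] [IsDomain O] (ϖ : O), ϖ ≠ 0 →
    ∀ (A : Type w) [Ring A] [Algebra O A] (X : Type) [Fintype X] [DecidableEq X]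
    (E : A →ₐ[O] Matrix X X (FractionRing O)) (TA : A →ₐ[O] Matrix X X O) (m k c' : ℕ)
    (D : X → A), k ≤ m → TrCong ϖ m E TA → IsD ϖ c' k E TA D →
    ∀ (a b e : A) (y z w : X), Lev ϖ ((k : ℤ) - 3 * c')
      (E a y z * E b z w * E e w y -
        algebraMap O (FractionRing O) (TA a y z * TA b z w * TA e w y))

/-- NORM (you may use `T_WALK3.{u, w}` as a hypothesis).  Proof.  Let `b = bp hn i` for `y` in the
block `i`.  For `y = ⟨i, s⟩` choose `Z y`, `Z' y` with `T i (Z y) = ϖ^c • single s 0 1`,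
`T i (Z' y) = ϖ^c • single 0 s 1` (`0` = first index of `Fin (n i)`).
(1) WALK3 with `(a, b, e) = (Z y, 1, Z' y)` and the points `y, b, b`: `E(Z y)_{yb} E(Z' y)_{by} -
ϖ^(2c)` is in `ϖ^(k - 3c') O = ϖ^(ρ + 2c) O`, so the product is `ϖ^(2c) (1 + δ)`, `δ ∈ ϖ^ρ O`,
`ρ > 0`; in particular it is not zero.  Put `u y = E(Z y)_{yb} / ϖ^c ≠ 0`.
(2) `y, z` in the same block `i`, `a ∈ A`: WALK3 with `(a, Z z, Z' y)`, points `y, z, b`:
`E(a)_{yz} E(Z z)_{zb} E(Z' y)_{by} - ϖ^(2c) T i a y z ∈ ϖ^(ρ + 2c) O`.  The product is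
`E(a)_{yz} (u z ϖ^c) (ϖ^c (1 + δ) (u y)⁻¹) = ϖ^(2c) e (1 + δ)` with
`e = (u y)⁻¹ E(a)_{yz} u z`.  So `e (1 + δ) - T i a y z ∈ ϖ^ρ O`, and `1 + δ` is a unit of `O`,
`δ ∈ ϖ^ρ O`, so `e - T i a y z ∈ ϖ^ρ O`.  About 90 lines. -/
def T_NORM : Prop := ∀ (O : Type u) [CommRing O] [IsDomain O] [IsDiscreteValuationRing O] (ϖ : O),
    Irreducible ϖ → ∀ (A : Type w) [Ring A] [Algebra O A] (ι : Type) [Fintype ι] [DecidableEq ι]
    (n : ι → ℕ), (∀ i, 0 < n i) → ∀ (T : (i : ι) → A →ₐ[O] Matrix (Fin (n i)) (Fin (n i)) O)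
    (E : A →ₐ[O] Matrix (Idx n) (Idx n) (FractionRing O)) (m k c c' ρ : ℕ) (D : Idx n → A),
    k ≤ m → k = ρ + 3 * c' + 2 * c → 0 < ρ → TrCong ϖ m E (bd T) → IsD ϖ c' k E (bd T) D →
    (∀ b : (i : ι) → Matrix (Fin (n i)) (Fin (n i)) O, ∃ a, ∀ i, T i a = ϖ ^ c • b i) →
    ∃ u : Idx n → FractionRing O, (∀ y, u y ≠ 0) ∧ ∀ a i s t,
      Lev ϖ ρ ((u ⟨i, s⟩)⁻¹ * E a ⟨i, s⟩ ⟨i, t⟩ * u ⟨i, t⟩ -
        algebraMap O (FractionRing O) (T i a s t))

/-- RESC (rescaling of the basis).  Proof: `U' = U * diagonal u`,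
`V' = diagonal (fun y => (u y)⁻¹) * V` (entries: `Matrix.mul_diagonal`, `Matrix.diagonal_mul`).
About 30 lines. -/
def T_RESC : Prop := ∀ (K : Type u) [Field K] (N : ℕ) (X : Type) [Fintype X] [DecidableEq X]
    (U : Matrix (Fin N) X K) (V : Matrix X (Fin N) K), U * V = 1 → V * U = 1 →
    ∀ u : X → K, (∀ y, u y ≠ 0) → ∃ (U' : Matrix (Fin N) X K) (V' : Matrix X (Fin N) K),
      U' * V' = 1 ∧ V' * U' = 1 ∧ ∀ (M : Matrix (Fin N) (Fin N) K) (y z : X),
        (V' * M * U') y z = (u y)⁻¹ * (V * M * U) y z * u z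

/-! ### 4. The exponents of the blocks -/

/-- BND (bounded denominators).  Proof: there is `e1 : ℕ` with `Lev ϖ (-e1)` for all (finitely many)
entries of `U` and `V` (every element of the fraction field has this property by `exists_levU` or
`x = 0`; take a maximum over the entries).  The entry is `∑ V y p * M p q * U q z`, and
`Lev ϖ r (M p q)`; take `e = -2 e1`.  About 40 lines. -/
def T_BND : Prop := ∀ (O : Type u) [CommRing O] [IsDomain O] [IsDiscreteValuationRing O] (ϖ : O),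
    Irreducible ϖ → ∀ (N : ℕ) (X : Type) [Fintype X] [DecidableEq X]
    (U : Matrix (Fin N) X (FractionRing O)) (V : Matrix X (Fin N) (FractionRing O)),
    ∃ e : ℤ, ∀ (r : ℕ) (M : Matrix (Fin N) (Fin N) O), (∀ p q, ϖ ^ r ∣ M p q) →
      ∀ y z, Lev ϖ (e + r) ((V * M.map (algebraMap O (FractionRing O)) * U) y z)

/-- IRR.  Proof.  Fix `z`, let `Y` be the set of the `y` with `E(a)_{yz} ≠ 0` for some `a`, and
suppose `y₀ ∉ Y`.  `W = {w | ∀ y ∉ Y, (V w)_y = 0}` (`w ∈ O^N`, mapped to `K^N`) is a submodule.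
It is stable: `V Sg(a) = E(a) V`, so `(V Sg(a) w)_{y'} = ∑_y E(a)_{y'y} (V w)_y`; if this is not
zero, there is `y` with `E(a)_{y'y} ≠ 0` and `(V w)_y ≠ 0`, hence `y ∈ Y`, `E(b)_{yz} ≠ 0` for
some `b`, and `E(a * D y * b)_{y'z} = p̂^c' E(a)_{y'y} E(b)_{yz} ≠ 0`, so `y' ∈ Y`.
`W ≠ ⊥`: for large `k` the vector `ϖ^k • (column z of U)` is integral; it is `w ≠ 0` in `O^N` with
`V w = ϖ^k e_z` (`V U = 1`), and `z ∈ Y` (`a = 1`).  (Clear denominators:
`IsLocalization.exist_integer_multiples` also works, with a nonzero element instead of `ϖ^k`.)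
So `ϖ^k • v ∈ W` for all `v`, hence the row `y₀` of `V` is zero, a contradiction to `V U = 1`.
About 90 lines. -/
def T_IRR : Prop := ∀ (O : Type u) [CommRing O] [IsDomain O] [IsDiscreteValuationRing O] (ϖ : O),
    Irreducible ϖ → ∀ (A : Type w) [Ring A] [Algebra O A] (N : ℕ) (X : Type) [Fintype X]
    [DecidableEq X] (Sg : A →ₐ[O] Matrix (Fin N) (Fin N) O)
    (U : Matrix (Fin N) X (FractionRing O)) (V : Matrix X (Fin N) (FractionRing O)),
    U * V = 1 → V * U = 1 → ∀ E : A →ₐ[O] Matrix X X (FractionRing O),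
    (∀ a, E a = V * (Sg a).map (algebraMap O (FractionRing O)) * U) →
    ∀ (c' : ℕ) (D : X → A),
    (∀ y, E (D y) = Matrix.single y y (algebraMap O (FractionRing O) ϖ ^ c')) →
    (∀ W : Submodule O (Fin N → O), (∀ a, ∀ w ∈ W, Sg a *ᵥ w ∈ W) →
      W = ⊥ ∨ ∃ k : ℕ, ∀ v : Fin N → O, ϖ ^ k • v ∈ W) →
    ∀ y z, ∃ a, E a y z ≠ 0

/-- ALPHA.  Proof: the set of the integers `e` such that `LevU ϖ e (E a ⟨i, s⟩ ⟨j, t⟩)` for some
`a, s, t` is not empty (`exists_levU`) and bounded below by `e0` (`LevU.le`); let `α` be its minimum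
(`Int.exists_least_of_bdd`).  For other `a, s, t` the entry is `0` or of exact level `≥ α`
(`exists_levU`, `LevU.lev`, `Lev.mono`).  About 30 lines. -/
def T_ALPHA : Prop := ∀ (O : Type u) [CommRing O] [IsDomain O] [IsDiscreteValuationRing O]
    (ϖ : O), Irreducible ϖ → ∀ (A : Type w) [Ring A] [Algebra O A] (ι : Type) [Fintype ι]
    [DecidableEq ι] (n : ι → ℕ) (E : A →ₐ[O] Matrix (Idx n) (Idx n) (FractionRing O)) (e0 : ℤ),
    (∀ a y z, Lev ϖ e0 (E a y z)) → ∀ i j, (∃ a s t, E a ⟨i, s⟩ ⟨j, t⟩ ≠ 0) →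
    ∃ α : ℤ, (∀ a s t, Lev ϖ α (E a ⟨i, s⟩ ⟨j, t⟩)) ∧ ∃ a s t, LevU ϖ α (E a ⟨i, s⟩ ⟨j, t⟩)

/-! ### 5. Closed walks and the cut inequality -/

/-- STEPS.  Proof.  Let `LevU ϖ α (E a ⟨i, s⟩ ⟨j, t⟩)`, `y = ⟨i, s⟩`, `z = ⟨j, t⟩`,
`b = bp hn i`, `b' = bp hn j`.  Choose `W`, `W'` with `T i W = ϖ^c • single 0 s 1` and
`T j W' = ϖ^c • single t 0 1` (`0` = first index).  `E(W)_{by} - ϖ^c ∈ ϖ^ρ O`, `ρ > c`, so
`LevU ϖ c (E(W)_{by})` (`LevU.add_lev`), also `LevU ϖ c (E(W')_{zb'})`.  Take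
`B = D b * W * D y * a * D z * W' * D b'`.  Then
`E B = single b b' (p̂^(4c') E(W)_{by} E(a)_{yz} E(W')_{zb'})`, of exact level `α + 4c' + 2c`.
Modulo `ϖ^k`: `TA (D y * a * D z)` is `single y y (ϖ^c') * TA a * single z z (ϖ^c')`, which is
`single y z (ϖ^(2c') TA(a)_{yz}) = 0` because `TA(a)_{yz} = 0` (`bd_ne`); so all entries of
`TA B` are divisible by `ϖ^k` (work in `O / (ϖ^k)`).  About 90 lines. -/
def T_STEPS : Prop := ∀ (O : Type u) [CommRing O] [IsDomain O] [IsDiscreteValuationRing O]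
    (ϖ : O), Irreducible ϖ → ∀ (A : Type w) [Ring A] [Algebra O A] (ι : Type) [Fintype ι]
    [DecidableEq ι] (n : ι → ℕ) (hn : ∀ i, 0 < n i)
    (T : (i : ι) → A →ₐ[O] Matrix (Fin (n i)) (Fin (n i)) O)
    (E : A →ₐ[O] Matrix (Idx n) (Idx n) (FractionRing O)) (k c c' ρ : ℕ) (D : Idx n → A),
    IsD ϖ c' k E (bd T) D → c < ρ →
    (∀ a i s t, Lev ϖ ρ (E a ⟨i, s⟩ ⟨i, t⟩ - algebraMap O (FractionRing O) (T i a s t))) →
    (∀ b : (i : ι) → Matrix (Fin (n i)) (Fin (n i)) O, ∃ a, ∀ i, T i a = ϖ ^ c • b i) →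
    ∀ i j, i ≠ j → ∀ α : ℤ, (∃ a s t, LevU ϖ α (E a ⟨i, s⟩ ⟨j, t⟩)) →
    ∃ B : A, (∃ e, LevU ϖ (α + 4 * c' + 2 * c) e ∧
        E B = Matrix.single (bp hn i) (bp hn j) e) ∧
      ∀ p q, ϖ ^ k ∣ bd T B p q

/-- WALK.  Proof.  Choose `B i j`, `e i j` (for `i = j` put `1`).  By induction on `l`:
`P l = D (b (w 0)) * (product over t < l of (if w t = w (t+1) then 1 else B (w t) (w (t+1))))`
(defined recursively) satisfies `E (P l) = single (b (w 0)) (b (w l)) x` with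
`LevU ϖ (c' + ∑ t ∈ range l, ..) x`, and if there is a non-stay `t < l`, all entries of `TA (P l)`
are divisible by `ϖ ^ k`.  For the closed walk: `(E (P l)).trace = x`, `TrCong` and `k ≤ m` give
`Lev ϖ k x`, so `k ≤ c' + ∑` by `LevU.le`.  About 70 lines. -/
def T_WALK : Prop := ∀ (O : Type u) [CommRing O] [IsDomain O] [IsDiscreteValuationRing O]
    (ϖ : O), Irreducible ϖ → ∀ (A : Type w) [Ring A] [Algebra O A] (X : Type) [Fintype X]
    [DecidableEq X] (E : A →ₐ[O] Matrix X X (FractionRing O)) (TA : A →ₐ[O] Matrix X X O)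
    (m k c' : ℕ) (D : X → A), k ≤ m → TrCong ϖ m E TA → IsD ϖ c' k E TA D →
    ∀ (ι : Type) [DecidableEq ι] (b : ι → X) (α' : ι → ι → ℤ),
    (∀ i j, i ≠ j → ∃ B : A, (∃ e, LevU ϖ (α' i j) e ∧ E B = Matrix.single (b i) (b j) e) ∧
      ∀ p q, ϖ ^ k ∣ TA B p q) →
    ∀ (w : ℕ → ι) (l : ℕ), w l = w 0 → (∃ t < l, w t ≠ w (t + 1)) →
    (k : ℤ) - c' ≤
      ∑ t ∈ Finset.range l, if w t = w (t + 1) then 0 else α' (w t) (w (t + 1))

/-- CUT (combinatorics).  Proof.  `S = P ×ˢ Pᶜ` is not empty.  If `ρ ≤ ε i j` for some `(i, j) ∈ S`,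
take `T = {(i, j)}` (`q ≥ 0`).  Otherwise choose for every `p = (i, j) ∈ S` (so `i ≠ j`) the `u` of
the hypothesis and let `next p = (u, j)` if `u ∈ P` and `next p = (i, u)` if `u ∉ P`; `next` maps
`S` to `S`, and it changes exactly one coordinate.  By finiteness there is a cycle
`p 0, …, p (k - 1) ∈ S` of distinct points with `p (t + 1) = next (p t)`, `p k = p 0`, `k ≥ 1`
(a periodic point of `next`, with `Function.minimalPeriod`; `Set.MapsTo`, pigeonhole), `T` = the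
set of its points.  Let `left t = α (i t) (i (t+1))` if the first coordinate moves and
`α (j (t+1)) (j t)` if the second moves.  The hypothesis says
`left t + α (p (t+1)) - α (p t) ≤ ε (p t)` (with `α (i, j) = α i j`), so
`∑_T ε ≥ ∑_{t<k} left t` (telescoping) and `∑_T (ε + q) ≥ ∑_{t<k} (left t + q)`.  The last sum is
the sum of the walk expression of the closed walk `t ↦ i t` and of the closed walk
`t ↦ j (k - t)` (reversed, `Finset.sum_range_reflect`); each of them is `0` if the walk does not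
move and at least `κ ≥ 0` otherwise, and at least one of them moves.  So the sum is at least `κ`.
About 150 lines. -/
def T_CUT : Prop := ∀ (ι : Type) [Fintype ι] [DecidableEq ι] (α : ι → ι → ℤ) (κ q ρ : ℤ),
    0 ≤ q → 0 ≤ κ →
    (∀ (w : ℕ → ι) (l : ℕ), w l = w 0 → (∃ t < l, w t ≠ w (t + 1)) →
      κ ≤ ∑ t ∈ Finset.range l, if w t = w (t + 1) then 0 else α (w t) (w (t + 1)) + q) →
    ∀ ε : ι → ι → ℤ, (∀ i j, 0 ≤ ε i j) →
    (∀ i j, i ≠ j → ρ ≤ ε i j ∨ ∃ u, u ≠ i ∧ u ≠ j ∧ α i u + α u j - α i j ≤ ε i j) →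
    ∀ P : Finset ι, P.Nonempty → P ≠ Finset.univ →
    ∃ T : Finset (ι × ι), T.Nonempty ∧ T ⊆ P ×ˢ Pᶜ ∧
      min ρ κ ≤ ∑ p ∈ T, (ε p.1 p.2 + q)

/-! ### 6. Cocycles -/

/-- COC.  Proof.  `ζ a s t` is the element of `O` with
`E(a)_{⟨i,s⟩⟨j,t⟩} = p̂^(α i j) * ζ a s t` (choose; unique, so `ζ` is linear).  For `a, b`:
`E(a b)_{pq} = ∑_w E(a)_{pw} E(b)_{wq}` with `p = ⟨i, s⟩`, `q = ⟨j, t⟩`, `w = ⟨u, r⟩`
(`Finset.sum_sigma`).  `u = i`: `E(a)_{pw} = T i a s r + ϖ^ρ O`, `E(b)_{wq} = p̂^α ζ b r t`.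
`u = j`: `E(a)_{pw} = p̂^α ζ a s r`, `E(b)_{wq} = T j b r t + ϖ^ρ O`.  Other `u`: the product is in
`ϖ^(α i u + α u j) O`, contained in `ϖ^(eps + α i j) O`.  As `eps ≤ ρ`,
`p̂^α (ζ (a b) - T i a * ζ b - ζ a * T j b) s t ∈ ϖ^(α + eps) O`; divide by `p̂^α`
(`Lev.of_iff`).  About 90 lines. -/
def T_COC : Prop := ∀ (O : Type u) [CommRing O] [IsDomain O] [IsDiscreteValuationRing O]
    (ϖ : O), Irreducible ϖ → ∀ (A : Type w) [Ring A] [Algebra O A] (ι : Type) [Fintype ι]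
    [DecidableEq ι] (n : ι → ℕ) (T : (i : ι) → A →ₐ[O] Matrix (Fin (n i)) (Fin (n i)) O)
    (E : A →ₐ[O] Matrix (Idx n) (Idx n) (FractionRing O)) (ρ : ℕ),
    (∀ a i s t, Lev ϖ ρ (E a ⟨i, s⟩ ⟨i, t⟩ - algebraMap O (FractionRing O) (T i a s t))) →
    ∀ α : ι → ι → ℤ, (∀ i j, i ≠ j → ∀ a s t, Lev ϖ (α i j) (E a ⟨i, s⟩ ⟨j, t⟩)) →
    ∀ i j, i ≠ j → ∀ eps : ℕ, eps ≤ ρ →
    (∀ u, u ≠ i → u ≠ j → (eps : ℤ) ≤ α i u + α u j - α i j) →
    ∃ ζ : A →ₗ[O] Matrix (Fin (n i)) (Fin (n j)) O,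
      (∀ a s t, E a ⟨i, s⟩ ⟨j, t⟩ =
        algebraMap O (FractionRing O) ϖ ^ (α i j) * algebraMap O (FractionRing O) (ζ a s t)) ∧
      ∀ a b s t, ϖ ^ eps ∣ (ζ (a * b) - (T i a * ζ b + ζ a * T j b)) s t

/-- ORD.  Proof.  Let `LevU ϖ α (E a0 ⟨i, s⟩ ⟨j, t⟩)`, so `ζ a0 s t` is a unit of `O`.  Put
`y = ⟨i, s⟩`, `z = ⟨j, t⟩`, `a = D y * a0 * D z`.  `E(a)_{yz} = p̂^(2c') E(a0)_{yz}`, so
`ζ a s t = ϖ^(2c') ζ a0 s t`.  All entries of `T i a` and `T j a` are divisible by `ϖ^k`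
(`bd T a` is congruent to `single y y (ϖ^c') * bd T a0 * single z z (ϖ^c')
= single y z (ϖ^(2c') (bd T a0) y z) = 0` modulo `ϖ^k`).  The hypothesis for `a, s, t` and `k ≤ m`
give `ϖ^k ∣ ϖ^(l + (m - eps)) ϖ^(2c') · unit`, so `k ≤ l + (m - eps) + 2c'`, i.e. (`m = k + 2c`,
`eps ≤ m`) `eps ≤ l + 2c' + 2c`.  About 80 lines. -/
def T_ORD : Prop := ∀ (O : Type u) [CommRing O] [IsDomain O] [IsDiscreteValuationRing O]
    (ϖ : O), Irreducible ϖ → ∀ (A : Type w) [Ring A] [Algebra O A] (ι : Type) [Fintype ι]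
    [DecidableEq ι] (n : ι → ℕ) (T : (i : ι) → A →ₐ[O] Matrix (Fin (n i)) (Fin (n i)) O)
    (E : A →ₐ[O] Matrix (Idx n) (Idx n) (FractionRing O)) (m k c c' : ℕ) (D : Idx n → A),
    m = k + 2 * c → IsD ϖ c' k E (bd T) D → ∀ i j, i ≠ j → ∀ (α : ℤ)
    (ζ : A →ₗ[O] Matrix (Fin (n i)) (Fin (n j)) O),
    (∀ a s t, E a ⟨i, s⟩ ⟨j, t⟩ =
      algebraMap O (FractionRing O) ϖ ^ α * algebraMap O (FractionRing O) (ζ a s t)) →
    (∃ a s t, LevU ϖ α (E a ⟨i, s⟩ ⟨j, t⟩)) → ∀ (eps l : ℕ), eps ≤ m →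
    ∀ Y : Matrix (Fin (n i)) (Fin (n j)) O,
    (∀ a s t, ϖ ^ m ∣ (ϖ ^ (l + (m - eps)) • ζ a - (T i a * Y - Y * T j a)) s t) →
    eps ≤ l + 2 * c' + 2 * c

/-! ### 7. The class of representations -/

/-- PROD.  Proof: induction on `k`.  `k = 0`: the zero module is a quotient of `M` (the zero map,
`RepClass.Closed.quot`).  Step: `M × (Fin k → M)` is in `C` by `prod`, and
`(Fin (k+1) → M) → M × (Fin k → M)`, `x ↦ (x 0, fun i => x i.succ)` is injective and equivariant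
(`RepClass.Closed.sub`).  About 30 lines. -/
def T_PROD : Prop := ∀ (O : Type u) [CommRing O] (G : Type v) [Group G] (C : RepClass O G),
    C.Closed → ∀ (M : Type u) [AddCommGroup M] [Module O M] (ρ : Representation O G M), C M ρ →
    ∀ k : ℕ, C (Fin k → M) (piRep k ρ)

/-- SUBQ.  Proof: the range of `p` is stable under `ρM` (`ρM g (p x) = p (ρF g x)`); let `ρ'` be the
restriction of `ρM` to `LinearMap.range p`; it is in `C` by `sub` (inclusion).  As
`ker p ≤ ker q`, there is a linear map `h : range p → M'` with `h (p x) = q x` (choose preimages, or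
`LinearMap.quotKerEquivRange` and `Submodule.liftQ`); it is onto and equivariant, so `M'` is in `C`
by `quot`.  About 50 lines. -/
def T_SUBQ : Prop := ∀ (O : Type u) [CommRing O] (G : Type v) [Group G] (C : RepClass O G),
    C.Closed → ∀ (M M' : Type u) [AddCommGroup M] [Module O M] [AddCommGroup M'] [Module O M']
    (ρ : Representation O G M) (ρ' : Representation O G M') (F : Type w) [AddCommGroup F]
    [Module O F] (ρF : G → F →ₗ[O] F) (p : F →ₗ[O] M) (q : F →ₗ[O] M'),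
    (∀ g x, p (ρF g x) = ρ g (p x)) → (∀ g x, q (ρF g x) = ρ' g (q x)) →
    Function.Surjective q → (∀ x, p x = 0 → q x = 0) → C M ρ → C M' ρ'

/-- CLS (you may use `T_PROD.{u, v}` and `T_SUBQ.{u, v, max u v}` as hypotheses).  Proof.
Write `Sg`, `T'` for the lifts of `σ`, `τ'` to `R = MonoidAlgebra O G`.
(1) `η (of g * x) = red (τ g) * η x + z g * red (T' x)` for `x ∈ R`: for `x = of h` this is the
cocycle identity; both sides are `O`-linear in `x` (`MonoidAlgebra.induction_linear`).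
(2) `F = (Fin b → R) × (Fin a → Quo ϖ m)`, `ρF g (x, v) = (of g * x k, red (τ g) *ᵥ v)`.
`q (x, v) = (v + ∑_k η (x k) *ᵥ e_k, ∑_k red (T' (x k)) *ᵥ e_k)` (`e_k = Pi.single k 1`), to the
space of `extRep`; equivariant by (1); onto: take `x k = algebraMap of a lift of the k-th
coordinate`, then choose `v`.
`p (x, v) = (columns of Sg (x k) mod ϖ^r, red (T' (x k)) *ᵥ e_k, v)` with values in
`(Fin b → Fin N → latRep r σ) × (Fin b → latRep m τ') × latRep m τ`, which is in `C` by PROD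
(twice for the first factor) and `prod`; equivariant.  If `p (x, v) = 0` then `Sg (x k)` is `0`
modulo `ϖ^r`, so `η (x k) = 0`, also `red (T' (x k)) *ᵥ e_k = 0` and `v = 0`, so `q (x, v) = 0`.
(3) SUBQ.  About 150 lines. -/
def T_CLS : Prop := ∀ (O : Type u) [CommRing O] (ϖ : O) (G : Type v) [Group G]
    (C : RepClass O G), C.Closed → ∀ (N a b m r : ℕ) (σ : G →* Matrix (Fin N) (Fin N) O)
    (τ : G →* Matrix (Fin a) (Fin a) O) (τ' : G →* Matrix (Fin b) (Fin b) O),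
    C _ (latRep ϖ r σ) → C _ (latRep ϖ m τ) → C _ (latRep ϖ m τ') →
    ∀ η : MonoidAlgebra O G →ₗ[O] Matrix (Fin a) (Fin b) (Quo ϖ m),
    (∀ x, (∀ p q, ϖ ^ r ∣ (MonoidAlgebra.lift O _ G σ) x p q) → η x = 0) →
    ∀ z : Z1 ϖ m τ τ', (∀ g, z.1 g = η (MonoidAlgebra.of O G g)) →
    C _ (extRep ϖ m τ τ' z)

/-- ZERO.  Proof: for `z = 0` the identity map from `extRep` to the product of the two `latRep`s is
injective and equivariant; `sub` and `prod`.  About 20 lines. -/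
def T_ZERO : Prop := ∀ (O : Type u) [CommRing O] (ϖ : O) (G : Type v) [Group G]
    (C : RepClass O G), C.Closed → ∀ (a b m : ℕ)
    (τ : G →* Matrix (Fin a) (Fin a) O) (τ' : G →* Matrix (Fin b) (Fin b) O),
    C _ (latRep ϖ m τ) → C _ (latRep ϖ m τ') → ∀ z : Z1 ϖ m τ τ', z.1 = 0 →
    C _ (extRep ϖ m τ τ' z)

/-! ### 8. Passage to the group algebra -/

/-- SETUP.  Proof.  (1) `MonoidAlgebra.induction_linear` (trace of a block diagonal matrix:
`Finset.sum_sigma`, `bd_eq`; or `Matrix.trace_blockDiagonal'`).  (2) `MonoidAlgebra.lift_apply` for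
`MonoidAlgebra.ofCoeff a` (compare `hsurj` in `RTL/Main.lean`).  About 60 lines. -/
def T_SETUP : Prop := ∀ (O : Type u) [CommRing O] (ϖ : O) (G : Type v) [Group G] (ι : Type)
    [Fintype ι] [DecidableEq ι] (n : ι → ℕ) (N : ℕ) (σ : G →* Matrix (Fin N) (Fin N) O)
    (τ : (i : ι) → G →* Matrix (Fin (n i)) (Fin (n i)) O) (c m : ℕ),
    (∀ b : (i : ι) → Matrix (Fin (n i)) (Fin (n i)) O, ∃ a : G →₀ O,
      ∀ i, a.sum (fun g x => x • τ i g) = ϖ ^ c • b i) →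
    (∀ g, ϖ ^ m ∣ (σ g).trace - ∑ i, (τ i g).trace) →
    (∀ a, ϖ ^ m ∣ (MonoidAlgebra.lift O _ G σ a).trace -
      (bd (fun i => MonoidAlgebra.lift O _ G (τ i)) a).trace) ∧
    (∀ b : (i : ι) → Matrix (Fin (n i)) (Fin (n i)) O, ∃ a : MonoidAlgebra O G,
      ∀ i, MonoidAlgebra.lift O _ G (τ i) a = ϖ ^ c • b i)

end Pool.Agent.RRC
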